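import Mathlib

/-!
# Averages of products over finite abelian groups and over boxes
-/

set_option autoImplicit false
set_option linter.all false

namespace Pool.Agent.K9h5

open Finset

section group

variable {Λ G G' : Type} [AddCommGroup Λ] [AddCommGroup G] [AddCommGroup G'] [Fintype Λ]
  [Fintype G] [Fintype G'] [DecidableEq G] [DecidableEq G'] [DecidableEq Λ]

/-- the fibres of a homomorphism -/
theorem sum_hom (φ : Λ →+ G) (f : G → ℝ) :
    ∑ c : Λ, f (φ c) = (Nat.card φ.ker : ℝ) * ∑ u : φ.range, f u := by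
  classical
  rw [← Finset.sum_fiberwise_of_maps_to (s := (univ : Finset Λ)) (t := (univ : Finset φ.range))
    (g := fun c => φ.rangeRestrict c) (fun _ _ => mem_univ _), Finset.mul_sum]
  refine Finset.sum_congr rfl fun u _ => ?_
  obtain ⟨c₀, hc₀⟩ := φ.rangeRestrict_surjective u
  have h0 : φ c₀ = u := by rw [← hc₀]; rfl
  have h1 : ∀ c ∈ univ.filter (fun c : Λ => φ.rangeRestrict c = u), f (φ c) = f u := by
    intro c hc
    rw [mem_filter] at hc
    rw [← hc.2]
    rfl
  rw [Finset.sum_congr rfl h1, Finset.sum_const, nsmul_eq_mul]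
  congr 2
  rw [Nat.card_eq_fintype_card, ← card_univ]
  refine card_bij' (fun c hc => (⟨c - c₀, ?_⟩ : φ.ker)) (fun k _ => (k : Λ) + c₀) ?_ ?_ ?_ ?_
  · rw [mem_filter] at hc
    have h2 : φ c = u := by rw [← hc.2]; rfl
    rw [AddMonoidHom.mem_ker, map_sub, h2, h0, sub_self]
  · intro c _; exact mem_univ _
  · intro k _
    rw [mem_filter]
    refine ⟨mem_univ _, ?_⟩
    apply Subtype.ext
    show φ ((k : Λ) + c₀) = u
    rw [map_add, k.2, zero_add, h0]
  · intro c _; simp
  · intro k _; simp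

theorem card_range_ker (φ : Λ →+ G) :
    Nat.card φ.range * Nat.card φ.ker = Fintype.card Λ := by
  have h1 := φ.ker.card_eq_card_quotient_mul_card_addSubgroup
  rw [Nat.card_eq_fintype_card (α := Λ)] at h1
  rw [h1]
  congr 1
  exact Nat.card_congr (QuotientAddGroup.quotientKerEquivRange φ).symm.toEquiv

/-- **Sums over a coset of a subgroup.** -/
theorem coset_corr (Γ : AddSubgroup G) [Fintype Γ] (F : G → ℝ) (hF : ∀ u, |F u| ≤ 1) (Bd : Finset G) (κ : ℝ)
    (hκ : 0 ≤ κ) (hcor : ∀ v ∉ Bd, |∑ u, F u * F (u + v)| ≤ κ) (τ : G) :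
    (∑ w : Γ, F (τ + w)) ^ 2 ≤ (Bd.card : ℝ) * Fintype.card G + Nat.card Γ * κ := by
  classical
  set B : G → ℝ := fun u => ∑ v : Γ, F (u + v) with hB
  have hBinv : ∀ (u : G) (w : Γ), B (u + w) = B u := by
    intro u w
    rw [hB]
    simp only
    rw [← Equiv.sum_comp (Equiv.addLeft (-w)) (fun v : Γ => F (u + w + v))]
    refine Finset.sum_congr rfl fun v _ => ?_
    congr 1
    simp only [Equiv.coe_addLeft, AddSubgroup.coe_add, AddSubgroup.coe_neg]
    abel
  have hΓ0 : (0 : ℝ) < Nat.card Γ := by exact_mod_cast Nat.card_pos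
  have h4 : ∑ u : G, B u ^ 2 = (Nat.card Γ : ℝ) * ∑ v : Γ, ∑ u : G, F u * F (u + v) := by
    have h5 : ∀ w : Γ, ∑ u : G, F (u + w) * B u = ∑ v : Γ, ∑ u : G, F u * F (u + v) := by
      intro w
      have h6 := Equiv.sum_comp (Equiv.addRight (w : G)) (fun u : G => F u * B u)
      simp only [Equiv.coe_addRight, hBinv _ w] at h6
      rw [h6]
      simp only [hB, Finset.mul_sum]
      rw [Finset.sum_comm]
    have h6 : ∀ u : G, B u ^ 2 = ∑ w : Γ, F (u + w) * B u := by
      intro u
      rw [← Finset.sum_mul, sq]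
    rw [Finset.sum_congr rfl fun u _ => h6 u, Finset.sum_comm,
      Finset.sum_congr rfl fun w _ => h5 w, Finset.sum_const, card_univ, nsmul_eq_mul,
      Nat.card_eq_fintype_card]
  have h5 : ∑ v : Γ, ∑ u : G, F u * F (u + v) ≤ Bd.card * Fintype.card G + Nat.card Γ * κ := by
    have h6 : ∀ v : Γ, ∑ u : G, F u * F (u + v) ≤
        (if (v : G) ∈ Bd then (Fintype.card G : ℝ) else 0) + κ := by
      intro v
      split_ifs with hv
      · have h7 : ∑ u : G, F u * F (u + v) ≤ Fintype.card G := by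
          refine (Finset.sum_le_card_nsmul _ _ 1 ?_).trans ?_
          · intro u _
            have a3 : |F u * F (u + v)| ≤ 1 := by
              rw [abs_mul]
              exact mul_le_one₀ (hF _) (abs_nonneg _) (hF _)
            exact (abs_le.1 a3).2
          · rw [card_univ, nsmul_eq_mul, mul_one]
        linarith
      · rw [zero_add]
        exact (abs_le.1 (hcor v hv)).2
    refine (Finset.sum_le_sum fun v _ => h6 v).trans ?_
    rw [Finset.sum_add_distrib, Finset.sum_const, card_univ, nsmul_eq_mul,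
      Nat.card_eq_fintype_card (α := Γ)]
    refine add_le_add ?_ le_rfl
    rw [← Finset.sum_filter, Finset.sum_const, nsmul_eq_mul]
    refine mul_le_mul_of_nonneg_right ?_ (Nat.cast_nonneg _)
    have h7 : (univ.filter (fun v : Γ => (v : G) ∈ Bd)).card ≤ Bd.card := by
      refine card_le_card_of_injOn (fun v => (v : G)) ?_ ?_
      · intro v hv
        rw [mem_coe, mem_filter] at hv
        exact hv.2
      · intro v _ v' _ h
        exact Subtype.ext h
    exact_mod_cast h7
  have h6 : (Nat.card Γ : ℝ) * B τ ^ 2 ≤ ∑ u : G, B u ^ 2 := by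
    have h7 : (Nat.card Γ : ℝ) * B τ ^ 2 = ∑ u ∈ univ.image (fun u : Γ => τ + (u : G)),
        B u ^ 2 := by
      rw [Finset.sum_image]
      · rw [Finset.sum_congr rfl fun w _ => by rw [hBinv τ w], Finset.sum_const, card_univ,
          nsmul_eq_mul, Nat.card_eq_fintype_card]
      · intro u _ u' _ h
        exact Subtype.ext (add_left_cancel h)
    rw [h7]
    exact Finset.sum_le_sum_of_subset_of_nonneg (subset_univ _) fun _ _ _ => sq_nonneg _
  rw [h4] at h6
  exact (le_of_mul_le_mul_left h6 hΓ0).trans h5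

/-- **The average of a product.** -/
theorem avg_bound (φ : Λ →+ G) (φ' : Λ →+ G') (τ : G) (τ' : G') (g : G → ℝ) (g' : G' → ℝ)
    (hg : ∀ u, |g u| ≤ 1) (hg' : ∀ u, |g' u| ≤ 1) (Bd : Finset G) (κ : ℝ) (hκ : 0 ≤ κ)
    (hcor : ∀ v ∉ Bd, ∀ τ, |∑ w : φ.range, g (τ + w) * g (τ + w + v)| ≤ κ) :
    (∑ c : Λ, g (τ + φ c) * g' (τ' + φ' c)) ^ 2 ≤ (Fintype.card Λ : ℝ) ^ 2 *
      ((Bd.card : ℝ) / (Nat.card (φ'.ker.map φ)) + κ / Nat.card φ.range) := by
  classical
  set K' := φ'.ker with hK'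
  set H : AddSubgroup G := K'.map φ with hH
  set Γ := φ.range with hΓ
  have hHΓ : H ≤ Γ := by
    rintro _ ⟨k, _, rfl⟩
    exact ⟨k, rfl⟩
  have hΓ0 : (0 : ℝ) < Nat.card Γ := by exact_mod_cast Nat.card_pos
  have hH0 : (0 : ℝ) < Nat.card H := by exact_mod_cast Nat.card_pos
  have hK0 : (0 : ℝ) < Nat.card K' := by exact_mod_cast Nat.card_pos
  -- averaging over the kernel of φ'
  set A : Λ → ℝ := fun c => ∑ k : K', g (τ + φ c + φ k) with hA
  have h1 : (Nat.card K' : ℝ) * ∑ c : Λ, g (τ + φ c) * g' (τ' + φ' c) =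
      ∑ c : Λ, g' (τ' + φ' c) * A c := by
    have h2 : ∀ k : K', ∑ c : Λ, g (τ + φ c) * g' (τ' + φ' c) =
        ∑ c : Λ, g' (τ' + φ' c) * g (τ + φ c + φ k) := by
      intro k
      rw [← Equiv.sum_comp (Equiv.addRight (k : Λ)) (fun c : Λ => g (τ + φ c) * g' (τ' + φ' c))]
      refine Finset.sum_congr rfl fun c _ => ?_
      have h3 : φ' (k : Λ) = 0 := k.2
      simp only [Equiv.coe_addRight, map_add, h3, add_zero]
      rw [mul_comm, add_assoc]
    have h3 : (Nat.card K' : ℝ) * ∑ c : Λ, g (τ + φ c) * g' (τ' + φ' c) =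
        ∑ k : K', ∑ c : Λ, g (τ + φ c) * g' (τ' + φ' c) := by
      rw [Finset.sum_const, card_univ, nsmul_eq_mul, Nat.card_eq_fintype_card]
    rw [h3, Finset.sum_congr rfl fun k _ => h2 k, Finset.sum_comm]
    refine Finset.sum_congr rfl fun c _ => ?_
    rw [hA, Finset.mul_sum]
  -- Cauchy-Schwarz
  have h2 : (∑ c : Λ, g' (τ' + φ' c) * A c) ^ 2 ≤ (Fintype.card Λ : ℝ) * ∑ c : Λ, A c ^ 2 := by
    refine (Finset.sum_mul_sq_le_sq_mul_sq _ _ _).trans ?_
    refine mul_le_mul_of_nonneg_right ?_ (Finset.sum_nonneg fun c _ => sq_nonneg _)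
    refine (Finset.sum_le_card_nsmul _ _ 1 ?_).trans ?_
    · intro c _
      rw [← sq_abs]
      have := hg' (τ' + φ' c)
      have h0 := abs_nonneg (g' (τ' + φ' c))
      nlinarith
    · rw [card_univ, nsmul_eq_mul, mul_one]
  -- the sum over the kernel is a sum over H
  set B : G → ℝ := fun u => ∑ v : H, g (u + v) with hB
  have hAB : ∀ c, (Nat.card H : ℝ) * A c = Nat.card K' * B (τ + φ c) := by
    intro c
    set ψ : K' →+ G := φ.comp K'.subtype with hψ
    have h3 := sum_hom ψ (fun w => g (τ + φ c + w))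
    have h4 : ψ.range = H := by
      rw [hψ, hH]
      ext w
      simp [AddSubgroup.mem_map]
    have h5 := card_range_ker ψ
    have h6 : (∑ u : ψ.range, g (τ + φ c + u)) = B (τ + φ c) := by
      rw [hB]
      simp only
      refine Finset.sum_equiv (Equiv.setCongr (congrArg (fun S : AddSubgroup G => (S : Set G)) h4)) ?_ ?_
      · intro u; simp
      · intro u _; rfl
    have h7 : Nat.card ψ.range = Nat.card H := by rw [h4]
    rw [h7] at h5
    have h8 : A c = (Nat.card ψ.ker : ℝ) * B (τ + φ c) := by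
      rw [← h6, ← h3]
      rfl
    rw [h8, ← mul_assoc]
    congr 1
    rw [Nat.card_eq_fintype_card (α := K'), ← h5]
    push_cast
    ring
  have hBinv : ∀ (u : G) (w : H), B (u + w) = B u := by
    intro u w
    rw [hB]
    simp only
    rw [← Equiv.sum_comp (Equiv.addLeft (-w)) (fun v : H => g (u + w + v))]
    refine Finset.sum_congr rfl fun v _ => ?_
    congr 1
    simp only [Equiv.coe_addLeft, AddSubgroup.coe_add, AddSubgroup.coe_neg]
    abel
  -- the sum over Λ of the squares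
  have h3 : ∑ c : Λ, B (τ + φ c) ^ 2 = (Nat.card φ.ker : ℝ) * ∑ w : Γ, B (τ + w) ^ 2 :=
    sum_hom φ (fun w => B (τ + w) ^ 2)
  -- expansion of the square
  have h4 : ∑ w : Γ, B (τ + w) ^ 2 =
      (Nat.card H : ℝ) * ∑ v : H, ∑ w : Γ, g (τ + w) * g (τ + w + v) := by
    have h5 : ∀ v : H, ∑ w : Γ, g (τ + w + v) * B (τ + w) =
        ∑ v : H, ∑ w : Γ, g (τ + w) * g (τ + w + v) := by
      intro v
      have hv : (v : G) ∈ Γ := hHΓ v.2
      have h6 : ∀ w : Γ, g (τ + w + v) * B (τ + w) =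
          (fun w : Γ => g (τ + w) * B (τ + w)) (w + ⟨v, hv⟩) := by
        intro w
        simp only [AddSubgroup.coe_add]
        rw [← hBinv (τ + w) v]
        rw [add_assoc τ (w : G) (v : G)]
      have h7 := Equiv.sum_comp (Equiv.addRight (⟨v, hv⟩ : Γ)) (fun w : Γ => g (τ + w) * B (τ + w))
      simp only [Equiv.coe_addRight] at h7
      rw [Finset.sum_congr rfl fun w _ => h6 w, h7]
      simp only [hB, Finset.mul_sum]
      rw [Finset.sum_comm]
    have h6 : ∀ w : Γ, B (τ + w) ^ 2 = ∑ v : H, g (τ + w + v) * B (τ + w) := by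
      intro w
      rw [← Finset.sum_mul, sq]
    rw [Finset.sum_congr rfl fun w _ => h6 w, Finset.sum_comm,
      Finset.sum_congr rfl fun v _ => h5 v, Finset.sum_const, card_univ, nsmul_eq_mul,
      Nat.card_eq_fintype_card]
  have h5 : ∑ v : H, ∑ w : Γ, g (τ + w) * g (τ + w + v) ≤ Bd.card * Nat.card Γ + Nat.card H * κ := by
    have h6 : ∀ v : H, ∑ w : Γ, g (τ + w) * g (τ + w + v) ≤
        (if (v : G) ∈ Bd then (Nat.card Γ : ℝ) else 0) + κ := by
      intro v
      split_ifs with hv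
      · have h7 : ∑ w : Γ, g (τ + w) * g (τ + w + v) ≤ Nat.card Γ := by
          refine (Finset.sum_le_card_nsmul _ _ 1 ?_).trans ?_
          · intro u _
            have a3 : |g (τ + u) * g (τ + u + v)| ≤ 1 := by
              rw [abs_mul]
              exact mul_le_one₀ (hg _) (abs_nonneg _) (hg _)
            exact (abs_le.1 a3).2
          · rw [card_univ, nsmul_eq_mul, mul_one, Nat.card_eq_fintype_card]
        linarith
      · rw [zero_add]
        exact (abs_le.1 (hcor v hv τ)).2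
    refine (Finset.sum_le_sum fun v _ => h6 v).trans ?_
    rw [Finset.sum_add_distrib, Finset.sum_const, card_univ, nsmul_eq_mul,
      Nat.card_eq_fintype_card (α := H)]
    refine add_le_add ?_ le_rfl
    rw [← Finset.sum_filter, Finset.sum_const, nsmul_eq_mul]
    refine mul_le_mul_of_nonneg_right ?_ (Nat.cast_nonneg _)
    have h7 : (univ.filter (fun v : H => (v : G) ∈ Bd)).card ≤ Bd.card := by
      refine card_le_card_of_injOn (fun v => (v : G)) ?_ ?_
      · intro v hv
        rw [mem_coe, mem_filter] at hv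
        exact hv.2
      · intro v _ v' _ h
        exact Subtype.ext h
    exact_mod_cast h7
  -- conclusion
  have hkr := card_range_ker φ
  have hkr' : (Nat.card Γ : ℝ) * Nat.card φ.ker = Fintype.card Λ := by exact_mod_cast hkr
  set Sg := ∑ c : Λ, g (τ + φ c) * g' (τ' + φ' c) with hSg
  have e1 : ∑ c : Λ, A c ^ 2 = ((Nat.card K' : ℝ) / Nat.card H) ^ 2 * ∑ c : Λ, B (τ + φ c) ^ 2 := by
    rw [Finset.mul_sum]
    refine Finset.sum_congr rfl fun c _ => ?_
    have := hAB c
    have h6 : A c = (Nat.card K' : ℝ) / Nat.card H * B (τ + φ c) := by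
      rw [div_mul_eq_mul_div, eq_div_iff hH0.ne', mul_comm]
      exact this
    rw [h6]
    ring
  have e2 : ((Nat.card K' : ℝ) * Sg) ^ 2 ≤ (Fintype.card Λ : ℝ) *
      (((Nat.card K' : ℝ) / Nat.card H) ^ 2 * ((Nat.card φ.ker : ℝ) *
        ((Nat.card H : ℝ) * (Bd.card * Nat.card Γ + Nat.card H * κ)))) := by
    rw [h1]
    refine h2.trans ?_
    refine mul_le_mul_of_nonneg_left ?_ (Nat.cast_nonneg _)
    rw [e1]
    refine mul_le_mul_of_nonneg_left ?_ (sq_nonneg _)
    rw [h3]
    refine mul_le_mul_of_nonneg_left ?_ (Nat.cast_nonneg _)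
    rw [h4]
    exact mul_le_mul_of_nonneg_left h5 (Nat.cast_nonneg _)
  have e3 : Sg ^ 2 ≤ (Fintype.card Λ : ℝ) * (Nat.card φ.ker : ℝ) *
      ((Bd.card * Nat.card Γ) / Nat.card H + κ) := by
    have h6 : ((Nat.card K' : ℝ) * Sg) ^ 2 = (Nat.card K' : ℝ) ^ 2 * Sg ^ 2 := by ring
    have h7 : (Fintype.card Λ : ℝ) *
      (((Nat.card K' : ℝ) / Nat.card H) ^ 2 * ((Nat.card φ.ker : ℝ) *
        ((Nat.card H : ℝ) * (Bd.card * Nat.card Γ + Nat.card H * κ)))) =
        (Nat.card K' : ℝ) ^ 2 * ((Fintype.card Λ : ℝ) * (Nat.card φ.ker : ℝ) *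
      ((Bd.card * Nat.card Γ) / Nat.card H + κ)) := by
      field_simp
    rw [h6, h7] at e2
    exact le_of_mul_le_mul_left e2 (by positivity)
  refine e3.trans ?_
  have e4 : (Nat.card φ.ker : ℝ) = Fintype.card Λ / Nat.card Γ := by
    rw [← hkr']; field_simp
  rw [e4]
  refine le_of_eq ?_
  field_simp

/-- **The average of a product**, with four-fold correlations. -/
theorem avg_four (φ : Λ →+ G) (φ' : Λ →+ G') (τ : G) (τ' : G') (g : G → ℝ) (g' : G' → ℝ)
    (hg : ∀ u, |g u| ≤ 1) (hg' : ∀ u, |g' u| ≤ 1) (Bd : Finset G) (κ : ℝ) (hκ : 0 ≤ κ)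
    (hcor : ∀ h h', h ∉ Bd → h' ∉ Bd → h + h' ∉ Bd →
      |∑ u, g u * g (u + h) * g (u + h') * g (u + (h + h'))| ≤ κ) :
    (∑ c : Λ, g (τ + φ c) * g' (τ' + φ' c)) ^ 2 ≤ (Fintype.card Λ : ℝ) ^ 2 *
      ((Bd.card : ℝ) / (Nat.card (φ'.ker.map φ)) +
        √(2 * Bd.card * Fintype.card G + Nat.card φ.range * κ) / Nat.card φ.range) := by
  classical
  refine avg_bound φ φ' τ τ' g g' hg hg' Bd _ (Real.sqrt_nonneg _) ?_
  intro h hh σ
  set F : G → ℝ := fun u => g u * g (u + h) with hF
  have hF1 : ∀ u, |F u| ≤ 1 := by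
    intro u
    rw [hF]
    simp only
    rw [abs_mul]
    exact mul_le_one₀ (hg _) (abs_nonneg _) (hg _)
  set Bd' : Finset G := Bd ∪ Bd.image (fun v => v - h) with hBd'
  have hBc : (Bd'.card : ℝ) ≤ 2 * Bd.card := by
    have h1 : Bd'.card ≤ 2 * Bd.card := by
      refine (card_union_le _ _).trans ?_
      have := card_image_le (s := Bd) (f := fun v => v - h)
      omega
    exact_mod_cast h1
  have h1 := coset_corr φ.range F hF1 Bd' κ hκ (by
    intro h' hh'
    rw [hBd', mem_union, not_or] at hh'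
    have h2 : h + h' ∉ Bd := by
      intro h3
      apply hh'.2
      rw [mem_image]
      exact ⟨h + h', h3, by abel⟩
    have h3 := hcor h h' hh hh'.1 h2
    refine le_trans (le_of_eq ?_) h3
    congr 1
    refine Finset.sum_congr rfl fun u _ => ?_
    rw [hF]
    simp only
    have e : u + h' + h = u + (h + h') := by abel
    rw [e]
    ring) σ
  have h2 : (∑ w : φ.range, F (σ + w)) ^ 2 ≤
      2 * Bd.card * Fintype.card G + Nat.card φ.range * κ := by
    refine h1.trans ?_
    have := mul_le_mul_of_nonneg_right hBc (Nat.cast_nonneg (α := ℝ) (Fintype.card G))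
    linarith
  have h3 := Real.abs_le_sqrt h2
  exact h3

end group

end Pool.Agent.K9h5
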