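import Mathlib
import Pool.Agent.K9h5.Avg

/-!
# Sums over boxes
-/

set_option autoImplicit false
set_option linter.all false

namespace Pool.Agent.K9h5

open Finset

theorem prod_close {ι : Type} [DecidableEq ι] (s : Finset ι) (a b : ι → ℝ) (M : ℝ) (hM : 0 ≤ M)
    (ha : ∀ i, 0 ≤ a i ∧ a i ≤ M) (hb : ∀ i, 0 ≤ b i ∧ b i ≤ M) (hab : ∀ i, |a i - b i| ≤ 1) :
    |∏ i ∈ s, a i - ∏ i ∈ s, b i| * M ≤ s.card * M ^ s.card := by
  induction s using Finset.induction_on with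
  | empty => simp
  | insert i s his ih =>
    rw [prod_insert his, prod_insert his, card_insert_of_notMem his]
    have h1 : a i * ∏ i ∈ s, a i - b i * ∏ i ∈ s, b i =
        a i * (∏ i ∈ s, a i - ∏ i ∈ s, b i) + (a i - b i) * ∏ i ∈ s, b i := by ring
    have h2 : ∏ i ∈ s, b i ≤ M ^ s.card := by
      refine (prod_le_prod (fun i _ => (hb i).1) (fun i _ => (hb i).2)).trans ?_
      rw [prod_const]
    have h3 : 0 ≤ ∏ i ∈ s, b i := prod_nonneg fun i _ => (hb i).1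
    have h4 : |a i * (∏ i ∈ s, a i - ∏ i ∈ s, b i) + (a i - b i) * ∏ i ∈ s, b i| ≤
        M * |∏ i ∈ s, a i - ∏ i ∈ s, b i| + M ^ s.card := by
      refine (abs_add_le _ _).trans (add_le_add ?_ ?_)
      · rw [abs_mul, abs_of_nonneg (ha i).1]
        exact mul_le_mul_of_nonneg_right (ha i).2 (abs_nonneg _)
      · rw [abs_mul, abs_of_nonneg h3]
        calc |a i - b i| * ∏ i ∈ s, b i ≤ 1 * M ^ s.card :=
              mul_le_mul (hab i) h2 h3 zero_le_one
          _ = M ^ s.card := one_mul _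
    rw [h1]
    calc |a i * (∏ i ∈ s, a i - ∏ i ∈ s, b i) + (a i - b i) * ∏ i ∈ s, b i| * M ≤
        (M * |∏ i ∈ s, a i - ∏ i ∈ s, b i| + M ^ s.card) * M := mul_le_mul_of_nonneg_right h4 hM
      _ = M * (|∏ i ∈ s, a i - ∏ i ∈ s, b i| * M) + M ^ (s.card + 1) := by ring
      _ ≤ M * (s.card * M ^ s.card) + M ^ (s.card + 1) := by
          have := mul_le_mul_of_nonneg_left ih hM
          linarith
      _ = ((s.card + 1 : ℕ) : ℝ) * M ^ (s.card + 1) := by push_cast; ring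

/-- the number of `x < T` in a residue class -/
theorem card_class {m : ℕ} (hm : 0 < m) (T : ℕ) (c : ZMod m) :
    |(((range T).filter (fun x : ℕ => (x : ZMod m) = c)).card : ℝ) - T / m| ≤ 1 := by
  haveI : NeZero m := ⟨hm.ne'⟩
  have h1 : ((range T).filter (fun x : ℕ => (x : ZMod m) = c)).card =
      T.count (fun x => x ≡ c.val [MOD m]) := by
    rw [Nat.count_eq_card_filter_range]
    congr 1
    apply filter_congr
    intro x _
    rw [← ZMod.natCast_eq_natCast_iff, ZMod.natCast_zmod_val]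
  rw [h1, Nat.count_modEq_card T hm]
  have h2 : ((T / m : ℕ) : ℝ) ≤ T / m := Nat.cast_div_le
  have h3 : (T : ℝ) / m < (T / m : ℕ) + 1 := by
    rw [div_lt_iff₀ (by exact_mod_cast hm)]
    have := Nat.lt_div_mul_add (a := T) hm
    have h4 : T < (T / m + 1) * m := by
      rw [add_mul, one_mul]; exact this
    exact_mod_cast h4
  push_cast
  split_ifs <;> rw [abs_le] <;> constructor <;> push_cast <;> linarith

/-- **Periodic functions on boxes.** -/
theorem box_sum {ρ m T : ℕ} [NeZero m] (hmT : m ≤ T) (f : (Fin ρ → ZMod m) → ℝ)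
    (hf : ∀ c, |f c| ≤ 1) :
    |∑ n ∈ Fintype.piFinset (fun _ : Fin ρ => range T), f (fun k => (n k : ZMod m)) -
      ((T : ℝ) / m) ^ ρ * ∑ c : Fin ρ → ZMod m, f c| ≤ ρ * 2 ^ ρ * (m / T) * (T : ℝ) ^ ρ := by
  classical
  have hm : 0 < m := Nat.pos_of_ne_zero (NeZero.ne m)
  have hT : 0 < T := lt_of_lt_of_le hm hmT
  have hmr : (0 : ℝ) < m := by exact_mod_cast hm
  have hTr : (0 : ℝ) < T := by exact_mod_cast hT
  set Nc : ZMod m → ℝ := fun c => (((range T).filter (fun x : ℕ => (x : ZMod m) = c)).card : ℝ)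
    with hNc
  have h1 : ∑ n ∈ Fintype.piFinset (fun _ : Fin ρ => range T), f (fun k => (n k : ZMod m)) =
      ∑ c : Fin ρ → ZMod m, (∏ k, Nc (c k)) * f c := by
    rw [← Finset.sum_fiberwise_of_maps_to (s := Fintype.piFinset (fun _ : Fin ρ => range T))
      (t := (univ : Finset (Fin ρ → ZMod m))) (g := fun n k => (n k : ZMod m))
      (fun _ _ => mem_univ _)]
    refine Finset.sum_congr rfl fun c _ => ?_
    have h2 : ∀ n ∈ (Fintype.piFinset (fun _ : Fin ρ => range T)).filter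
        (fun n => (fun k => (n k : ZMod m)) = c), f (fun k => (n k : ZMod m)) = f c := by
      intro n hn
      rw [(mem_filter.1 hn).2]
    rw [Finset.sum_congr rfl h2, Finset.sum_const, nsmul_eq_mul]
    congr 1
    have h3 : (Fintype.piFinset (fun _ : Fin ρ => range T)).filter
        (fun n => (fun k => (n k : ZMod m)) = c) =
        Fintype.piFinset (fun k => (range T).filter (fun x : ℕ => (x : ZMod m) = c k)) := by
      ext n
      simp only [mem_filter, Fintype.mem_piFinset, funext_iff]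
      constructor
      · rintro ⟨h4, h5⟩ k
        exact ⟨h4 k, h5 k⟩
      · intro h
        exact ⟨fun k => (h k).1, fun k => (h k).2⟩
    rw [h3, Fintype.card_piFinset]
    push_cast
    rfl
  rw [h1, Finset.mul_sum, ← Finset.sum_sub_distrib]
  set M : ℝ := T / m + 1 with hM
  have hTm : (1 : ℝ) ≤ T / m := by
    rw [one_le_div hmr]
    exact_mod_cast hmT
  have hM0 : 0 < M := by positivity
  have hcl : ∀ c, |Nc c - T / m| ≤ 1 := fun c => card_class hm T c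
  have h4 : ∀ c : Fin ρ → ZMod m, |(∏ k, Nc (c k)) * f c - ((T : ℝ) / m) ^ ρ * f c| ≤
      ρ * M ^ ρ / M := by
    intro c
    rw [← sub_mul, abs_mul]
    have h5 := prod_close (univ : Finset (Fin ρ)) (fun k => Nc (c k)) (fun _ => (T : ℝ) / m) M
      hM0.le (fun k => ⟨Nat.cast_nonneg _, by
        have := (abs_le.1 (hcl (c k))).2
        linarith⟩) (fun _ => ⟨by positivity, by rw [hM]; linarith⟩) (fun k => hcl (c k))
    rw [prod_const, card_univ, Fintype.card_fin] at h5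
    rw [le_div_iff₀ hM0]
    have h6 := abs_nonneg (∏ k, Nc (c k) - ((T : ℝ) / m) ^ ρ)
    calc |∏ k, Nc (c k) - ((T : ℝ) / m) ^ ρ| * |f c| * M ≤
        |∏ k, Nc (c k) - ((T : ℝ) / m) ^ ρ| * 1 * M :=
          mul_le_mul_of_nonneg_right (mul_le_mul_of_nonneg_left (hf c) h6) hM0.le
      _ = |∏ k, Nc (c k) - ((T : ℝ) / m) ^ ρ| * M := by rw [mul_one]
      _ ≤ ρ * M ^ ρ := h5
  refine (Finset.abs_sum_le_sum_abs _ _).trans ((Finset.sum_le_sum fun c _ => h4 c).trans ?_)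
  rw [Finset.sum_const, card_univ, Fintype.card_fun, Fintype.card_fin, ZMod.card, nsmul_eq_mul]
  push_cast
  have h5 : (m : ℝ) ^ ρ * (ρ * M ^ ρ / M) = ρ * (m * M) ^ ρ / M := by
    rw [mul_pow]; ring
  rw [h5]
  have h6 : (m : ℝ) * M ≤ 2 * T := by
    rw [hM, mul_add, mul_div_cancel₀ _ hmr.ne']
    have : (m : ℝ) ≤ T := by exact_mod_cast hmT
    linarith
  have h7 : ((m : ℝ) * M) ^ ρ ≤ (2 * T) ^ ρ := pow_le_pow_left₀ (by positivity) h6 ρ
  have h8 : 1 / M ≤ m / T := by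
    rw [div_le_div_iff₀ hM0 hTr, hM, mul_add, mul_div_cancel₀ _ hmr.ne']
    linarith
  calc (ρ : ℝ) * (m * M) ^ ρ / M = ρ * (m * M) ^ ρ * (1 / M) := by ring
    _ ≤ ρ * (2 * T) ^ ρ * (m / T) := by
        refine mul_le_mul (mul_le_mul_of_nonneg_left h7 (Nat.cast_nonneg _)) h8 (by positivity)
          (by positivity)
    _ = ρ * 2 ^ ρ * (m / T) * (T : ℝ) ^ ρ := by rw [mul_pow]; ring

/-- the homomorphism given by a tuple of elements -/
theorem exists_hom {G : Type} [AddCommGroup G] {ρ m : ℕ} (x : Fin ρ → G) (hm : ∀ u : G, m • u = 0) :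
    ∃ φ : (Fin ρ → ZMod m) →+ G, ∀ n : Fin ρ → ℕ, φ (fun k => (n k : ZMod m)) = ∑ k, n k • x k := by
  refine ⟨∑ k, (ZMod.lift m ⟨zmultiplesHom G (x k), ?_⟩).comp (Pi.evalAddMonoidHom _ k), ?_⟩
  · rw [zmultiplesHom_apply, natCast_zsmul]
    exact hm _
  · intro n
    rw [AddMonoidHom.finsetSum_apply]
    refine Finset.sum_congr rfl fun k _ => ?_
    rw [AddMonoidHom.comp_apply, Pi.evalAddMonoidHom_apply]
    have h1 : ((n k : ℕ) : ZMod m) = ((n k : ℤ) : ZMod m) := by push_cast; rfl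
    rw [h1, ZMod.lift_coe, zmultiplesHom_apply, natCast_zsmul]

/-- the subgroup generated by a tuple, as a set -/
def gset {G : Type} [AddCommGroup G] {ρ : ℕ} (x : Fin ρ → G) : Set G :=
  {u | ∃ n : Fin ρ → ℕ, u = ∑ k, n k • x k}

theorem range_eq_gset {G : Type} [AddCommGroup G] {ρ m : ℕ} [NeZero m] (x : Fin ρ → G)
    (φ : (Fin ρ → ZMod m) →+ G) (hφ : ∀ n : Fin ρ → ℕ, φ (fun k => (n k : ZMod m)) = ∑ k, n k • x k) :
    (φ.range : Set G) = gset x := by
  ext u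
  constructor
  · rintro ⟨c, rfl⟩
    refine ⟨fun k => (c k).val, ?_⟩
    rw [← hφ]
    congr 1
    funext k
    rw [ZMod.natCast_zmod_val]
  · rintro ⟨n, rfl⟩
    rw [← hφ]
    exact ⟨_, rfl⟩

/-- the image under one homomorphism of the kernel of the other one, as a set -/
def kset {G G' : Type} [AddCommGroup G] [AddCommGroup G'] {ρ : ℕ} (x : Fin ρ → G)
    (x' : Fin ρ → G') : Set G :=
  {u | ∃ n : Fin ρ → ℕ, ∑ k, n k • x' k = 0 ∧ u = ∑ k, n k • x k}

theorem map_ker_eq_kset {G G' : Type} [AddCommGroup G] [AddCommGroup G'] {ρ m : ℕ} [NeZero m]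
    (x : Fin ρ → G) (x' : Fin ρ → G') (φ : (Fin ρ → ZMod m) →+ G) (φ' : (Fin ρ → ZMod m) →+ G')
    (hφ : ∀ n : Fin ρ → ℕ, φ (fun k => (n k : ZMod m)) = ∑ k, n k • x k)
    (hφ' : ∀ n : Fin ρ → ℕ, φ' (fun k => (n k : ZMod m)) = ∑ k, n k • x' k) :
    ((φ'.ker.map φ : AddSubgroup G) : Set G) = kset x x' := by
  ext u
  constructor
  · rintro ⟨c, hc, rfl⟩
    have hc' : (fun k => (((c k).val : ℕ) : ZMod m)) = c := by
      funext k
      rw [ZMod.natCast_zmod_val]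
    refine ⟨fun k => (c k).val, ?_, ?_⟩
    · rw [← hφ', hc']
      exact hc
    · rw [← hφ, hc']
  · rintro ⟨n, hn, rfl⟩
    rw [← hφ]
    refine ⟨_, ?_, rfl⟩
    show φ' _ = 0
    rw [hφ', hn]

/-- **The correlation of two primes on a box.** -/
theorem pair_bound {G G' : Type} [AddCommGroup G] [AddCommGroup G'] [Fintype G] [Fintype G']
    {ρ T : ℕ} (hT : Fintype.card G * Fintype.card G' ≤ T) (x : Fin ρ → G) (x' : Fin ρ → G')
    (τ : G) (τ' : G') (g : G → ℝ) (g' : G' → ℝ) (hg : ∀ u, |g u| ≤ 1) (hg' : ∀ u, |g' u| ≤ 1)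
    (Bd : Finset G) (κ : ℝ) (hκ : 0 ≤ κ) (hcor : ∀ h h', h ∉ Bd → h' ∉ Bd → h + h' ∉ Bd →
      |∑ u, g u * g (u + h) * g (u + h') * g (u + (h + h'))| ≤ κ) :
    |∑ n ∈ Fintype.piFinset (fun _ : Fin ρ => range T),
      g (τ + ∑ k, n k • x k) * g' (τ' + ∑ k, n k • x' k)| ≤
    (T : ℝ) ^ ρ * (√((Bd.card : ℝ) / (kset x x').ncard +
        √(2 * Bd.card * Fintype.card G + (gset x).ncard * κ) / (gset x).ncard) +
      ρ * 2 ^ ρ * ((Fintype.card G * Fintype.card G' : ℕ) / T)) := by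
  classical
  set m := Fintype.card G * Fintype.card G' with hm
  have hG0 : 0 < Fintype.card G := Fintype.card_pos
  have hG'0 : 0 < Fintype.card G' := Fintype.card_pos
  have hm0 : 0 < m := Nat.mul_pos hG0 hG'0
  haveI : NeZero m := ⟨hm0.ne'⟩
  have hmG : ∀ u : G, m • u = 0 := by
    intro u
    rw [hm, mul_comm, mul_smul, card_nsmul_eq_zero, smul_zero]
  have hmG' : ∀ u : G', m • u = 0 := by
    intro u
    rw [hm, mul_smul, card_nsmul_eq_zero, smul_zero]
  obtain ⟨φ, hφ⟩ := exists_hom x hmG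
  obtain ⟨φ', hφ'⟩ := exists_hom x' hmG'
  set f : (Fin ρ → ZMod m) → ℝ := fun c => g (τ + φ c) * g' (τ' + φ' c) with hf
  have hf1 : ∀ c, |f c| ≤ 1 := by
    intro c
    rw [hf]
    simp only
    rw [abs_mul]
    exact mul_le_one₀ (hg _) (abs_nonneg _) (hg' _)
  have h1 := box_sum (ρ := ρ) hT f hf1
  have h2 : ∑ n ∈ Fintype.piFinset (fun _ : Fin ρ => range T), f (fun k => (n k : ZMod m)) =
      ∑ n ∈ Fintype.piFinset (fun _ : Fin ρ => range T),
      g (τ + ∑ k, n k • x k) * g' (τ' + ∑ k, n k • x' k) := by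
    refine Finset.sum_congr rfl fun n _ => ?_
    rw [hf]
    simp only
    rw [hφ, hφ']
  rw [h2] at h1
  have h3 := avg_four φ φ' τ τ' g g' hg hg' Bd κ hκ hcor
  have h4 : (Nat.card φ.range : ℝ) = ((gset x).ncard : ℝ) := by
    have h5 : Nat.card φ.range = (gset x).ncard := by
      rw [← range_eq_gset x φ hφ]
      rfl
    rw [h5]
  have h4' : (Nat.card (φ'.ker.map φ) : ℝ) = ((kset x x').ncard : ℝ) := by
    have h5 : Nat.card (φ'.ker.map φ) = (kset x x').ncard := by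
      rw [← map_ker_eq_kset x x' φ φ' hφ hφ']
      rfl
    rw [h5]
  rw [h4, h4'] at h3
  set Z := (Bd.card : ℝ) / (kset x x').ncard +
        √(2 * Bd.card * Fintype.card G + (gset x).ncard * κ) / (gset x).ncard with hZ
  have hZ0 : 0 ≤ Z := by positivity
  have h5 : |∑ c : Fin ρ → ZMod m, f c| ≤ (m : ℝ) ^ ρ * √Z := by
    have h6 : (∑ c : Fin ρ → ZMod m, f c) ^ 2 ≤ ((m : ℝ) ^ ρ * √Z) ^ 2 := by
      rw [mul_pow, Real.sq_sqrt hZ0]
      refine h3.trans (le_of_eq ?_)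
      rw [Fintype.card_fun, Fintype.card_fin, ZMod.card]
      push_cast
      ring
    exact abs_le_of_sq_le_sq h6 (by positivity)
  have hmr : (0 : ℝ) < m := by exact_mod_cast hm0
  have h6 : |((T : ℝ) / m) ^ ρ * ∑ c : Fin ρ → ZMod m, f c| ≤ (T : ℝ) ^ ρ * √Z := by
    rw [abs_mul, abs_of_nonneg (by positivity : (0 : ℝ) ≤ ((T : ℝ) / m) ^ ρ)]
    calc ((T : ℝ) / m) ^ ρ * |∑ c : Fin ρ → ZMod m, f c| ≤ ((T : ℝ) / m) ^ ρ * ((m : ℝ) ^ ρ * √Z) :=
          mul_le_mul_of_nonneg_left h5 (by positivity)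
      _ = (T : ℝ) ^ ρ * √Z := by
          rw [← mul_assoc, ← mul_pow, div_mul_cancel₀ _ hmr.ne']
  have h7 := abs_sub_abs_le_abs_sub (∑ n ∈ Fintype.piFinset (fun _ : Fin ρ => range T),
      g (τ + ∑ k, n k • x k) * g' (τ' + ∑ k, n k • x' k))
      (((T : ℝ) / m) ^ ρ * ∑ c : Fin ρ → ZMod m, f c)
  rw [mul_add]
  have h8 : (T : ℝ) ^ ρ * (ρ * 2 ^ ρ * ((m : ℝ) / T)) = ρ * 2 ^ ρ * (m / T) * (T : ℝ) ^ ρ := by ring
  rw [h8]
  linarith

end Pool.Agent.K9h5
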