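import Mathlib
import Pool.Agent.R410.PW.Weil

/-!
# Cyclic covers of `y ^ 2 = f (x)`: irreducibility

The plane curve `w ^ (2 l) - 2 A w ^ l + N = 0`, `N = A ^ 2 - f B ^ 2`, attached to the function
`A + B y` on the curve `y ^ 2 = f (x)`.
-/

set_option autoImplicit false
set_option linter.all false

namespace Pool.Agent.K9h5

open Polynomial

/-- the plane curve attached to `A + B y` -/
noncomputable def Psi {k : Type} [Field k] (l : ℕ) (A N : k[X]) : k[X][X] :=
  X ^ (2 * l) - C (2 * A) * X ^ l + C N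

theorem Psi_comp {k : Type} [Field k] (l : ℕ) (A N : k[X]) :
    Psi l A N = (X ^ 2 - C (2 * A) * X + C N).comp (X ^ l) := by
  simp only [Psi, add_comp, sub_comp, mul_comp, C_comp, X_comp, pow_comp]
  rw [← pow_mul, mul_comm l 2]

theorem Psi_natDegree {k : Type} [Field k] {l : ℕ} (hl : 0 < l) (A N : k[X]) :
    (Psi l A N).natDegree = 2 * l := by
  unfold Psi
  have h1 : (X ^ (2 * l) - C (2 * A) * X ^ l + C N : k[X][X]) =
      X ^ (2 * l) + (- C (2 * A) * X ^ l + C N) := by ring
  rw [h1]
  have h2 : (- C (2 * A) * X ^ l + C N : k[X][X]).natDegree ≤ l := by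
    refine (natDegree_add_le _ _).trans ?_
    rw [natDegree_C, max_eq_left (Nat.zero_le _), ← C_neg]
    exact natDegree_C_mul_X_pow_le _ _
  rw [natDegree_add_eq_left_of_natDegree_lt, natDegree_X_pow]
  rw [natDegree_X_pow]
  omega

theorem Psi_monic {k : Type} [Field k] {l : ℕ} (hl : 0 < l) (A N : k[X]) :
    (Psi l A N).Monic := by
  unfold Psi
  have h1 : (X ^ (2 * l) - C (2 * A) * X ^ l + C N : k[X][X]) =
      X ^ (2 * l) + (- C (2 * A) * X ^ l + C N) := by ring
  rw [h1]
  have h2 : (- C (2 * A) * X ^ l + C N : k[X][X]).natDegree ≤ l := by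
    refine (natDegree_add_le _ _).trans ?_
    rw [natDegree_C, max_eq_left (Nat.zero_le _), ← C_neg]
    exact natDegree_C_mul_X_pow_le _ _
  apply Monic.add_of_left (monic_X_pow _)
  apply degree_lt_degree
  rw [natDegree_X_pow]
  omega

/-- the certificate of separability -/
theorem Psi_cert {k : Type} [Field k] {l : ℕ} (hl : 0 < l) (A B f N : k[X]) (hN : N = A ^ 2 - f * B ^ 2) :
    (C (2 * l * f * B ^ 2) - C (2 * l * A) * X ^ l) * Psi l A N +
      (- X * (C (f * B ^ 2 + A ^ 2) - C A * X ^ l)) * derivative (Psi l A N) =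
        C (2 * l * (f * B ^ 2 * N)) := by
  obtain ⟨m, rfl⟩ : ∃ m, l = m + 1 := ⟨l - 1, by omega⟩
  have hd : derivative (Psi (m + 1) A N) =
      C ((2 * (m + 1) : ℕ) : k[X]) * X ^ (2 * (m + 1) - 1) -
        C (2 * A) * (C ((m + 1 : ℕ) : k[X]) * X ^ (m + 1 - 1)) := by
    unfold Psi
    rw [derivative_add, derivative_sub, derivative_C, derivative_C_mul, derivative_X_pow,
      derivative_X_pow, add_zero]
  rw [hd]
  unfold Psi
  have e1 : (X : k[X][X]) ^ (2 * (m + 1) - 1) = X ^ (m + 1) * X ^ m := by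
    rw [← pow_add]; congr 1; omega
  have e2 : (X : k[X][X]) ^ (m + 1 - 1) = X ^ m := by simp
  have e3 : (X : k[X][X]) ^ (2 * (m + 1)) = X ^ m * X ^ m * X * X := by ring
  have e4 : (X : k[X][X]) ^ (m + 1) = X ^ m * X := by ring
  have e5 : C N = C A ^ 2 - C f * C B ^ 2 := by rw [hN]; simp
  have e6 : (C (2 : k[X]) : k[X][X]) = 2 := map_ofNat C 2
  simp only [map_mul, map_sub, map_add, map_pow, map_natCast]
  rw [e1, e2, e3, e4, e5, e6]
  push_cast
  ring

section irred

variable {k : Type} [Field k]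

/-- an element of `k(x)` whose `m`-th power is a polynomial is a polynomial -/
theorem exists_poly_of_pow {r : RatFunc k} {g : k[X]} {m : ℕ} (hm : 0 < m)
    (h : r ^ m = algebraMap k[X] (RatFunc k) g) :
    ∃ r0 : k[X], algebraMap k[X] (RatFunc k) r0 = r ∧ r0 ^ m = g := by
  obtain ⟨r0, h0⟩ := IsIntegrallyClosed.exists_algebraMap_eq_of_isIntegral_pow (R := k[X])
    (K := RatFunc k) hm (x := r) (by rw [h]; exact isIntegral_algebraMap)
  refine ⟨r0, h0, ?_⟩
  apply IsFractionRing.injective k[X] (RatFunc k)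
  rw [map_pow, h0, h]

theorem quad_irred (h2 : (2 : k) ≠ 0) {A B f N : k[X]} (hN : N = A ^ 2 - f * B ^ 2) (hB : B ≠ 0)
    (hf : Odd f.natDegree) :
    Irreducible ((X ^ 2 - C (2 * A) * X + C N : k[X][X]).map (algebraMap k[X] (RatFunc k))) := by
  set ι := algebraMap k[X] (RatFunc k)
  have hmap : (X ^ 2 - C (2 * A) * X + C N : k[X][X]).map ι =
      X ^ 2 + C (- ι (2 * A)) * X + C (ι N) := by
    simp only [Polynomial.map_add, Polynomial.map_sub, Polynomial.map_mul, Polynomial.map_pow,
      map_X, map_C, map_neg]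
    ring
  have hdeg : (X ^ 2 + C (- ι (2 * A)) * X + C (ι N) : (RatFunc k)[X]).natDegree = 2 := by
    have := natDegree_quadratic (R := RatFunc k) (a := 1) (b := - ι (2 * A)) (c := ι N) one_ne_zero
    simpa using this
  have hmon : (X ^ 2 + C (- ι (2 * A)) * X + C (ι N) : (RatFunc k)[X]).Monic := by
    have := leadingCoeff_quadratic (R := RatFunc k) (a := 1) (b := - ι (2 * A)) (c := ι N)
      one_ne_zero
    rw [Monic]
    simpa using this
  rw [hmap]
  rw [Monic.irreducible_iff_roots_eq_zero_of_degree_le_three hmon (by omega) (by omega)]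
  rw [Multiset.eq_zero_iff_forall_notMem]
  intro r hr
  rw [mem_roots hmon.ne_zero, IsRoot.def] at hr
  simp only [eval_add, eval_mul, eval_pow, eval_X, eval_C] at hr
  have hιB : ι B ≠ 0 := by
    rw [map_ne_zero_iff _ (IsFractionRing.injective k[X] (RatFunc k))]
    exact hB
  have h1 : ((r - ι A) / ι B) ^ 2 = ι f := by
    rw [div_pow, div_eq_iff (pow_ne_zero _ hιB)]
    rw [hN] at hr
    simp only [map_sub, map_mul, map_pow, map_ofNat] at hr
    linear_combination hr
  obtain ⟨g, _, hg⟩ := exists_poly_of_pow (by norm_num) h1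
  rw [← hg, natDegree_pow] at hf
  rw [Nat.odd_mul] at hf
  exact absurd hf.1 (by decide)

theorem Psi_irred (h2 : (2 : k) ≠ 0) {l : ℕ} (hl : l.Prime) {A B f N : k[X]}
    (hN : N = A ^ 2 - f * B ^ 2) (hB : B ≠ 0)
    (hf : Odd f.natDegree) (hpow : ∀ g : k[X], g ^ l ≠ N) : Irreducible (Psi l A N) := by
  rw [(Psi_monic hl.pos A N).irreducible_iff_irreducible_map_fraction_map (K := RatFunc k),
    Psi_comp]
  have hq := quad_irred h2 hN hB hf
  set ι := algebraMap k[X] (RatFunc k) with hι
  rw [Polynomial.map_comp, Polynomial.map_pow, map_X]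
  set f0 := (X ^ 2 - C (2 * A) * X + C N : k[X][X]).map ι with hf0
  have hf0m : f0.Monic := by
    apply Monic.map
    have h1 : (X ^ 2 - C (2 * A) * X + C N : k[X][X]) =
      X ^ 2 + (- C (2 * A) * X + C N) := by ring
    rw [h1]
    apply Monic.add_of_left (monic_X_pow _)
    apply degree_lt_degree
    rw [natDegree_X_pow]
    have h2 : (- C (2 * A) * X + C N : k[X][X]).natDegree ≤ 1 := by
      refine (natDegree_add_le _ _).trans ?_
      rw [natDegree_C, max_eq_left (Nat.zero_le _), ← C_neg]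
      exact (natDegree_C_mul_le _ _).trans natDegree_X_le
    omega
  have hf0c : f0.coeff 0 = ι N := by
    rw [hf0, coeff_map]
    simp
  have hf0d : f0.natDegree = 2 := by
    have hmap : f0 = C 1 * X ^ 2 + C (- ι (2 * A)) * X + C (ι N) := by
      rw [hf0]
      simp only [Polynomial.map_add, Polynomial.map_sub, Polynomial.map_mul, Polynomial.map_pow,
        map_X, map_C, map_neg, map_one]
      ring
    rw [hmap]
    exact natDegree_quadratic one_ne_zero
  refine irreducible_comp hf0m (monic_X_pow l) hq ?_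
  intro E _ _ x hx
  rw [Polynomial.map_pow, map_X]
  apply X_pow_sub_C_irreducible_of_prime hl
  intro b hb
  have hint : IsIntegral (RatFunc k) x := by
    by_contra h
    rw [minpoly.eq_zero h] at hx
    exact hf0m.ne_zero hx.symm
  haveI : FiniteDimensional (RatFunc k) (IntermediateField.adjoin (RatFunc k) {x}) :=
    IntermediateField.adjoin.finiteDimensional hint
  have h3 : Algebra.norm (RatFunc k) (IntermediateField.AdjoinSimple.gen (RatFunc k) x) = ι N := by
    have h4 := Algebra.PowerBasis.norm_gen_eq_coeff_zero_minpoly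
      (IntermediateField.adjoin.powerBasis hint)
    rw [IntermediateField.adjoin.powerBasis_gen, IntermediateField.adjoin.powerBasis_dim,
      IntermediateField.minpoly_gen, hx, hf0d, hf0c] at h4
    rw [h4]
    ring
  have h5 := congrArg (Algebra.norm (RatFunc k)) hb
  rw [map_pow, h3] at h5
  obtain ⟨g, _, hg⟩ := exists_poly_of_pow hl.pos h5
  exact hpow g hg

end irred

end Pool.Agent.K9h5
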