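import Mathlib
import Pool.Agent.K9h5.Wc1

/-!
# Cyclic covers of `y ^ 2 = f (x)`: the number of points
-/

set_option autoImplicit false
set_option linter.all false

namespace Pool.Agent.K9h5

open Polynomial Finset

theorem Psi_map {k K : Type} [Field k] [Field K] (ι : k →+* K) (l : ℕ) (A N : k[X]) :
    (Psi l A N).map (mapRingHom ι) = Psi l (A.map ι) (N.map ι) := by
  unfold Psi
  simp only [Polynomial.map_add, Polynomial.map_sub, Polynomial.map_mul, Polynomial.map_pow,
    map_X, map_C, coe_mapRingHom, Polynomial.map_ofNat]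

theorem Psi_evalEval {k : Type} [Field k] (l : ℕ) (A N : k[X]) (x w : k) :
    evalEval x w (Psi l A N) = w ^ (2 * l) - 2 * A.eval x * w ^ l + N.eval x := by
  unfold Psi evalEval
  simp only [eval_add, eval_sub, eval_mul, eval_pow, eval_X, eval_C, eval_ofNat]

theorem Psi_coeff {k : Type} [Field k] {l : ℕ} (A N : k[X]) {D : ℕ} (hA : A.natDegree ≤ D)
    (hN : N.natDegree ≤ D) (i : ℕ) : ((Psi l A N).coeff i).natDegree ≤ D := by
  unfold Psi
  rw [coeff_add, coeff_sub, coeff_X_pow, coeff_C_mul, coeff_X_pow, coeff_C]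
  refine (natDegree_add_le _ _).trans (max_le ((natDegree_sub_le _ _).trans (max_le ?_ ?_)) ?_)
  · split_ifs <;> simp
  · split_ifs
    · rw [mul_one]
      have : (2 * A : k[X]) = C 2 * A := by rw [map_ofNat]
      rw [this]
      exact (natDegree_C_mul_le _ _).trans hA
    · simp
  · split_ifs
    · exact hN
    · simp

section roots

variable {F : Type} [Field F] [Fintype F] [DecidableEq F]

theorem card_pow_eq {l : ℕ} (hl : 0 < l) {ζ : F} (hζ : IsPrimitiveRoot ζ l) {t : F} (ht : t ≠ 0) :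
    (univ.filter (fun w : F => w ^ l = t ^ l)).card = l := by
  have h1 : univ.filter (fun w : F => w ^ l = t ^ l) = (range l).image (fun i => ζ ^ i * t) := by
    ext w
    simp only [mem_filter, mem_univ, true_and, mem_image, mem_range]
    constructor
    · intro h
      have h2 : (w / t) ^ l = 1 := by
        rw [div_pow, h, div_self (pow_ne_zero _ ht)]
      haveI : NeZero l := ⟨hl.ne'⟩
      obtain ⟨i, hi, h3⟩ := hζ.eq_pow_of_pow_eq_one h2
      refine ⟨i, hi, ?_⟩
      rw [h3, div_mul_cancel₀ _ ht]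
    · rintro ⟨i, _, rfl⟩
      rw [mul_pow, ← pow_mul, mul_comm i l, pow_mul, hζ.pow_eq_one, one_pow, one_mul]
  rw [h1, card_image_of_injOn, card_range]
  intro i hi j hj hij
  simp only at hij
  rw [mem_coe, mem_range] at hi hj
  exact hζ.pow_inj hi hj (mul_right_cancel₀ ht hij)

theorem exists_zeta {l : ℕ} (hl : 0 < l) (h : l ∣ Fintype.card F - 1) :
    ∃ ζ : F, IsPrimitiveRoot ζ l := by
  obtain ⟨g, hg⟩ := IsCyclic.exists_generator (α := Fˣ)
  have hgo : orderOf g = Fintype.card F - 1 := by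
    rw [orderOf_eq_card_of_forall_mem_zpowers hg, Nat.card_eq_fintype_card, Fintype.card_units]
  obtain ⟨m, hm⟩ := h
  refine ⟨((g ^ m : Fˣ) : F), ?_⟩
  have h1 : IsPrimitiveRoot g (l * m) := by
    rw [← hm, ← hgo]; exact IsPrimitiveRoot.orderOf g
  have h2 : 0 < Fintype.card F - 1 := by
    have := Fintype.one_lt_card (α := F)
    omega
  have h3 : IsPrimitiveRoot (g ^ m) l := by
    refine h1.pow ?_ (mul_comm l m)
    omega
  exact h3.map_of_injective (f := Units.coeHom F) Units.val_injective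

end roots

section count

variable {F : Type} [Field F] [Fintype F] [DecidableEq F]

/-- the points of `y ^ 2 = f (x)` -/
def Sf (f : F[X]) : Finset (F × F) := univ.filter (fun z => z.2 ^ 2 = f.eval z.1)

open Classical in
/-- the points of `y ^ 2 = f (x)` where `A + B y` is the `l`-th power of a nonzero element -/
noncomputable def Tf (l : ℕ) (f A B : F[X]) : Finset (F × F) :=
  univ.filter (fun z => z.2 ^ 2 = f.eval z.1 ∧
    ∃ t : F, t ≠ 0 ∧ t ^ l = A.eval z.1 + B.eval z.1 * z.2)

theorem fib_card (P : Finset (F × F)) (G : Finset F) (m : ℕ)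
    (h : ∀ x : F, (univ.filter (fun y => (x, y) ∈ P)).card ≤ m) :
    (P.filter (fun z => z.1 ∈ G)).card ≤ m * G.card := by
  classical
  have h1 : ∀ z ∈ P.filter (fun z => z.1 ∈ G), z.1 ∈ G := fun z hz => (mem_filter.1 hz).2
  rw [card_eq_sum_card_fiberwise h1]
  refine (sum_le_card_nsmul _ _ m ?_).trans ?_
  · intro x hx
    refine le_trans ?_ (h x)
    refine card_le_card_of_injOn (fun z => z.2) ?_ ?_
    · intro z hz
      simp only [coe_filter, Set.mem_setOf_eq, mem_filter] at hz
      simp only [coe_filter, Set.mem_setOf_eq, mem_univ, true_and]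
      rw [← hz.2]
      exact hz.1.1
    · intro z hz z' hz' hzz
      simp only [coe_filter, Set.mem_setOf_eq, mem_filter] at hz hz'
      exact Prod.ext (hz.2.trans hz'.2.symm) hzz
  · rw [smul_eq_mul, mul_comm]

theorem roots_card_le (g : F[X]) (hg : g ≠ 0) :
    (univ.filter (fun x => g.eval x = 0)).card ≤ g.natDegree := by
  have h1 : univ.filter (fun x => g.eval x = 0) ⊆ g.roots.toFinset := by
    intro x hx
    rw [Multiset.mem_toFinset, mem_roots hg]
    exact (mem_filter.1 hx).2
  refine (card_le_card h1).trans ((Multiset.toFinset_card_le _).trans (card_roots' _))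

theorem sq_card_le (c : F) : (univ.filter (fun y : F => y ^ 2 = c)).card ≤ 2 := by
  have h1 : (X ^ 2 - C c : F[X]) ≠ 0 := X_pow_sub_C_ne_zero (by norm_num) c
  have h2 := roots_card_le _ h1
  rw [natDegree_X_pow_sub_C] at h2
  refine le_trans (card_le_card ?_) h2
  intro y hy
  simp only [mem_filter, mem_univ, true_and] at hy ⊢
  simp [hy]

theorem Psi_card_le {l : ℕ} (hl : 0 < l) (A N : F[X]) (x : F) :
    (univ.filter (fun w : F => evalEval x w (Psi l A N) = 0)).card ≤ 2 * l := by
  have hm : ((Psi l A N).map (evalRingHom x)).Monic := (Psi_monic hl A N).map _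
  have h2 := roots_card_le _ hm.ne_zero
  rw [(Psi_monic hl A N).natDegree_map, Psi_natDegree hl] at h2
  refine le_trans (card_le_card ?_) h2
  intro w hw
  simp only [mem_filter, mem_univ, true_and] at hw ⊢
  rw [← hw, ← eval₂_evalRingHom, eval_map]

theorem count_good {l : ℕ} (hl : 0 < l) {ζ : F} (hζ : IsPrimitiveRoot ζ l) (f A B N : F[X])
    (hN : N = A ^ 2 - f * B ^ 2) (G : Finset F) (hG : ∀ x ∈ G, B.eval x ≠ 0 ∧ N.eval x ≠ 0) :
    ((univ.filter (fun z : F × F => evalEval z.1 z.2 (Psi l A N) = 0)).filter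
      (fun z => z.1 ∈ G)).card = l * ((Tf l f A B).filter (fun z => z.1 ∈ G)).card := by
  classical
  set W : Finset (F × F × F) := univ.filter (fun u => u.1 ∈ G ∧ u.2.1 ^ 2 = f.eval u.1 ∧
    u.2.2 ^ l = A.eval u.1 + B.eval u.1 * u.2.1) with hW
  have hNe : ∀ x, N.eval x = A.eval x ^ 2 - f.eval x * B.eval x ^ 2 := by
    intro x; rw [hN]; simp
  have h1 : ((univ.filter (fun z : F × F => evalEval z.1 z.2 (Psi l A N) = 0)).filter
      (fun z => z.1 ∈ G)).card = W.card := by
    symm
    refine card_bij (fun u _ => (u.1, u.2.2)) ?_ ?_ ?_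
    · rintro ⟨x, y, w⟩ hu
      simp only [hW, mem_filter, mem_univ, true_and] at hu ⊢
      obtain ⟨hx, hy, hw⟩ := hu
      refine ⟨?_, hx⟩
      rw [Psi_evalEval, hNe, mul_comm 2 l, pow_mul, hw]
      linear_combination (B.eval x) ^ 2 * hy
    · rintro ⟨x, y, w⟩ hu ⟨x', y', w'⟩ hu' h
      simp only [hW, mem_filter, mem_univ, true_and] at hu hu'
      simp only [Prod.mk.injEq] at h
      obtain ⟨rfl, rfl⟩ := h
      obtain ⟨hx, hy, hw⟩ := hu
      obtain ⟨hx', hy', hw'⟩ := hu'
      have h2 : B.eval x * y = B.eval x * y' := by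
        have := hw.symm.trans hw'
        linear_combination this
      rw [mul_left_cancel₀ (hG x hx).1 h2]
    · rintro ⟨x, w⟩ hz
      simp only [mem_filter, mem_univ, true_and] at hz
      obtain ⟨h2, hx⟩ := hz
      have hB := (hG x hx).1
      rw [Psi_evalEval, hNe, mul_comm 2 l, pow_mul] at h2
      refine ⟨(x, (w ^ l - A.eval x) / B.eval x, w), ?_, rfl⟩
      simp only [hW, mem_filter, mem_univ, true_and]
      refine ⟨hx, ?_, ?_⟩
      · rw [div_pow, div_eq_iff (pow_ne_zero _ hB)]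
        linear_combination h2
      · rw [mul_div_cancel₀ _ hB]
        ring
  rw [h1]
  have h2 : ∀ u ∈ W, (u.1, u.2.1) ∈ (Tf l f A B).filter (fun z => z.1 ∈ G) := by
    rintro ⟨x, y, w⟩ hu
    simp only [hW, mem_filter, mem_univ, true_and] at hu
    obtain ⟨hx, hy, hw⟩ := hu
    simp only [Tf, mem_filter, mem_univ, true_and]
    refine ⟨⟨hy, w, ?_, hw⟩, hx⟩
    rintro rfl
    rw [zero_pow hl.ne'] at hw
    apply (hG x hx).2
    rw [hNe]
    have h3 : A.eval x = - (B.eval x * y) := by linear_combination -hw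
    rw [h3]
    linear_combination (B.eval x) ^ 2 * hy
  rw [card_eq_sum_card_fiberwise h2, mul_comm]
  rw [sum_const_nat (m := l)]
  rintro ⟨x, y⟩ hz
  simp only [Tf, mem_filter, mem_univ, true_and] at hz
  obtain ⟨⟨hy, t, ht0, ht⟩, hx⟩ := hz
  rw [← card_pow_eq hl hζ ht0]
  refine card_bij (fun u _ => u.2.2) ?_ ?_ ?_
  · rintro ⟨x', y', w'⟩ hu
    simp only [hW, mem_filter, mem_univ, true_and, Prod.mk.injEq] at hu ⊢
    obtain ⟨⟨_, _, hw⟩, rfl, rfl⟩ := hu
    rw [hw, ht]
  · rintro ⟨x1, y1, w1⟩ hu ⟨x2, y2, w2⟩ hu' h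
    simp only [hW, mem_filter, mem_univ, true_and, Prod.mk.injEq] at hu hu' h ⊢
    obtain ⟨_, rfl, rfl⟩ := hu
    obtain ⟨_, rfl, rfl⟩ := hu'
    exact ⟨rfl, rfl, h⟩
  · intro w hw
    simp only [mem_filter, mem_univ, true_and] at hw
    refine ⟨(x, y, w), ?_, rfl⟩
    simp only [hW, mem_filter, mem_univ, true_and, Prod.mk.injEq, and_self, and_true]
    exact ⟨hx, hy, by rw [hw, ht]⟩

end count

/-- the main count, `B ≠ 0` -/
theorem wcount1 (l : ℕ) (hl : l.Prime) (D : ℕ) : ∃ C : ℝ, 0 ≤ C ∧ ∀ (p : ℕ) [Fact p.Prime], p ≠ 2 →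
    l ∣ p - 1 → ∀ (f A B : (ZMod p)[X]), f.natDegree = 3 → A.natDegree ≤ D → B.natDegree ≤ D →
    B ≠ 0 →
    (∀ g : (AlgebraicClosure (ZMod p))[X],
      g ^ l ≠ (A ^ 2 - f * B ^ 2).map (algebraMap (ZMod p) (AlgebraicClosure (ZMod p)))) →
    |(l : ℝ) * ((Tf l f A B).card : ℝ) - p| ≤ C * √p := by
  refine ⟨(Pool.Agent.R410.PW.WC (2 * l) (2 * D + 3) (4 * D + 6) : ℝ) + 2 * l * (4 * D + 6),
    by positivity, ?_⟩
  intro p _ hp2 hlp f A B hf hA hB hB0 hpow
  classical
  set K := AlgebraicClosure (ZMod p)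
  set ι := algebraMap (ZMod p) K
  set N : (ZMod p)[X] := A ^ 2 - f * B ^ 2 with hN
  have hp : p.Prime := Fact.out
  have h2F : (2 : ZMod p) ≠ 0 := by
    intro h
    have h1 : ((2 : ℕ) : ZMod p) = 0 := by exact_mod_cast h
    rw [ZMod.natCast_eq_zero_iff] at h1
    exact hp2 ((Nat.prime_dvd_prime_iff_eq hp Nat.prime_two).1 h1)
  have h2K : (2 : K) ≠ 0 := by
    have : (ι 2) ≠ 0 := by rw [_root_.map_ne_zero]; exact h2F
    rwa [map_ofNat] at this
  have hlF : (l : ZMod p) ≠ 0 := by
    intro h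
    rw [ZMod.natCast_eq_zero_iff, Nat.prime_dvd_prime_iff_eq hp hl] at h
    subst h
    have h1 := Nat.le_of_dvd (by have := hp.two_le; omega) hlp
    have := hp.two_le
    omega
  have hN0 : N ≠ 0 := by
    intro h
    apply hpow 0
    rw [h, Polynomial.map_zero, zero_pow hl.ne_zero]
  have hf0 : f ≠ 0 := by
    rintro rfl
    simp at hf
  have hNd : N.natDegree ≤ 2 * D + 3 := by
    rw [hN]
    refine (natDegree_sub_le _ _).trans (max_le ?_ ?_)
    · refine (natDegree_pow_le).trans ?_
      omega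
    · refine natDegree_mul_le.trans ?_
      have := natDegree_pow_le (p := B) (n := 2)
      omega
  have hirr : Irreducible ((Psi l A N).map (mapRingHom ι)) := by
    rw [Psi_map]
    refine Psi_irred (A := A.map ι) (B := B.map ι) (f := f.map ι) (N := N.map ι) h2K hl ?_ ?_ ?_ ?_
    · rw [hN, Polynomial.map_sub, Polynomial.map_mul, Polynomial.map_pow, Polynomial.map_pow]
    · rw [Polynomial.map_ne_zero_iff ι.injective]; exact hB0
    · rw [natDegree_map, hf]; decide
    · exact hpow
  have hcert := Psi_cert hl.pos A B f N hN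
  have hD0 : (2 * l * (f * B ^ 2 * N) : (ZMod p)[X]) ≠ 0 := by
    have h1 : (2 : (ZMod p)[X]) ≠ 0 := by
      rw [← map_ofNat (C : (ZMod p) →+* (ZMod p)[X]), C_ne_zero]; exact h2F
    have h2 : (l : (ZMod p)[X]) ≠ 0 := by
      rw [← C_eq_natCast, C_ne_zero]; exact hlF
    exact mul_ne_zero (mul_ne_zero h1 h2) (mul_ne_zero (mul_ne_zero hf0 (pow_ne_zero _ hB0)) hN0)
  have hDd : (f * B ^ 2 * N : (ZMod p)[X]).natDegree ≤ 4 * D + 6 := by
    refine natDegree_mul_le.trans ?_
    have h1 := natDegree_mul_le (p := f) (q := B ^ 2)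
    have h2 := natDegree_pow_le (p := B) (n := 2)
    omega
  have hDd' : (2 * l * (f * B ^ 2 * N) : (ZMod p)[X]).natDegree ≤ 4 * D + 6 := by
    have : (2 * l * (f * B ^ 2 * N) : (ZMod p)[X]) = C (2 * l : ZMod p) * (f * B ^ 2 * N) := by
      rw [C_mul, map_ofNat, C_eq_natCast]
    rw [this]
    exact (natDegree_C_mul_le _ _).trans hDd
  have hweil := Pool.Agent.R410.PW.weil (F := ZMod p) K (f := Psi l A N) (Psi_monic hl.pos A N)
    (by rw [Psi_natDegree hl.pos]; have := hl.pos; omega) hcert hD0 hDd' (d := 2 * D + 3)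
    (fun i => Psi_coeff A N (by omega) hNd i) hirr
  rw [Psi_natDegree hl.pos, Nat.card_zmod] at hweil
  set Z : Finset (ZMod p × ZMod p) :=
    univ.filter (fun z : ZMod p × ZMod p => evalEval z.1 z.2 (Psi l A N) = 0) with hZ
  have hZc : {z : ZMod p × ZMod p | evalEval z.1 z.2 (Psi l A N) = 0}.ncard = Z.card := by
    rw [← Set.ncard_coe_finset]
    congr 1
    ext z
    simp [hZ]
  rw [hZc] at hweil
  set G : Finset (ZMod p) := univ.filter (fun x => (f * B ^ 2 * N).eval x ≠ 0) with hG
  set G' : Finset (ZMod p) := univ.filter (fun x => (f * B ^ 2 * N).eval x = 0) with hG'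
  have hG'c : G'.card ≤ 4 * D + 6 := (roots_card_le _
    (mul_ne_zero (mul_ne_zero hf0 (pow_ne_zero _ hB0)) hN0)).trans hDd
  obtain ⟨ζ, hζ⟩ := exists_zeta (F := ZMod p) hl.pos (by rw [ZMod.card]; exact hlp)
  have hgood := count_good hl.pos hζ f A B N hN G (by
    intro x hx
    rw [hG, mem_filter] at hx
    have hx2 := hx.2
    rw [eval_mul, eval_mul, eval_pow] at hx2
    refine ⟨?_, right_ne_zero_of_mul hx2⟩
    have := right_ne_zero_of_mul (left_ne_zero_of_mul hx2)
    exact fun h => this (by rw [h]; ring))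
  rw [← hZ] at hgood
  have hsplit : ∀ P : Finset (ZMod p × ZMod p), P.card =
      (P.filter (fun z => z.1 ∈ G)).card + (P.filter (fun z => z.1 ∈ G')).card := by
    intro P
    rw [← card_filter_add_card_filter_not (s := P) (fun z => z.1 ∈ G)]
    congr 2
    apply filter_congr
    intro z _
    rw [hG, hG', mem_filter, mem_filter]
    simp only [mem_univ, true_and, ne_eq, not_not]
  have hZb : (Z.filter (fun z => z.1 ∈ G')).card ≤ 2 * l * (4 * D + 6) := by
    refine (fib_card Z G' (2 * l) ?_).trans (Nat.mul_le_mul_left _ hG'c)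
    intro x
    refine le_trans (card_le_card ?_) (Psi_card_le hl.pos A N x)
    intro w hw
    simpa [hZ] using hw
  have hTb : ((Tf l f A B).filter (fun z => z.1 ∈ G')).card ≤ 2 * (4 * D + 6) := by
    refine (fib_card _ G' 2 ?_).trans (Nat.mul_le_mul_left _ hG'c)
    intro x
    refine le_trans (card_le_card ?_) (sq_card_le (f.eval x))
    intro y hy
    simp only [Tf, mem_filter, mem_univ, true_and] at hy ⊢
    exact hy.1
  have e1 := hsplit Z
  have e2 := hsplit (Tf l f A B)
  have e3 : (l : ℝ) * ((Tf l f A B).card : ℝ) - p = ((Z.card : ℝ) - p) +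
      ((l : ℝ) * ((Tf l f A B).filter (fun z => z.1 ∈ G')).card -
        (Z.filter (fun z => z.1 ∈ G')).card) := by
    have h3 : (Z.card : ℝ) = (Z.filter (fun z => z.1 ∈ G)).card +
      (Z.filter (fun z => z.1 ∈ G')).card := by exact_mod_cast e1
    have h4 : ((Tf l f A B).card : ℝ) = ((Tf l f A B).filter (fun z => z.1 ∈ G)).card +
      ((Tf l f A B).filter (fun z => z.1 ∈ G')).card := by exact_mod_cast e2
    have h5 : ((Z.filter (fun z => z.1 ∈ G)).card : ℝ) =
      l * ((Tf l f A B).filter (fun z => z.1 ∈ G)).card := by exact_mod_cast hgood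
    rw [h3, h4, h5]
    ring
  rw [e3]
  have hs1 : (1 : ℝ) ≤ √p := by
    rw [Real.one_le_sqrt]
    exact_mod_cast hp.one_lt.le
  have h6 : |((l : ℝ) * ((Tf l f A B).filter (fun z => z.1 ∈ G')).card -
        (Z.filter (fun z => z.1 ∈ G')).card)| ≤ 2 * l * (4 * D + 6) := by
    have h7 : (((Tf l f A B).filter (fun z => z.1 ∈ G')).card : ℝ) ≤ 2 * (4 * D + 6) := by
      exact_mod_cast hTb
    have h8 : ((Z.filter (fun z => z.1 ∈ G')).card : ℝ) ≤ 2 * l * (4 * D + 6) := by
      exact_mod_cast hZb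
    have h9 : (0 : ℝ) ≤ (Z.filter (fun z => z.1 ∈ G')).card := Nat.cast_nonneg _
    have h10 : (0 : ℝ) ≤ ((Tf l f A B).filter (fun z => z.1 ∈ G')).card := Nat.cast_nonneg _
    have h11 : (0 : ℝ) ≤ l := Nat.cast_nonneg _
    rw [abs_le]
    constructor
    · nlinarith
    · nlinarith
  refine (abs_add_le _ _).trans ?_
  rw [add_mul]
  refine add_le_add hweil (h6.trans ?_)
  refine le_mul_of_one_le_right (by positivity) hs1

/-- the main count -/
theorem wcount (l : ℕ) (hl : l.Prime) (D : ℕ) : ∃ C : ℝ, 0 ≤ C ∧ ∀ (p : ℕ) [Fact p.Prime], p ≠ 2 →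
    l ∣ p - 1 → ∀ (f A B : (ZMod p)[X]), f.natDegree = 3 → A.natDegree ≤ D → B.natDegree ≤ D →
    (∀ g : (AlgebraicClosure (ZMod p))[X],
      g ^ l ≠ (A ^ 2 - f * B ^ 2).map (algebraMap (ZMod p) (AlgebraicClosure (ZMod p)))) →
    |(l : ℝ) * ((Tf l f A B).card : ℝ) - p| ≤ C * √p := by
  obtain ⟨C1, hC1, h1⟩ := wcount1 l hl (3 * l + D)
  refine ⟨C1 + 3 * l, by positivity, ?_⟩
  intro p _ hp2 hlp f A B hf hA hB hpow
  have hs1 : (1 : ℝ) ≤ √p := by
    rw [Real.one_le_sqrt]
    exact_mod_cast (Fact.out : p.Prime).one_lt.le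
  by_cases hB0 : B = 0
  · subst hB0
    set K := AlgebraicClosure (ZMod p)
    set ι := algebraMap (ZMod p) K
    rcases hl.eq_two_or_odd' with h2 | hodd
    · exfalso
      subst h2
      apply hpow (A.map ι)
      simp
    obtain ⟨m, hm⟩ := hodd
    have hf0 : f ≠ 0 := by
      rintro rfl
      simp at hf
    have hA0 : A ≠ 0 := by
      rintro rfl
      apply hpow 0
      simp [hl.ne_zero]
    have h2 := h1 p hp2 hlp f 0 (f ^ m * A) hf (by simp) (by
      refine natDegree_mul_le.trans ?_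
      rw [natDegree_pow, hf]
      omega) (mul_ne_zero (pow_ne_zero _ hf0) hA0) (by
      intro g hg
      have hφ : algebraMap K[X] (RatFunc K) (f.map ι) ≠ 0 := by
        rw [map_ne_zero_iff _ (IsFractionRing.injective K[X] (RatFunc K)),
          Polynomial.map_ne_zero_iff ι.injective]
        exact hf0
      have h3 : (algebraMap K[X] (RatFunc K) (-g) / algebraMap K[X] (RatFunc K) (f.map ι)) ^ l =
          algebraMap K[X] (RatFunc K) ((A ^ 2).map ι) := by
        rw [div_pow, div_eq_iff (pow_ne_zero _ hφ), ← map_pow, ← map_pow, ← map_mul,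
          Odd.neg_pow ⟨m, hm⟩, hg]
        congr 1
        rw [hm]
        simp only [Polynomial.map_sub, Polynomial.map_mul, Polynomial.map_pow, Polynomial.map_zero]
        ring
      obtain ⟨r0, _, hr0⟩ := exists_poly_of_pow hl.pos h3
      apply hpow r0
      rw [hr0]
      congr 1
      ring)
    have h3 : |((Tf l f A 0).card : ℝ) - (Tf l f 0 (f ^ m * A)).card| ≤ 3 := by
      classical
      set G' : Finset (ZMod p × ZMod p) := univ.filter (fun z => f.eval z.1 = 0 ∧ z.2 = 0) with hG'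
      have hG'c : G'.card ≤ 3 := by
        rw [← hf]
        refine le_trans ?_ (roots_card_le f hf0)
        refine card_le_card_of_injOn (fun z => z.1) ?_ ?_
        · intro z hz
          simp only [hG', coe_filter, Set.mem_setOf_eq, mem_univ, true_and] at hz ⊢
          exact hz.1
        · intro z hz z' hz' hzz
          simp only [hG', coe_filter, Set.mem_setOf_eq, mem_univ, true_and] at hz hz'
          exact Prod.ext hzz (hz.2.trans hz'.2.symm)
      have key : ∀ x y : ZMod p, y ≠ 0 → y ^ 2 = f.eval x →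
          ((∃ t : ZMod p, t ≠ 0 ∧ t ^ l = A.eval x + (0 : (ZMod p)[X]).eval x * y) ↔
            (∃ t : ZMod p, t ≠ 0 ∧ t ^ l = (0 : (ZMod p)[X]).eval x +
              (f ^ m * A).eval x * y)) := by
        intro x y hy hxy
        have h5 : y ^ l = f.eval x ^ m * y := by
          rw [hm, pow_succ, pow_mul, hxy]
        constructor
        · rintro ⟨t, ht, h⟩
          refine ⟨t * y, mul_ne_zero ht hy, ?_⟩
          rw [mul_pow, h, h5]
          simp
          ring
        · rintro ⟨t, ht, h⟩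
          refine ⟨t / y, div_ne_zero ht hy, ?_⟩
          rw [div_pow, h, div_eq_iff (pow_ne_zero _ hy), h5]
          simp
          ring
      have s1 : Tf l f A 0 ⊆ Tf l f 0 (f ^ m * A) ∪ G' := by
        rintro ⟨x, y⟩ hz
        rw [mem_union]
        simp only [Tf, hG', mem_filter, mem_univ, true_and] at hz ⊢
        by_cases hy : y = 0
        · right
          refine ⟨?_, hy⟩
          rw [← hz.1, hy]; simp
        · left
          exact ⟨hz.1, (key x y hy hz.1).1 hz.2⟩
      have s2 : Tf l f 0 (f ^ m * A) ⊆ Tf l f A 0 ∪ G' := by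
        rintro ⟨x, y⟩ hz
        rw [mem_union]
        simp only [Tf, hG', mem_filter, mem_univ, true_and] at hz ⊢
        by_cases hy : y = 0
        · right
          refine ⟨?_, hy⟩
          rw [← hz.1, hy]; simp
        · left
          exact ⟨hz.1, (key x y hy hz.1).2 hz.2⟩
      have c1 := (card_le_card s1).trans (card_union_le _ _)
      have c2 := (card_le_card s2).trans (card_union_le _ _)
      have c1' : ((Tf l f A 0).card : ℝ) ≤ (Tf l f 0 (f ^ m * A)).card + 3 := by
        exact_mod_cast c1.trans (Nat.add_le_add_left hG'c _)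
      have c2' : ((Tf l f 0 (f ^ m * A)).card : ℝ) ≤ (Tf l f A 0).card + 3 := by
        exact_mod_cast c2.trans (Nat.add_le_add_left hG'c _)
      rw [abs_le]
      constructor <;> linarith
    have e3 : (l : ℝ) * ((Tf l f A 0).card : ℝ) - p =
        ((l : ℝ) * ((Tf l f 0 (f ^ m * A)).card : ℝ) - p) +
          l * (((Tf l f A 0).card : ℝ) - (Tf l f 0 (f ^ m * A)).card) := by ring
    rw [e3]
    refine (abs_add_le _ _).trans ?_
    rw [add_mul]
    refine add_le_add h2 ?_
    rw [abs_mul, abs_of_nonneg (Nat.cast_nonneg l : (0 : ℝ) ≤ l)]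
    have h4 : (l : ℝ) * |((Tf l f A 0).card : ℝ) - (Tf l f 0 (f ^ m * A)).card| ≤ 3 * l := by
      rw [mul_comm 3]
      exact mul_le_mul_of_nonneg_left h3 (Nat.cast_nonneg l)
    exact h4.trans (le_mul_of_one_le_right (by positivity) hs1)
  · refine (h1 p hp2 hlp f A B hf (hA.trans (by omega)) (hB.trans (by omega)) hB0 hpow).trans ?_
    refine mul_le_mul_of_nonneg_right ?_ (Real.sqrt_nonneg _)
    have : (0 : ℝ) ≤ 3 * l := by positivity
    linarith

end Pool.Agent.K9h5
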