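import Mathlib
import Pool.Agent.K9h5.Wc2

/-!
# Nonzero `l`-th powers in a finite field
-/

set_option autoImplicit false
set_option linter.all false

namespace Pool.Agent.K9h5

open Finset

/-- `t` is the `l`-th power of a nonzero element -/
def IsL {F : Type} [Field F] (l : ℕ) (t : F) : Prop := ∃ s : F, s ≠ 0 ∧ s ^ l = t

section

variable {F : Type} [Field F]

theorem IsL.ne_zero {l : ℕ} {t : F} (h : IsL l t) : t ≠ 0 := by
  obtain ⟨s, hs, rfl⟩ := h
  exact pow_ne_zero _ hs

theorem isL_mul_pow {l : ℕ} {t u : F} (hu : u ≠ 0) : IsL l (u ^ l * t) ↔ IsL l t := by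
  constructor
  · rintro ⟨s, hs, h⟩
    refine ⟨s / u, div_ne_zero hs hu, ?_⟩
    rw [div_pow, h, mul_div_cancel_left₀ _ (pow_ne_zero _ hu)]
  · rintro ⟨s, hs, h⟩
    exact ⟨u * s, mul_ne_zero hu hs, by rw [mul_pow, h]⟩

variable [Fintype F] [DecidableEq F]

theorem isL_iff {l : ℕ} (hl : 0 < l) {m : ℕ} (hm : Fintype.card F - 1 = l * m) {t : F}
    (ht : t ≠ 0) : IsL l t ↔ t ^ m = 1 := by
  constructor
  · rintro ⟨s, hs, rfl⟩
    rw [← pow_mul, ← hm]
    exact FiniteField.pow_card_sub_one_eq_one s hs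
  · intro h
    obtain ⟨g, hg⟩ := IsCyclic.exists_generator (α := Fˣ)
    have hgo : orderOf g = Fintype.card F - 1 := by
      rw [orderOf_eq_card_of_forall_mem_zpowers hg, Nat.card_eq_fintype_card, Fintype.card_units]
    obtain ⟨i, hi⟩ := (isOfFinOrder_of_finite g).mem_zpowers_iff_mem_range_orderOf.1
      (hg (Units.mk0 t ht)) |> Finset.mem_image.1
    obtain ⟨_, hi⟩ := hi
    have h1 : (Units.mk0 t ht) ^ m = 1 := by
      ext
      rw [Units.val_pow_eq_pow_val, Units.val_mk0, h, Units.val_one]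
    rw [← hi, ← pow_mul] at h1
    have h2 := orderOf_dvd_of_pow_eq_one h1
    have h3 : 0 < Fintype.card F - 1 := by
      have := Fintype.one_lt_card (α := F)
      omega
    rw [hgo, hm] at h2
    have hm0 : 0 < m := by
      rw [hm] at h3
      exact Nat.pos_of_mul_pos_left h3
    obtain ⟨j, hj⟩ := Nat.dvd_of_mul_dvd_mul_right hm0 h2
    refine ⟨((g ^ j : Fˣ) : F), Units.ne_zero _, ?_⟩
    have h4 : g ^ (l * j) = Units.mk0 t ht := by rw [← hj, hi]
    rw [← Units.val_pow_eq_pow_val, ← pow_mul, mul_comm j l, h4, Units.val_mk0]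

open Classical in
/-- the identity for the indicators -/
theorem ind_identity {l : ℕ} (hl : l.Prime) (hd : l ∣ Fintype.card F - 1) {a b : F} (ha : a ≠ 0)
    (hb : b ≠ 0) :
    (l : ℝ) * ((if IsL l a then 1 else 0) * (if IsL l b then 1 else 0)) =
      (∑ k ∈ range l, if IsL l (a * b ^ k) then (1 : ℝ) else 0) + (if IsL l b then 1 else 0) - 1 := by
  by_cases hbl : IsL l b
  · obtain ⟨s, hs, hsb⟩ := hbl
    have h1 : ∀ k ∈ range l, (if IsL l (a * b ^ k) then (1 : ℝ) else 0) =
        if IsL l a then 1 else 0 := by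
      intro k _
      have h2 : IsL l (a * b ^ k) ↔ IsL l a := by
        rw [← hsb, ← pow_mul, mul_comm l k, pow_mul, mul_comm a]
        exact isL_mul_pow (pow_ne_zero _ hs)
      simp only [h2]
    rw [sum_congr rfl h1, sum_const, card_range, if_pos (show IsL l b from ⟨s, hs, hsb⟩)]
    simp
  · obtain ⟨m, hm⟩ := hd
    have hiff := fun {t : F} (ht : t ≠ 0) => isL_iff hl.pos hm ht
    rw [if_neg hbl]
    have hbm : b ^ m ≠ 1 := fun h => hbl ((hiff hb).2 h)
    have hpow : ∀ t : F, t ≠ 0 → (t ^ m) ^ l = 1 := by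
      intro t ht
      rw [← pow_mul, mul_comm, ← hm]
      exact FiniteField.pow_card_sub_one_eq_one t ht
    have hβ : IsPrimitiveRoot (b ^ m) l := by
      have h1 := orderOf_eq_prime (hpow b hb) hbm (hp := ⟨hl⟩)
      rw [← h1]
      exact IsPrimitiveRoot.orderOf _
    have h3 : ((a ^ m)⁻¹) ^ l = 1 := by rw [inv_pow, hpow a ha, inv_one]
    haveI : NeZero l := ⟨hl.ne_zero⟩
    obtain ⟨k0, hk0, hk0'⟩ := hβ.eq_pow_of_pow_eq_one h3
    have h4 : ∀ k ∈ range l, (if IsL l (a * b ^ k) then (1 : ℝ) else 0) =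
        if k = k0 then 1 else 0 := by
      intro k hk
      rw [mem_range] at hk
      have h5 : IsL l (a * b ^ k) ↔ k = k0 := by
        rw [hiff (mul_ne_zero ha (pow_ne_zero _ hb)), mul_pow, ← pow_mul, mul_comm k m, pow_mul]
        constructor
        · intro h
          have h6 : (b ^ m) ^ k = (b ^ m) ^ k0 := by
            rw [hk0']
            exact eq_inv_of_mul_eq_one_right h
          exact hβ.pow_inj hk hk0 h6
        · rintro rfl
          rw [hk0', mul_inv_cancel₀ (pow_ne_zero _ ha)]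
      simp only [h5]
    rw [sum_congr rfl h4, sum_ite_eq' , if_pos (mem_range.2 hk0)]
    simp

open Classical in
/-- the identity for the indicators, with zeros -/
theorem ind_bound {l : ℕ} (hl : l.Prime) (hd : l ∣ Fintype.card F - 1) (a b : F) :
    |(l : ℝ) * ((if IsL l a then 1 else 0) * (if IsL l b then 1 else 0)) -
      ((∑ k ∈ range l, if IsL l (a * b ^ k) then (1 : ℝ) else 0) +
        (if IsL l b then 1 else 0) - 1)| ≤
      (l + 1) * ((if a = 0 then 1 else 0) + (if b = 0 then 1 else 0)) := by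
  by_cases ha : a = 0
  · subst ha
    have h1 : ¬ IsL l (0 : F) := fun h => h.ne_zero rfl
    have h2 : ∀ k ∈ range l, (if IsL l (0 * b ^ k) then (1 : ℝ) else 0) = 0 := by
      intro k _
      rw [zero_mul, if_neg h1]
    rw [sum_congr rfl h2, if_neg h1, if_pos rfl]
    have h3 : (0 : ℝ) ≤ l := Nat.cast_nonneg l
    split_ifs <;> simp <;> nlinarith
  · by_cases hb : b = 0
    · subst hb
      have h1 : ¬ IsL l (0 : F) := fun h => h.ne_zero rfl
      rw [if_neg h1, if_neg ha, if_pos rfl]
      have h2 : (∑ k ∈ range l, if IsL l (a * 0 ^ k) then (1 : ℝ) else 0) ≤ l := by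
        refine (sum_le_card_nsmul _ _ 1 ?_).trans ?_
        · intro k _
          split_ifs <;> norm_num
        · simp
      have h3 : (0 : ℝ) ≤ ∑ k ∈ range l, if IsL l (a * 0 ^ k) then (1 : ℝ) else 0 :=
        sum_nonneg fun k _ => by split_ifs <;> norm_num
      rw [abs_le]
      constructor <;> linarith
    · rw [ind_identity hl hd ha hb, sub_self, abs_zero]
      rw [if_neg ha, if_neg hb]
      simp

end

end Pool.Agent.K9h5
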