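import Mathlib
import Pool.Agent.K9h5.Chi

/-!
# Products of four indicators of `l`-th powers
-/

set_option autoImplicit false
set_option linter.all false

namespace Pool.Agent.K9h5

open Finset

section

variable {F : Type} [Field F] [Fintype F] [DecidableEq F]

/-- the class modulo `l`-th powers -/
theorem exists_lam {l : ℕ} (hl : l.Prime) (hd : l ∣ Fintype.card F - 1) :
    ∃ lam : F → ZMod l, (∀ a b : F, a ≠ 0 → b ≠ 0 → lam (a * b) = lam a + lam b) ∧
      ∀ a : F, a ≠ 0 → (IsL l a ↔ lam a = 0) := by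
  classical
  obtain ⟨g, hg⟩ := IsCyclic.exists_generator (α := Fˣ)
  have hgo : orderOf g = Fintype.card F - 1 := by
    rw [orderOf_eq_card_of_forall_mem_zpowers hg, Nat.card_eq_fintype_card, Fintype.card_units]
  have h1 : ∀ a : Fˣ, ∃ i : ℕ, g ^ i = a := by
    intro a
    obtain ⟨i, hi⟩ := (isOfFinOrder_of_finite g).mem_zpowers_iff_mem_range_orderOf.1
      (hg a) |> Finset.mem_image.1
    exact ⟨i, hi.2⟩
  choose ind hind using h1
  have h2 : ∀ i j : ℕ, g ^ i = g ^ j → (i : ZMod l) = (j : ZMod l) := by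
    intro i j hij
    rw [pow_eq_pow_iff_modEq, hgo] at hij
    rw [ZMod.natCast_eq_natCast_iff]
    exact hij.of_dvd hd
  refine ⟨fun a => if h : a = 0 then 0 else (ind (Units.mk0 a h) : ZMod l), ?_, ?_⟩
  · intro a b ha hb
    simp only
    rw [dif_neg ha, dif_neg hb, dif_neg (mul_ne_zero ha hb), ← Nat.cast_add]
    apply h2
    rw [pow_add, hind, hind, hind]
    ext
    simp
  · intro a ha
    simp only
    rw [dif_neg ha]
    constructor
    · rintro ⟨s, hs, hsa⟩
      have h3 : g ^ ind (Units.mk0 a ha) = g ^ (ind (Units.mk0 s hs) * l) := by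
        rw [pow_mul, hind, hind]
        ext
        simp [hsa]
      rw [h2 _ _ h3]
      simp
    · intro h
      rw [ZMod.natCast_eq_zero_iff] at h
      obtain ⟨c, hc⟩ := h
      refine ⟨((g ^ c : Fˣ) : F), Units.ne_zero _, ?_⟩
      rw [← Units.val_pow_eq_pow_val, ← pow_mul, mul_comm c l, ← hc, hind, Units.val_mk0]

end

open Classical in
/-- the centred indicator of `0` in `ZMod l` -/
noncomputable def dl (l : ℕ) (t : ZMod l) : ℝ := l * (if t = 0 then 1 else 0) - 1

theorem dl_step {l : ℕ} (hl : l.Prime) (c t : ZMod l) :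
    ∑ k ∈ Ico 1 l, dl l (c + (k : ZMod l) * t) = dl l t * dl l c := by
  classical
  haveI : NeZero l := ⟨hl.ne_zero⟩
  haveI : Fact l.Prime := ⟨hl⟩
  have h1 : ∀ f : ZMod l → ℝ, ∑ k ∈ Ico 1 l, f (k : ZMod l) = (∑ s : ZMod l, f s) - f 0 := by
    intro f
    have h2 : ∑ k ∈ Ico 1 l, f (k : ZMod l) = ∑ s ∈ univ.erase (0 : ZMod l), f s := by
      refine sum_bij' (fun k _ => (k : ZMod l)) (fun s _ => s.val) ?_ ?_ ?_ ?_ ?_
      · intro k hk
        rw [mem_Ico] at hk
        rw [mem_erase]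
        refine ⟨?_, mem_univ _⟩
        intro h0
        rw [ZMod.natCast_eq_zero_iff] at h0
        exact absurd (Nat.le_of_dvd (by omega) h0) (by omega)
      · intro s hs
        rw [mem_erase] at hs
        rw [mem_Ico]
        refine ⟨?_, ZMod.val_lt s⟩
        rcases Nat.eq_zero_or_pos s.val with h0 | h0
        · exact absurd ((ZMod.val_eq_zero s).1 h0) hs.1
        · exact h0
      · intro k hk
        rw [mem_Ico] at hk
        exact ZMod.val_natCast_of_lt hk.2
      · intro s _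
        exact ZMod.natCast_zmod_val s
      · intro k _
        rfl
    rw [h2]
    have h3 := add_sum_erase (univ : Finset (ZMod l)) f (mem_univ 0)
    linarith
  rw [h1 (fun s => dl l (c + s * t))]
  simp only [zero_mul, add_zero]
  by_cases ht : t = 0
  · subst ht
    simp only [mul_zero, add_zero]
    rw [sum_const, card_univ, ZMod.card, nsmul_eq_mul]
    have : dl l 0 = l - 1 := by
      unfold dl
      rw [if_pos rfl]; ring
    rw [this]
    ring
  · have h2 : ∑ s : ZMod l, dl l (c + s * t) = ∑ s : ZMod l, dl l s := by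
      rw [← Equiv.sum_comp ((Equiv.mulRight₀ t ht).trans (Equiv.addLeft c)) (dl l)]
      rfl
    have h3 : ∑ s : ZMod l, dl l s = 0 := by
      unfold dl
      rw [sum_sub_distrib, ← mul_sum, sum_ite_eq', if_pos (mem_univ _), sum_const, card_univ,
        ZMod.card, nsmul_eq_mul]
      ring
    rw [h2, h3]
    have : dl l t = -1 := by
      unfold dl
      rw [if_neg ht]; ring
    rw [this]
    ring

theorem dl_four {l : ℕ} (hl : l.Prime) (t₁ t₂ t₃ t₄ : ZMod l) :
    ∑ k₁ ∈ Ico 1 l, ∑ k₂ ∈ Ico 1 l, ∑ k₃ ∈ Ico 1 l, ∑ k₄ ∈ Ico 1 l,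
      dl l ((k₁ : ZMod l) * t₁ + (k₂ : ZMod l) * t₂ + (k₃ : ZMod l) * t₃ + (k₄ : ZMod l) * t₄) =
      ((l : ℝ) - 1) * (dl l t₁ * dl l t₂ * dl l t₃ * dl l t₄) := by
  have h0 : dl l (0 : ZMod l) = l - 1 := by
    unfold dl
    rw [if_pos rfl]; ring
  have e1 : ∀ k : ℕ, dl l ((k : ZMod l) * t₁) = dl l (0 + (k : ZMod l) * t₁) := by
    intro k; rw [zero_add]
  simp only [dl_step hl, ← mul_sum]
  rw [sum_congr rfl (fun k _ => e1 k), dl_step hl, h0]
  ring

section

variable {F : Type} [Field F] [Fintype F] [DecidableEq F]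

open Classical in
/-- the centred indicator of nonzero `l`-th powers -/
noncomputable def wL (l : ℕ) (t : F) : ℝ := l * (if IsL l t then 1 else 0) - 1

theorem wL_abs {l : ℕ} (hl : 1 ≤ l) (t : F) : |wL l t| ≤ l := by
  have h1 : (1 : ℝ) ≤ l := by exact_mod_cast hl
  unfold wL
  rw [abs_le]
  split_ifs <;> constructor <;> linarith

open Classical in
/-- the identity for four indicators, with zeros -/
theorem four_bound {l : ℕ} (hl : l.Prime) (hd : l ∣ Fintype.card F - 1) (a : Fin 4 → F) :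
    |((l : ℝ) - 1) * (wL l (a 0) * wL l (a 1) * wL l (a 2) * wL l (a 3)) -
      ∑ k₁ ∈ Ico 1 l, ∑ k₂ ∈ Ico 1 l, ∑ k₃ ∈ Ico 1 l, ∑ k₄ ∈ Ico 1 l,
        wL l (∏ i, a i ^ (![k₁, k₂, k₃, k₄] i))| ≤
      2 * (l : ℝ) ^ 5 * ∑ i, (if a i = 0 then 1 else 0) := by
  have hl1 : (1 : ℝ) ≤ l := by exact_mod_cast hl.one_lt.le
  by_cases ha : ∀ i, a i ≠ 0
  · obtain ⟨lam, hmul, hiff⟩ := exists_lam (F := F) hl hd
    have hpow : ∀ (t : F), t ≠ 0 → ∀ k : ℕ, lam (t ^ k) = (k : ZMod l) * lam t := by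
      intro t ht k
      induction k with
      | zero =>
        rw [pow_zero, Nat.cast_zero, zero_mul]
        exact (hiff 1 one_ne_zero).1 ⟨1, one_ne_zero, one_pow l⟩
      | succ k ih =>
        rw [pow_succ, hmul _ _ (pow_ne_zero _ ht) ht, ih]
        push_cast
        ring
    have hw : ∀ t : F, t ≠ 0 → wL l t = dl l (lam t) := by
      intro t ht
      unfold wL dl
      simp only [hiff t ht]
    have h1 : ∀ k₁ k₂ k₃ k₄ : ℕ, wL l (∏ i, a i ^ (![k₁, k₂, k₃, k₄] i)) =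
        dl l ((k₁ : ZMod l) * lam (a 0) + (k₂ : ZMod l) * lam (a 1) + (k₃ : ZMod l) * lam (a 2) +
          (k₄ : ZMod l) * lam (a 3)) := by
      intro k₁ k₂ k₃ k₄
      have h2 : ∏ i, a i ^ (![k₁, k₂, k₃, k₄] i) = a 0 ^ k₁ * a 1 ^ k₂ * a 2 ^ k₃ * a 3 ^ k₄ := by
        rw [Fin.prod_univ_four]
        simp
      have n0 := pow_ne_zero k₁ (ha 0)
      have n1 := pow_ne_zero k₂ (ha 1)
      have n2 := pow_ne_zero k₃ (ha 2)
      have n3 := pow_ne_zero k₄ (ha 3)
      rw [h2, hw _ (mul_ne_zero (mul_ne_zero (mul_ne_zero n0 n1) n2) n3),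
        hmul _ _ (mul_ne_zero (mul_ne_zero n0 n1) n2) n3, hmul _ _ (mul_ne_zero n0 n1) n2,
        hmul _ _ n0 n1, hpow _ (ha 0), hpow _ (ha 1), hpow _ (ha 2), hpow _ (ha 3)]
    simp only [h1]
    rw [dl_four hl, hw _ (ha 0), hw _ (ha 1), hw _ (ha 2), hw _ (ha 3), sub_self, abs_zero]
    have : (0 : ℝ) ≤ ∑ i, (if a i = 0 then (1 : ℝ) else 0) :=
      sum_nonneg fun i _ => by split_ifs <;> norm_num
    positivity
  · push Not at ha
    obtain ⟨i₀, hi₀⟩ := ha
    have h1 : (1 : ℝ) ≤ ∑ i, (if a i = 0 then (1 : ℝ) else 0) := by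
      have h2 := single_le_sum (f := fun i => (if a i = 0 then (1 : ℝ) else 0))
        (fun i _ => by split_ifs <;> norm_num) (mem_univ i₀)
      simp only [if_pos hi₀] at h2
      exact h2
    have hw := fun t : F => wL_abs hl.one_lt.le t
    have h2 : |((l : ℝ) - 1) * (wL l (a 0) * wL l (a 1) * wL l (a 2) * wL l (a 3))| ≤
        (l : ℝ) ^ 5 := by
      rw [abs_mul, abs_mul, abs_mul, abs_mul, abs_of_nonneg (by linarith : (0 : ℝ) ≤ (l : ℝ) - 1)]
      have e : (l : ℝ) ^ 5 = l * (l * l * l * l) := by ring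
      rw [e]
      have := hw (a 0); have := hw (a 1); have := hw (a 2); have := hw (a 3)
      have p0 := abs_nonneg (wL l (a 0))
      gcongr
      linarith
    have hIco : ((Ico 1 l).card : ℝ) ≤ l := by
      rw [Nat.card_Ico]
      exact_mod_cast Nat.sub_le l 1
    have h3 : |∑ k₁ ∈ Ico 1 l, ∑ k₂ ∈ Ico 1 l, ∑ k₃ ∈ Ico 1 l, ∑ k₄ ∈ Ico 1 l,
        wL l (∏ i, a i ^ (![k₁, k₂, k₃, k₄] i))| ≤ (l : ℝ) ^ 5 := by
      have key : ∀ (f : ℕ → ℝ) (M : ℝ), 0 ≤ M → (∀ k, |f k| ≤ M) →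
          |∑ k ∈ Ico 1 l, f k| ≤ l * M := by
        intro f M hM hf
        refine (abs_sum_le_sum_abs _ _).trans ((sum_le_sum fun k _ => hf k).trans ?_)
        rw [sum_const, nsmul_eq_mul]
        exact mul_le_mul_of_nonneg_right hIco hM
      have e : (l : ℝ) ^ 5 = l * (l * (l * (l * l))) := by ring
      rw [e]
      have hl0 : (0 : ℝ) ≤ l := by linarith
      refine key _ _ (by positivity) fun k₁ => ?_
      refine key _ _ (by positivity) fun k₂ => ?_
      refine key _ _ (by positivity) fun k₃ => ?_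
      exact key _ _ (by positivity) fun k₄ => hw _
    refine (abs_sub _ _).trans ?_
    have h5 : (0 : ℝ) ≤ (l : ℝ) ^ 5 := by positivity
    nlinarith

end

end Pool.Agent.K9h5
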