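import Mathlib
import Pool.Agent.H901R3.MS.Defs

/-!
# Translations on `y ^ 2 = x ^ 3 + a x + b` and the coordinate ring
-/

set_option autoImplicit false
set_option linter.all false

namespace Pool.Agent.K9h5

open Polynomial Pool.Agent.H901R3.MS WeierstrassCurve

/-- the coordinates of `(x₁, y₁) + (x, y)`, multiplied by `(x - x₁) ^ 3` -/
def TV {S : Type} [CommRing S] (x₁ y₁ x y : S) : Fin 3 → S :=
  ![(x - x₁) * ((y - y₁) ^ 2 - (x + x₁) * (x - x₁) ^ 2),
    -((y - y₁) * ((y - y₁) ^ 2 - (x + x₁) * (x - x₁) ^ 2 - x₁ * (x - x₁) ^ 2) + y₁ * (x - x₁) ^ 3),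
    (x - x₁) ^ 3]

theorem TV_map {S T : Type} [CommRing S] [CommRing T] (φ : S →+* T) (x₁ y₁ x y : S) (j : Fin 3) :
    φ (TV x₁ y₁ x y j) = TV (φ x₁) (φ y₁) (φ x) (φ y) j := by
  fin_cases j <;> simp [TV]

/-- the coordinate ring of `y ^ 2 = x ^ 3 + a x + b` -/
abbrev QA (S : Type) [CommRing S] (a b : S) : Type :=
  QuadraticAlgebra S[X] (X ^ 3 + C a * X + C b) 0

/-- the value of an element of the coordinate ring at a point -/
noncomputable def evQ {S K : Type} [CommRing S] [CommRing K] (ι : S →+* K) (a b : S) (x y : K)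
    (h : y ^ 2 = x ^ 3 + ι a * x + ι b) : QA S a b →+* K where
  toFun z := z.re.eval₂ ι x + z.im.eval₂ ι x * y
  map_zero' := by simp
  map_one' := by
    simp [QuadraticAlgebra.re_one, QuadraticAlgebra.im_one]
  map_add' z w := by
    simp only [QuadraticAlgebra.re_add, QuadraticAlgebra.im_add, eval₂_add]
    ring
  map_mul' z w := by
    simp only [QuadraticAlgebra.re_mul, QuadraticAlgebra.im_mul, eval₂_add, eval₂_mul, eval₂_pow,
      eval₂_X, eval₂_C, eval₂_zero]
    linear_combination - (z.im.eval₂ ι x * w.im.eval₂ ι x) * h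

theorem evQ_apply {S K : Type} [CommRing S] [CommRing K] (ι : S →+* K) (a b : S) (x y : K)
    (h : y ^ 2 = x ^ 3 + ι a * x + ι b) (z : QA S a b) :
    evQ ι a b x y h z = z.re.eval₂ ι x + z.im.eval₂ ι x * y := rfl

theorem evQ_norm {S K : Type} [CommRing S] [CommRing K] (ι : S →+* K) (a b : S) (x y : K)
    (h : y ^ 2 = x ^ 3 + ι a * x + ι b) (h' : (-y) ^ 2 = x ^ 3 + ι a * x + ι b) (z : QA S a b) :
    (QuadraticAlgebra.norm z).eval₂ ι x = evQ ι a b x y h z * evQ ι a b x (-y) h' z := by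
  rw [QuadraticAlgebra.norm_def, evQ_apply, evQ_apply]
  simp only [eval₂_sub, eval₂_add, eval₂_mul, eval₂_pow, eval₂_X, eval₂_C, eval₂_zero]
  linear_combination (z.im.eval₂ ι x) ^ 2 * h

/-- the element `x` -/
noncomputable def qx (S : Type) [CommRing S] (a b : S) : QA S a b := ⟨X, 0⟩

/-- the element `y` -/
noncomputable def qy (S : Type) [CommRing S] (a b : S) : QA S a b := ⟨0, 1⟩

/-- constants -/
noncomputable def qc (S : Type) [CommRing S] (a b : S) : S →+* QA S a b :=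
  (algebraMap S[X] (QA S a b)).comp C

theorem qc_apply (S : Type) [CommRing S] (a b c : S) : qc S a b c = ⟨C c, 0⟩ := rfl

/-- the form `Φ` evaluated at `(x₁, y₁) + (x, y)` -/
noncomputable def phi {S : Type} [CommRing S] (a b : S) (Φ : MvPolynomial (Fin 3) S) (x₁ y₁ : S) :
    QA S a b :=
  MvPolynomial.eval₂ (qc S a b) (TV (qc S a b x₁) (qc S a b y₁) (qx S a b) (qy S a b)) Φ

theorem evQ_phi {S K : Type} [CommRing S] [CommRing K] (ι : S →+* K) (a b : S) (x y : K)
    (h : y ^ 2 = x ^ 3 + ι a * x + ι b) (Φ : MvPolynomial (Fin 3) S) (x₁ y₁ : S) :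
    evQ ι a b x y h (phi a b Φ x₁ y₁) = MvPolynomial.eval₂ ι (TV (ι x₁) (ι y₁) x y) Φ := by
  unfold phi
  rw [MvPolynomial.hom_eval₂]
  have hx : evQ ι a b x y h (qx S a b) = x := by
    rw [evQ_apply]; simp [qx]
  have hy : evQ ι a b x y h (qy S a b) = y := by
    rw [evQ_apply]; simp [qy]
  have hc : (evQ ι a b x y h).comp (qc S a b) = ι := by
    ext c
    rw [RingHom.comp_apply, evQ_apply, qc_apply]
    simp
  have hc' : ∀ c, evQ ι a b x y h (qc S a b c) = ι c := fun c => by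
    rw [← RingHom.comp_apply, hc]
  rw [hc]
  congr 1
  funext j
  rw [TV_map, hx, hy, hc', hc']

/-- functoriality of the coordinate ring -/
noncomputable def mapQ {S T : Type} [CommRing S] [CommRing T] (φ : S →+* T) (a b : S) (a' b' : T)
    (ha : φ a = a') (hb : φ b = b') : QA S a b →+* QA T a' b' where
  toFun z := ⟨z.re.map φ, z.im.map φ⟩
  map_zero' := by ext1 <;> simp
  map_one' := by ext1 <;> simp [QuadraticAlgebra.re_one, QuadraticAlgebra.im_one]
  map_add' z w := by ext1 <;> simp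
  map_mul' z w := by
    subst ha hb
    ext1 <;> simp [Polynomial.map_mul]

theorem mapQ_re {S T : Type} [CommRing S] [CommRing T] (φ : S →+* T) (a b : S) (a' b' : T)
    (ha : φ a = a') (hb : φ b = b') (z : QA S a b) : (mapQ φ a b a' b' ha hb z).re = z.re.map φ :=
  rfl

theorem mapQ_im {S T : Type} [CommRing S] [CommRing T] (φ : S →+* T) (a b : S) (a' b' : T)
    (ha : φ a = a') (hb : φ b = b') (z : QA S a b) : (mapQ φ a b a' b' ha hb z).im = z.im.map φ :=
  rfl

theorem mapQ_norm {S T : Type} [CommRing S] [CommRing T] (φ : S →+* T) (a b : S) (a' b' : T)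
    (ha : φ a = a') (hb : φ b = b') (z : QA S a b) :
    QuadraticAlgebra.norm (mapQ φ a b a' b' ha hb z) = (QuadraticAlgebra.norm z).map φ := by
  subst ha hb
  rw [QuadraticAlgebra.norm_def, QuadraticAlgebra.norm_def, mapQ_re, mapQ_im]
  simp [Polynomial.map_mul]

theorem mapQ_phi {S T : Type} [CommRing S] [CommRing T] (φ : S →+* T) (a b : S) (a' b' : T)
    (ha : φ a = a') (hb : φ b = b') (Φ : MvPolynomial (Fin 3) S) (x₁ y₁ : S) :
    mapQ φ a b a' b' ha hb (phi a b Φ x₁ y₁) =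
      phi a' b' (MvPolynomial.map φ Φ) (φ x₁) (φ y₁) := by
  unfold phi
  rw [MvPolynomial.hom_eval₂, MvPolynomial.eval₂_map]
  have hx : mapQ φ a b a' b' ha hb (qx S a b) = qx T a' b' := by
    ext1 <;> simp [mapQ_re, mapQ_im, qx]
  have hy : mapQ φ a b a' b' ha hb (qy S a b) = qy T a' b' := by
    ext1 <;> simp [mapQ_re, mapQ_im, qy]
  have hc : ∀ c, mapQ φ a b a' b' ha hb (qc S a b c) = qc T a' b' (φ c) := by
    intro c
    ext1 <;> simp [mapQ_re, mapQ_im, qc_apply]
  have hc' : (mapQ φ a b a' b' ha hb).comp (qc S a b) = (qc T a' b').comp φ := by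
    ext1 c
    rw [RingHom.comp_apply, RingHom.comp_apply, hc]
  rw [hc']
  congr 1
  funext j
  rw [TV_map, hx, hy, hc, hc]

/-- scaling of weighted homogeneous polynomials -/
theorem eval₂_weighted {σ S K : Type} [CommRing S] [CommRing K] (ι : S →+* K) {w : σ → ℕ} {n : ℕ}
    {Φ : MvPolynomial σ S} (h : Φ.IsWeightedHomogeneous w n) (s : K) (v : σ → K) :
    MvPolynomial.eval₂ ι (fun i => s ^ w i * v i) Φ = s ^ n * MvPolynomial.eval₂ ι v Φ := by
  rw [MvPolynomial.eval₂_eq, MvPolynomial.eval₂_eq, Finset.mul_sum]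
  refine Finset.sum_congr rfl fun e he => ?_
  have h1 : ∏ i ∈ e.support, (s ^ w i * v i) ^ e i = s ^ n * ∏ i ∈ e.support, v i ^ e i := by
    simp only [mul_pow, Finset.prod_mul_distrib]
    congr 1
    simp only [← pow_mul]
    rw [Finset.prod_pow_eq_pow_sum]
    congr 1
    have h2 := h (MvPolynomial.mem_support_iff.1 he)
    rw [← h2, Finsupp.weight_apply, Finsupp.sum]
    refine Finset.sum_congr rfl fun i _ => ?_
    rw [smul_eq_mul, mul_comm]
  rw [h1]
  ring

theorem eval₂_homog {σ S K : Type} [CommRing S] [CommRing K] (ι : S →+* K) {n : ℕ}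
    {Φ : MvPolynomial σ S} (h : Φ.IsHomogeneous n) (s : K) (v : σ → K) :
    MvPolynomial.eval₂ ι (s • v) Φ = s ^ n * MvPolynomial.eval₂ ι v Φ := by
  have h1 := eval₂_weighted ι (w := 1) h s v
  rw [← h1]
  congr 1
  funext i
  simp

section points

variable {F : Type} [Field F] [DecidableEq F] {a b : F}

/-- the coordinates of a sum -/
theorem rep_add {x₁ y₁ x y : F} (h₁ : (CV a b).toAffine.Nonsingular x₁ y₁)
    (h : (CV a b).toAffine.Nonsingular x y) (hx : x ≠ x₁) (j : Fin 3) :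
    TV x₁ y₁ x y j = (x - x₁) ^ 3 *
      rep (Affine.Point.some x₁ y₁ h₁ + Affine.Point.some x y h : Pt a b) j := by
  have hx' : x - x₁ ≠ 0 := sub_ne_zero.2 hx
  have hx'' : x₁ - x ≠ 0 := sub_ne_zero.2 hx.symm
  obtain ⟨h₃, h4⟩ := add_ne h₁ h hx.symm ((y₁ - y) / (x₁ - x)) _ _ rfl rfl rfl
  rw [h4]
  fin_cases j
  · simp only [TV, rep, Fin.zero_eta, Matrix.cons_val_zero]
    field_simp
    ring
  · simp only [TV, rep, Fin.mk_one, Matrix.cons_val_one, Matrix.cons_val_zero]
    field_simp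
    ring
  · simp [TV, rep]

/-- the value of a form at a sum -/
theorem eval_TV {d : ℕ} (Φ : MvPolynomial (Fin 3) F) (hΦ : Φ.IsHomogeneous d)
    {x₁ y₁ x y : F} (h₁ : (CV a b).toAffine.Nonsingular x₁ y₁)
    (h : (CV a b).toAffine.Nonsingular x y) (hx : x ≠ x₁) :
    MvPolynomial.eval (TV x₁ y₁ x y) Φ = (x - x₁) ^ (3 * d) *
      MvPolynomial.eval (rep (Affine.Point.some x₁ y₁ h₁ + Affine.Point.some x y h : Pt a b)) Φ := by
  have h1 : TV x₁ y₁ x y = (x - x₁) ^ 3 • rep (Affine.Point.some x₁ y₁ h₁ +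
      Affine.Point.some x y h : Pt a b) := by
    funext j
    rw [Pi.smul_apply, smul_eq_mul, rep_add h₁ h hx]
  rw [h1, pow_mul]
  exact eval₂_homog (RingHom.id F) hΦ _ _

end points

end Pool.Agent.K9h5
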