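import Mathlib
import Pool.Agent.K9h5.Wc2
import Pool.Agent.K9h5.Tr
import Pool.Agent.H901R3.MS.P_R1K
import Pool.Agent.H901R3.MS.P_R2K
import Pool.Agent.H901R3.MS.P_R3K
import Pool.Agent.H901R3.MS.P_R4K
import Pool.Agent.H901R3.MS.P_R5K
import Pool.Agent.H901R3.MS.P_R6K

/-!
# Points of elliptic curves over finite fields
-/

set_option autoImplicit false
set_option linter.all false

namespace Pool.Agent.K9h5

open Polynomial Pool.Agent.H901R3.MS WeierstrassCurve Finset

/-- the cubic polynomial -/
noncomputable def fE {F : Type} [Field F] (a b : F) : F[X] := X ^ 3 + C a * X + C b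

theorem fE_eval {F : Type} [Field F] (a b x : F) : (fE a b).eval x = x ^ 3 + a * x + b := by
  simp [fE]

theorem fE_natDegree {F : Type} [Field F] (a b : F) : (fE a b).natDegree = 3 := by
  unfold fE
  compute_degree!

instance instFinitePt {F : Type} [Field F] [Finite F] (a b : F) : Finite (Pt a b) := by
  let g : Pt a b → Option (F × F) := fun P => match P with
    | Affine.Point.zero => none
    | Affine.Point.some x y _ => some (x, y)
  refine Finite.of_injective g ?_
  intro P Q h
  cases P <;> cases Q <;> simp_all [g]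

noncomputable instance instFintypePt {F : Type} [Field F] [Finite F] (a b : F) : Fintype (Pt a b) :=
  Fintype.ofFinite _

noncomputable instance instDecEqPt {F : Type} [Field F] (a b : F) : DecidableEq (Pt a b) :=
  Classical.decEq _

section

variable {F : Type} [Field F] [Fintype F] [DecidableEq F]

/-- the number of affine points satisfying a condition -/
theorem card_affine {a b : F} (hD : Disc a b) (Q : F × F → Prop) [DecidablePred Q]
    [DecidablePred (fun u : Pt a b => ∃ (x y : F) (h : (CV a b).toAffine.Nonsingular x y),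
      u = Affine.Point.some x y h ∧ Q (x, y))] :
    (univ.filter (fun u : Pt a b => ∃ (x y : F) (h : (CV a b).toAffine.Nonsingular x y),
      u = Affine.Point.some x y h ∧ Q (x, y))).card = ((Sf (fE a b)).filter Q).card := by
  symm
  refine card_bij (fun z hz => Affine.Point.some z.1 z.2 ((nonsingular_iff hD).2 (by
    simp only [Sf, mem_filter, mem_univ, true_and] at hz
    have := hz.1
    rw [fE_eval] at this
    exact this))) ?_ ?_ ?_
  · rintro ⟨x, y⟩ hz
    simp only [Sf, mem_filter, mem_univ, true_and] at hz ⊢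
    exact ⟨x, y, _, rfl, hz.2⟩
  · rintro ⟨x, y⟩ hz ⟨x', y'⟩ hz' h
    simp only [Affine.Point.some.injEq] at h
    exact Prod.ext h.1 h.2
  · intro u hu
    simp only [mem_filter, mem_univ, true_and] at hu
    obtain ⟨x, y, h, rfl, hQ⟩ := hu
    refine ⟨(x, y), ?_, rfl⟩
    simp only [Sf, mem_filter, mem_univ, true_and]
    refine ⟨?_, hQ⟩
    rw [fE_eval]
    exact eqn_of h

theorem card_Pt {a b : F} (hD : Disc a b) : Fintype.card (Pt a b) = (Sf (fE a b)).card + 1 := by
  classical
  have h1 := card_affine hD (fun _ => True)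
  rw [filter_true_of_mem (s := Sf (fE a b)) (fun _ _ => trivial)] at h1
  rw [← h1, ← card_univ, ← card_filter_add_card_filter_not (s := univ)
    (fun u : Pt a b => ∃ (x y : F) (h : (CV a b).toAffine.Nonsingular x y),
      u = Affine.Point.some x y h ∧ True)]
  congr 1
  rw [card_eq_one]
  refine ⟨Affine.Point.zero, ?_⟩
  ext u
  simp only [mem_filter, mem_univ, true_and, mem_singleton]
  constructor
  · intro h
    cases u with
    | zero => rfl
    | some x y h' => exact absurd ⟨x, y, h', rfl, trivial⟩ h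
  · rintro rfl ⟨x, y, h, h', _⟩
    cases h'

end

/-- the number of the points of a curve `y ^ 2 = f (x)` -/
theorem scount : ∃ C : ℝ, 0 ≤ C ∧ ∀ (p : ℕ) [Fact p.Prime], p ≠ 2 →
    ∀ (f : (ZMod p)[X]), f.natDegree = 3 → |((Sf f).card : ℝ) - p| ≤ C * √p := by
  refine ⟨(Pool.Agent.R410.PW.WC 2 3 3 : ℝ), by positivity, ?_⟩
  intro p _ hp2 f hf
  set K := AlgebraicClosure (ZMod p)
  set ι := algebraMap (ZMod p) K
  have hp : p.Prime := Fact.out
  have h2F : (2 : ZMod p) ≠ 0 := by
    intro h
    have h1 : ((2 : ℕ) : ZMod p) = 0 := by exact_mod_cast h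
    rw [ZMod.natCast_eq_zero_iff] at h1
    exact hp2 ((Nat.prime_dvd_prime_iff_eq hp Nat.prime_two).1 h1)
  have hf0 : f ≠ 0 := by
    rintro rfl
    simp at hf
  have hm : (X ^ 2 - C f : (ZMod p)[X][X]).Monic := monic_X_pow_sub_C f (by norm_num)
  have hd : (X ^ 2 - C f : (ZMod p)[X][X]).natDegree = 2 := natDegree_X_pow_sub_C
  have hcert : (C 2 : (ZMod p)[X][X]) * (X ^ 2 - C f) + (-X) * derivative (X ^ 2 - C f) =
      C (-(2 * f)) := by
    rw [derivative_sub, derivative_C, derivative_X_pow, sub_zero]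
    have e1 : (C (2 : (ZMod p)[X]) : (ZMod p)[X][X]) = 2 := map_ofNat C 2
    rw [map_neg, map_mul, e1]
    push_cast
    rw [e1]
    ring
  have hD0 : (-(2 * f) : (ZMod p)[X]) ≠ 0 := by
    rw [neg_ne_zero]
    refine mul_ne_zero ?_ hf0
    rw [← map_ofNat (C : (ZMod p) →+* (ZMod p)[X]), C_ne_zero]
    exact h2F
  have hDd : (-(2 * f) : (ZMod p)[X]).natDegree ≤ 3 := by
    rw [natDegree_neg, ← hf, ← map_ofNat (C : (ZMod p) →+* (ZMod p)[X])]
    exact natDegree_C_mul_le _ _
  have hirr : Irreducible ((X ^ 2 - C f : (ZMod p)[X][X]).map (mapRingHom ι)) := by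
    have e1 : (X ^ 2 - C f : (ZMod p)[X][X]).map (mapRingHom ι) = X ^ 2 - C (f.map ι) := by
      rw [Polynomial.map_sub, Polynomial.map_pow, map_X, map_C, coe_mapRingHom]
    rw [e1, (monic_X_pow_sub_C (f.map ι) (by norm_num)).irreducible_iff_irreducible_map_fraction_map
      (K := RatFunc K), Polynomial.map_sub, Polynomial.map_pow, map_X, map_C]
    apply X_pow_sub_C_irreducible_of_prime Nat.prime_two
    intro r hr
    obtain ⟨r0, _, h1⟩ := exists_poly_of_pow (by norm_num) hr
    have h2 := congrArg natDegree h1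
    rw [natDegree_pow, natDegree_map, hf] at h2
    omega
  have hweil := Pool.Agent.R410.PW.weil (F := ZMod p) K hm (by rw [hd]; norm_num) hcert hD0 hDd
    (d := 3) (by
      intro i
      rw [coeff_sub, coeff_X_pow, coeff_C]
      refine (natDegree_sub_le _ _).trans (max_le ?_ ?_)
      · split_ifs <;> simp
      · split_ifs
        · exact hf.le
        · simp) hirr
  rw [hd, Nat.card_zmod] at hweil
  have hZc : {z : ZMod p × ZMod p | evalEval z.1 z.2 (X ^ 2 - C f : (ZMod p)[X][X]) = 0}.ncard =
      (Sf f).card := by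
    rw [← Set.ncard_coe_finset]
    congr 1
    ext z
    simp [Sf, evalEval, sub_eq_zero]
  rw [hZc] at hweil
  exact hweil

/-- base change of points -/
theorem baseChange {F K : Type} [Field F] [Field K] [DecidableEq F] [DecidableEq K] (ι : F →+* K)
    (a b : F) (hD : Disc (ι a) (ι b)) : ∃ red : Pt a b →+ Pt (ι a) (ι b),
      ∀ (x y : F) (h : (CV a b).toAffine.Nonsingular x y),
        ∃ g : (CV (ι a) (ι b)).toAffine.Nonsingular (ι x) (ι y),
          red (Affine.Point.some x y h) = Affine.Point.some (ι x) (ι y) g := by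
  let v : Place F K :=
    { A := ⊤
      ρ := ι.comp (Subring.subtype ⊤)
      inv_of_notMem := fun x hx => absurd (Subring.mem_top x) hx
      inv_of_ne := fun x _ => Subring.mem_top _ }
  have hr : ∀ x, v.r x = ι x := fun x => by
    rw [v.r_of (Subring.mem_top x)]; rfl
  have key : ∀ (a' b' : K), v.r a = a' → v.r b = b' → Disc a' b' →
    ∃ red : Pt a b →+ Pt a' b',
      ∀ (x y : F) (h : (CV a b).toAffine.Nonsingular x y),
        ∃ g : (CV a' b').toAffine.Nonsingular (ι x) (ι y),
          red (Affine.Point.some x y h) = Affine.Point.some (ι x) (ι y) g := by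
    rintro a' b' rfl rfl hD'
    obtain ⟨red, _, _, h3⟩ := t_R6K t_R1K t_R2K t_R3K t_R4K t_R5K F K v a b (Subring.mem_top a) (Subring.mem_top b) hD'
    refine ⟨red, fun x y h => ?_⟩
    obtain ⟨_, g, hg⟩ := h3 x y h (Subring.mem_top x)
    have hx := hr x
    have hy := hr y
    rw [← hx, ← hy]
    exact ⟨g, hg⟩
  exact key _ _ (hr a) (hr b) hD

end Pool.Agent.K9h5
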