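import Mathlib
import Pool.Agent.K9h5.Pf
import Pool.Agent.K9h5.Chi

/-!
# Correlations on elliptic curves over finite fields, first part
-/

set_option autoImplicit false
set_option linter.all false

namespace Pool.Agent.K9h5

open Polynomial Pool.Agent.H901R3.MS WeierstrassCurve Finset

/-- the value of a form at a point -/
noncomputable def Gv {F : Type} [Field F] {a b : F} (Φ : MvPolynomial (Fin 3) F) (u : Pt a b) : F :=
  MvPolynomial.eval (rep u) Φ

/-- a bound for the degree of an element of the coordinate ring -/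
def degQ {S : Type} [CommRing S] {a b : S} (z : QA S a b) (D : ℕ) : Prop :=
  z.re.natDegree ≤ D ∧ z.im.natDegree ≤ D

theorem degQ_mul {S : Type} [CommRing S] {a b : S} {z w : QA S a b} {D E : ℕ} (hz : degQ z D)
    (hw : degQ w E) : degQ (z * w) (D + E + 3) := by
  have h3 : (X ^ 3 + C a * X + C b : S[X]).natDegree ≤ 3 := by
    compute_degree
  constructor
  · rw [QuadraticAlgebra.re_mul]
    refine (natDegree_add_le _ _).trans (max_le ?_ ?_)
    · refine natDegree_mul_le.trans ?_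
      have := hz.1; have := hw.1; omega
    · refine natDegree_mul_le.trans ?_
      have h4 := natDegree_mul_le (p := (X ^ 3 + C a * X + C b : S[X])) (q := z.im)
      have := hz.2; have := hw.2; omega
  · rw [QuadraticAlgebra.im_mul]
    refine (natDegree_add_le _ _).trans (max_le ?_ ?_)
    · refine (natDegree_add_le _ _).trans (max_le ?_ ?_)
      · refine natDegree_mul_le.trans ?_
        have := hz.1; have := hw.2; omega
      · refine natDegree_mul_le.trans ?_
        have := hz.2; have := hw.1; omega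
    · simp

theorem degQ_pow {S : Type} [CommRing S] {a b : S} {z : QA S a b} {D : ℕ} (hz : degQ z D) (k : ℕ) :
    degQ (z ^ k) (k * (D + 3)) := by
  induction k with
  | zero =>
    rw [pow_zero]
    constructor
    · simp [QuadraticAlgebra.re_one]
    · simp [QuadraticAlgebra.im_one]
  | succ k ih =>
    rw [pow_succ]
    have h := degQ_mul ih hz
    have e : k * (D + 3) + D + 3 = (k + 1) * (D + 3) := by ring
    rw [e] at h
    exact h

theorem normQ {F : Type} [Field F] {a b : F} (z : QA F a b) :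
    QuadraticAlgebra.norm z = z.re ^ 2 - fE a b * z.im ^ 2 := by
  rw [QuadraticAlgebra.norm_def, fE]
  ring

/-- a polynomial all of whose multiplicities are divisible by `l` is an `l`-th power -/
theorem exists_mult {K : Type} [Field K] [IsAlgClosed K] {l : ℕ} (hl : 0 < l) {N : K[X]}
    (h : ∀ g : K[X], g ^ l ≠ N) : N ≠ 0 ∧ ∃ x₀ : K, ¬ l ∣ N.rootMultiplicity x₀ := by
  classical
  have hN : N ≠ 0 := by
    rintro rfl
    exact h 0 (zero_pow hl.ne')
  refine ⟨hN, ?_⟩
  by_contra hcon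
  push Not at hcon
  obtain ⟨c, hc⟩ := IsAlgClosed.exists_pow_nat_eq N.leadingCoeff hl
  apply h (C c * ∏ x ∈ N.roots.toFinset, (X - C x) ^ (N.rootMultiplicity x / l))
  rw [mul_pow, ← C_pow, hc, ← Finset.prod_pow]
  have h1 := (IsAlgClosed.splits N).eq_prod_roots
  conv_rhs => rw [h1]
  congr 1
  rw [Finset.prod_multiset_map_count]
  refine Finset.prod_congr rfl fun x _ => ?_
  rw [← pow_mul, Nat.div_mul_cancel (hcon x), count_roots]

theorem rootMult_pow {K : Type} [Field K] (g : K[X]) (l : ℕ) (x₀ : K) :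
    (g ^ l).rootMultiplicity x₀ = l * g.rootMultiplicity x₀ := by
  classical
  rw [← count_roots, roots_pow, Multiset.count_nsmul, count_roots]

theorem count_k (l : ℕ) (hl : l.Prime) (d : ℕ) (hld : l ∣ d) (D : ℕ) : ∃ C : ℝ, 0 ≤ C ∧
    ∀ (p : ℕ) [Fact p.Prime], p ≠ 2 → l ∣ p - 1 → ∀ (a b : ZMod p), Disc a b →
    ∀ Φ : MvPolynomial (Fin 3) (ZMod p), Φ.IsHomogeneous d →
    ∀ (x₁ y₁ x₂ y₂ : ZMod p) (h₁ : (CV a b).toAffine.Nonsingular x₁ y₁)
      (h₂ : (CV a b).toAffine.Nonsingular x₂ y₂),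
    degQ (phi a b Φ x₁ y₁) D → degQ (phi a b Φ x₂ y₂) D → ∀ k < l,
    (∀ g : (AlgebraicClosure (ZMod p))[X], g ^ l ≠
      (QuadraticAlgebra.norm (phi a b Φ x₁ y₁ * phi a b Φ x₂ y₂ ^ k)).map
        (algebraMap (ZMod p) (AlgebraicClosure (ZMod p)))) →
    |(l : ℝ) * (Nat.card {u : Pt a b // IsL l (Gv Φ (Affine.Point.some x₁ y₁ h₁ + u : Pt a b) *
      Gv Φ (Affine.Point.some x₂ y₂ h₂ + u : Pt a b) ^ k)}) - p| ≤ C * √p := by
  obtain ⟨C, hC, hw⟩ := wcount l hl (D + l * (D + 3) + 3)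
  refine ⟨C + 9 * l, by positivity, ?_⟩
  intro p _ hp2 hlp a b hD Φ hΦ x₁ y₁ x₂ y₂ h₁ h₂ hd₁ hd₂ k hk hpow
  classical
  have hs1 : (1 : ℝ) ≤ √p := by
    rw [Real.one_le_sqrt]
    exact_mod_cast (Fact.out : p.Prime).one_lt.le
  set z : QA (ZMod p) a b := phi a b Φ x₁ y₁ * phi a b Φ x₂ y₂ ^ k with hz
  have hzd : degQ z (D + l * (D + 3) + 3) := by
    have h3 := degQ_mul hd₁ (degQ_pow hd₂ k)
    have h4 : k * (D + 3) ≤ l * (D + 3) := Nat.mul_le_mul_right _ hk.le
    exact ⟨h3.1.trans (by omega), h3.2.trans (by omega)⟩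
  have hcnt := hw p hp2 hlp (fE a b) z.re z.im (fE_natDegree a b) hzd.1 hzd.2 (by
    rw [← normQ]; exact hpow)
  set Q : ZMod p × ZMod p → Prop := fun w => w.1 ≠ x₁ ∧ w.1 ≠ x₂ ∧
    IsL l (z.re.eval w.1 + z.im.eval w.1 * w.2) with hQ
  have hcard := card_affine hD Q
  obtain ⟨e, he⟩ := hld
  have key : ∀ (x y : ZMod p) (h : (CV a b).toAffine.Nonsingular x y), x ≠ x₁ → x ≠ x₂ →
      (IsL l (z.re.eval x + z.im.eval x * y) ↔
        IsL l (Gv Φ (Affine.Point.some x₁ y₁ h₁ + Affine.Point.some x y h : Pt a b) *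
          Gv Φ (Affine.Point.some x₂ y₂ h₂ + Affine.Point.some x y h : Pt a b) ^ k)) := by
    intro x y h hx1 hx2
    have hE : y ^ 2 = x ^ 3 + (RingHom.id _) a * x + (RingHom.id _) b := eqn_of h
    have h5 : z.re.eval x + z.im.eval x * y = evQ (RingHom.id _) a b x y hE z := by
      rw [evQ_apply, eval₂_id, eval₂_id]
    rw [h5, hz, map_mul, map_pow, evQ_phi, evQ_phi]
    have h6 : ∀ (x' y' : ZMod p) (h' : (CV a b).toAffine.Nonsingular x' y'), x ≠ x' →
        MvPolynomial.eval₂ (RingHom.id (ZMod p)) (TV ((RingHom.id _) x') ((RingHom.id _) y') x y) Φ =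
        ((x - x') ^ (3 * e)) ^ l *
          Gv Φ (Affine.Point.some x' y' h' + Affine.Point.some x y h : Pt a b) := by
      intro x' y' h' hx'
      have h7 := eval_TV Φ hΦ h' h hx'
      rw [he] at h7
      rw [← pow_mul]
      have e7 : 3 * (l * e) = 3 * e * l := by ring
      rw [e7] at h7
      exact h7
    rw [h6 x₁ y₁ h₁ hx1, h6 x₂ y₂ h₂ hx2]
    have h8 : ((x - x₁) ^ (3 * e)) ^ l *
          Gv Φ (Affine.Point.some x₁ y₁ h₁ + Affine.Point.some x y h : Pt a b) *
        (((x - x₂) ^ (3 * e)) ^ l *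
          Gv Φ (Affine.Point.some x₂ y₂ h₂ + Affine.Point.some x y h : Pt a b)) ^ k =
        ((x - x₁) ^ (3 * e) * ((x - x₂) ^ (3 * e)) ^ k) ^ l *
        (Gv Φ (Affine.Point.some x₁ y₁ h₁ + Affine.Point.some x y h : Pt a b) *
          Gv Φ (Affine.Point.some x₂ y₂ h₂ + Affine.Point.some x y h : Pt a b) ^ k) := by
      ring
    rw [h8]
    exact isL_mul_pow (mul_ne_zero (pow_ne_zero _ (sub_ne_zero.2 hx1))
      (pow_ne_zero _ (pow_ne_zero _ (sub_ne_zero.2 hx2))))
  set A : Finset (Pt a b) := univ.filter (fun u =>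
    IsL l (Gv Φ (Affine.Point.some x₁ y₁ h₁ + u : Pt a b) *
      Gv Φ (Affine.Point.some x₂ y₂ h₂ + u : Pt a b) ^ k)) with hA
  have hAc : Nat.card {u : Pt a b // IsL l (Gv Φ (Affine.Point.some x₁ y₁ h₁ + u : Pt a b) *
      Gv Φ (Affine.Point.some x₂ y₂ h₂ + u : Pt a b) ^ k)} = A.card := by
    rw [Nat.card_eq_fintype_card, Fintype.card_subtype]
  set A' : Finset (Pt a b) := univ.filter (fun u : Pt a b =>
    ∃ (x y : ZMod p) (h : (CV a b).toAffine.Nonsingular x y),
      u = Affine.Point.some x y h ∧ Q (x, y)) with hA'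
  set Ex : Finset (ZMod p × ZMod p) := (Sf (fE a b)).filter (fun w => w.1 ∈ ({x₁, x₂} : Finset (ZMod p)))
    with hEx
  have hExc : Ex.card ≤ 4 := by
    refine (fib_card (Sf (fE a b)) ({x₁, x₂} : Finset (ZMod p)) 2 ?_).trans ?_
    · intro x
      refine le_trans (card_le_card ?_) (sq_card_le ((fE a b).eval x))
      intro y hy
      simpa [Sf] using hy
    · have := card_le_two (a := x₁) (b := x₂)
      omega
  have hEx2 := card_affine hD (fun w : ZMod p × ZMod p => w.1 ∈ ({x₁, x₂} : Finset (ZMod p)))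
  set ExP : Finset (Pt a b) := univ.filter (fun u : Pt a b =>
    ∃ (x y : ZMod p) (h : (CV a b).toAffine.Nonsingular x y),
      u = Affine.Point.some x y h ∧ (x, y).1 ∈ ({x₁, x₂} : Finset (ZMod p))) with hExP
  have hA'A : A' ⊆ A := by
    intro u hu
    rw [hA', mem_filter] at hu
    obtain ⟨_, x, y, h, rfl, hq⟩ := hu
    rw [hA, mem_filter]
    exact ⟨mem_univ _, (key x y h hq.1 hq.2.1).1 hq.2.2⟩
  have hAA' : A ⊆ A' ∪ (ExP ∪ {Affine.Point.zero}) := by
    intro u hu
    rw [hA, mem_filter] at hu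
    rw [mem_union, mem_union, mem_singleton]
    cases u with
    | zero => right; right; rfl
    | some x y h =>
      by_cases hx1 : x = x₁
      · right; left
        rw [hExP, mem_filter]
        exact ⟨mem_univ _, x, y, h, rfl, by simp [hx1]⟩
      by_cases hx2 : x = x₂
      · right; left
        rw [hExP, mem_filter]
        exact ⟨mem_univ _, x, y, h, rfl, by simp [hx2]⟩
      left
      rw [hA', mem_filter]
      exact ⟨mem_univ _, x, y, h, rfl, hx1, hx2, (key x y h hx1 hx2).2 hu.2⟩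
  have hTT : (Sf (fE a b)).filter Q ⊆ Tf l (fE a b) z.re z.im := by
    intro w hw
    rw [mem_filter] at hw
    rw [Tf, mem_filter]
    rw [Sf, mem_filter] at hw
    exact ⟨mem_univ _, hw.1.2, hw.2.2.2⟩
  have hTT' : Tf l (fE a b) z.re z.im ⊆ (Sf (fE a b)).filter Q ∪ Ex := by
    intro w hw
    rw [Tf, mem_filter] at hw
    rw [mem_union]
    have hwS : w ∈ Sf (fE a b) := by
      rw [Sf, mem_filter]
      exact ⟨mem_univ _, hw.2.1⟩
    by_cases hx : w.1 ∈ ({x₁, x₂} : Finset (ZMod p))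
    · right
      rw [hEx, mem_filter]
      exact ⟨hwS, hx⟩
    · left
      rw [mem_filter]
      simp only [mem_insert, mem_singleton, not_or] at hx
      exact ⟨hwS, hx.1, hx.2, hw.2.2⟩
  have c1 : A'.card ≤ A.card := card_le_card hA'A
  have c2 : A.card ≤ A'.card + 5 := by
    refine (card_le_card hAA').trans ((card_union_le _ _).trans ?_)
    have c3 := card_union_le ExP {(Affine.Point.zero : Pt a b)}
    rw [card_singleton] at c3
    have c4 : ExP.card = Ex.card := hEx2
    omega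
  have c5 : ((Sf (fE a b)).filter Q).card ≤ (Tf l (fE a b) z.re z.im).card := card_le_card hTT
  have c6 : (Tf l (fE a b) z.re z.im).card ≤ ((Sf (fE a b)).filter Q).card + 4 := by
    refine (card_le_card hTT').trans ((card_union_le _ _).trans ?_)
    omega
  have c7 : A'.card = ((Sf (fE a b)).filter Q).card := hcard
  rw [hAc]
  have c8 : |((A.card : ℝ) - (Tf l (fE a b) z.re z.im).card)| ≤ 9 := by
    have d1 : (A.card : ℝ) ≤ (Tf l (fE a b) z.re z.im).card + 9 := by
      exact_mod_cast (by omega : A.card ≤ (Tf l (fE a b) z.re z.im).card + 9)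
    have d2 : ((Tf l (fE a b) z.re z.im).card : ℝ) ≤ A.card + 9 := by
      exact_mod_cast (by omega : (Tf l (fE a b) z.re z.im).card ≤ A.card + 9)
    rw [abs_le]
    constructor <;> linarith
  have e1 : (l : ℝ) * (A.card : ℝ) - p = ((l : ℝ) * (Tf l (fE a b) z.re z.im).card - p) +
      l * ((A.card : ℝ) - (Tf l (fE a b) z.re z.im).card) := by ring
  rw [e1]
  refine (abs_add_le _ _).trans ?_
  rw [add_mul]
  refine add_le_add hcnt ?_
  rw [abs_mul, abs_of_nonneg (Nat.cast_nonneg l : (0 : ℝ) ≤ l)]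
  have h4 : (l : ℝ) * |((A.card : ℝ) - (Tf l (fE a b) z.re z.im).card)| ≤ 9 * l := by
    rw [mul_comm 9]
    exact mul_le_mul_of_nonneg_left c8 (Nat.cast_nonneg l)
  exact h4.trans (le_mul_of_one_le_right (by positivity) hs1)

end Pool.Agent.K9h5
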