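import Mathlib
import Pool.Agent.K9h5.Corr1

/-!
# Correlations on elliptic curves over finite fields, second part: the exceptional translations
-/

set_option autoImplicit false
set_option linter.all false

namespace Pool.Agent.K9h5

open Polynomial Pool.Agent.H901R3.MS WeierstrassCurve Finset

open Classical in
/-- the points with `x`-coordinate a root of `N`, and the point at infinity -/
noncomputable def VF {K : Type} [Field K] (a b : K) (N : K[X]) : Finset (Pt a b) :=
  insert Affine.Point.zero (N.roots.toFinset.biUnion (fun x =>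
    ((X ^ 2 - C (x ^ 3 + a * x + b) : K[X]).roots.toFinset).biUnion (fun y =>
      if h : (CV a b).toAffine.Nonsingular x y then {Affine.Point.some x y h} else ∅)))

theorem VF_card {K : Type} [Field K] (a b : K) (N : K[X]) : (VF a b N).card ≤ 1 + 2 * N.natDegree := by
  classical
  unfold VF
  refine (card_insert_le _ _).trans ?_
  rw [add_comm]
  apply Nat.add_le_add_left
  refine card_biUnion_le.trans ?_
  refine (sum_le_card_nsmul _ _ 2 ?_).trans ?_
  · intro x _
    refine card_biUnion_le.trans ?_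
    refine (sum_le_card_nsmul _ _ 1 ?_).trans ?_
    · intro y _
      split_ifs <;> simp
    · rw [smul_eq_mul, mul_one]
      refine (Multiset.toFinset_card_le _).trans ((card_roots' _).trans ?_)
      rw [natDegree_X_pow_sub_C]
  · rw [smul_eq_mul, mul_comm]
    exact Nat.mul_le_mul_left _ ((Multiset.toFinset_card_le _).trans (card_roots' _))

theorem mem_VF {K : Type} [Field K] {a b : K} {N : K[X]} (hN : N ≠ 0) {x y : K}
    (h : (CV a b).toAffine.Nonsingular x y) (hx : N.eval x = 0) :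
    (Affine.Point.some x y h : Pt a b) ∈ VF a b N := by
  classical
  unfold VF
  rw [mem_insert, mem_biUnion]
  right
  refine ⟨x, ?_, ?_⟩
  · rw [Multiset.mem_toFinset, mem_roots hN]; exact hx
  · rw [mem_biUnion]
    refine ⟨y, ?_, ?_⟩
    · rw [Multiset.mem_toFinset, mem_roots (X_pow_sub_C_ne_zero (by norm_num) _)]
      have := eqn_of h
      unfold Eqn at this
      simp [this]
    · rw [dif_pos h]
      simp

theorem zero_mem_VF {K : Type} [Field K] {a b : K} {N : K[X]} :
    (Affine.Point.zero : Pt a b) ∈ VF a b N := by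
  classical
  unfold VF
  exact mem_insert_self _ _

section

variable {F K : Type} [Field F] [Field K] [DecidableEq F] [DecidableEq K]

theorem disc_map (ι : F →+* K) {a b : F} (hD : Disc a b) : Disc (ι a) (ι b) := by
  unfold Disc at hD ⊢
  have h1 : (2 : K) * (4 * ι a ^ 3 + 27 * ι b ^ 2) = ι (2 * (4 * a ^ 3 + 27 * b ^ 2)) := by
    simp only [map_mul, map_add, map_pow, map_ofNat]
  rw [h1]
  rw [_root_.map_ne_zero]
  exact hD

/-- the form does not vanish at most points -/
theorem nonvanish (ι : F →+* K) {a b : F} (hD : Disc a b) {d : ℕ} (Φ : MvPolynomial (Fin 3) F)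
    (hΦ : Φ.IsHomogeneous d) {x₁ y₁ : F} (h₁ : (CV a b).toAffine.Nonsingular x₁ y₁)
    (g₁ : (CV (ι a) (ι b)).toAffine.Nonsingular (ι x₁) (ι y₁))
    (hN : (QuadraticAlgebra.norm (phi a b Φ x₁ y₁)).map ι ≠ 0)
    (v : Pt (ι a) (ι b))
    (hv : v ∉ VF (ι a) (ι b) ((X - C (ι x₁)) * (QuadraticAlgebra.norm (phi a b Φ x₁ y₁)).map ι)) :
    MvPolynomial.eval (rep (Affine.Point.some (ι x₁) (ι y₁) g₁ + v : Pt (ι a) (ι b)))
      (MvPolynomial.map ι Φ) ≠ 0 := by
  intro h0
  have hNN : (X - C (ι x₁)) * (QuadraticAlgebra.norm (phi a b Φ x₁ y₁)).map ι ≠ 0 :=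
    mul_ne_zero (X_sub_C_ne_zero _) hN
  cases v with
  | zero => exact hv zero_mem_VF
  | some x y h =>
    apply hv
    apply mem_VF hNN
    rw [eval_mul, eval_sub, eval_X, eval_C]
    by_cases hx : x = ι x₁
    · rw [hx, sub_self, zero_mul]
    · have hE : y ^ 2 = x ^ 3 + ι a * x + ι b := eqn_of h
      have hE' : (-y) ^ 2 = x ^ 3 + ι a * x + ι b := by rw [neg_sq]; exact hE
      have h2 : ((QuadraticAlgebra.norm (phi a b Φ x₁ y₁)).map ι).eval x = 0 := by
        rw [eval_map, evQ_norm ι a b x y hE hE', evQ_phi]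
        have h3 := eval_TV (MvPolynomial.map ι Φ) (hΦ.map ι) g₁ h hx
        rw [MvPolynomial.eval_map] at h3
        rw [h3, h0]
        ring
      rw [h2, mul_zero]

theorem rep_red (ι : F →+* K) {a b : F} (red : Pt a b →+ Pt (ι a) (ι b))
    (hred : ∀ (x y : F) (h : (CV a b).toAffine.Nonsingular x y),
        ∃ g : (CV (ι a) (ι b)).toAffine.Nonsingular (ι x) (ι y),
          red (Affine.Point.some x y h) = Affine.Point.some (ι x) (ι y) g) (u : Pt a b) (j : Fin 3) :
    rep (red u) j = ι (rep u j) := by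
  cases u with
  | zero =>
    have h0 : red (Affine.Point.zero : Pt a b) = Affine.Point.zero := map_zero red
    rw [h0]
    fin_cases j <;> simp [rep]
  | some x y h =>
    obtain ⟨g, hg⟩ := hred x y h
    rw [hg]
    fin_cases j <;> simp [rep]

theorem red_inj (ι : F →+* K) {a b : F} (red : Pt a b →+ Pt (ι a) (ι b))
    (hred : ∀ (x y : F) (h : (CV a b).toAffine.Nonsingular x y),
        ∃ g : (CV (ι a) (ι b)).toAffine.Nonsingular (ι x) (ι y),
          red (Affine.Point.some x y h) = Affine.Point.some (ι x) (ι y) g) :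
    Function.Injective red := by
  rw [injective_iff_map_eq_zero]
  intro u hu
  cases u with
  | zero => rfl
  | some x y h =>
    obtain ⟨g, hg⟩ := hred x y h
    rw [hg] at hu
    cases hu

/-- the norm at a point `x₀` does not vanish for most translations -/
theorem norm_ne (ι : F →+* K) [IsAlgClosed K] [Fintype F] {a b : F} (hD : Disc a b) {d : ℕ}
    (Φ : MvPolynomial (Fin 3) F)
    (hΦ : Φ.IsHomogeneous d) {x₁ y₁ : F} (h₁ : (CV a b).toAffine.Nonsingular x₁ y₁)
    (hN : (QuadraticAlgebra.norm (phi a b Φ x₁ y₁)).map ι ≠ 0) (x₀ : K) :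
    ∃ Bd : Finset (Pt a b),
      Bd.card ≤ 2 * (1 + 2 * (1 + (QuadraticAlgebra.norm (phi a b Φ x₁ y₁)).natDegree)) + 3 ∧
      ∀ h ∉ Bd, ∃ (x₂ y₂ : F) (h₂ : (CV a b).toAffine.Nonsingular x₂ y₂),
        (Affine.Point.some x₁ y₁ h₁ + h : Pt a b) = Affine.Point.some x₂ y₂ h₂ ∧
        ((QuadraticAlgebra.norm (phi a b Φ x₂ y₂)).map ι).eval x₀ ≠ 0 := by
  classical
  obtain ⟨red, hred⟩ := baseChange ι a b (disc_map ι hD)
  obtain ⟨g₁, hg₁⟩ := hred x₁ y₁ h₁
  obtain ⟨y₀, hy₀⟩ := IsAlgClosed.exists_pow_nat_eq (x₀ ^ 3 + ι a * x₀ + ι b) (n := 2) (by norm_num)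
  have hy₀' : (-y₀) ^ 2 = x₀ ^ 3 + ι a * x₀ + ι b := by rw [neg_sq]; exact hy₀
  have hR : (CV (ι a) (ι b)).toAffine.Nonsingular x₀ y₀ := (nonsingular_iff (disc_map ι hD)).2 hy₀
  have hR' : (CV (ι a) (ι b)).toAffine.Nonsingular x₀ (-y₀) :=
    (nonsingular_iff (disc_map ι hD)).2 hy₀'
  set N := (X - C (ι x₁)) * (QuadraticAlgebra.norm (phi a b Φ x₁ y₁)).map ι with hNdef
  have hNd : N.natDegree ≤ 1 + (QuadraticAlgebra.norm (phi a b Φ x₁ y₁)).natDegree := by
    rw [hNdef]
    refine natDegree_mul_le.trans ?_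
    rw [natDegree_X_sub_C]
    exact Nat.add_le_add_left natDegree_map_le _
  set V := VF (ι a) (ι b) N with hV
  set B1 : Finset (Pt a b) := univ.filter (fun h => red h + Affine.Point.some x₀ y₀ hR ∈ V) with hB1
  set B2 : Finset (Pt a b) := univ.filter (fun h => red h + Affine.Point.some x₀ (-y₀) hR' ∈ V)
    with hB2
  set B3 : Finset (Pt a b) := univ.filter (fun h => ∃ (x y : F)
    (h' : (CV a b).toAffine.Nonsingular x y), (Affine.Point.some x₁ y₁ h₁ + h : Pt a b) =
      Affine.Point.some x y h' ∧ ι x = x₀) with hB3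
  have cB1 : B1.card ≤ V.card := by
    refine card_le_card_of_injOn (fun h => red h + Affine.Point.some x₀ y₀ hR) ?_ ?_
    · intro h hh
      rw [hB1, mem_coe, mem_filter] at hh
      exact hh.2
    · intro h _ h' _ hh
      exact red_inj ι red hred (add_right_cancel hh)
  have cB2 : B2.card ≤ V.card := by
    refine card_le_card_of_injOn (fun h => red h + Affine.Point.some x₀ (-y₀) hR') ?_ ?_
    · intro h hh
      rw [hB2, mem_coe, mem_filter] at hh
      exact hh.2
    · intro h _ h' _ hh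
      exact red_inj ι red hred (add_right_cancel hh)
  have cB3 : B3.card ≤ 2 := by
    have h3 := card_affine hD (fun w : F × F => w.1 ∈ univ.filter (fun x => ι x = x₀))
    refine le_trans ?_ (le_trans h3.le ?_)
    · refine card_le_card_of_injOn (fun h => Affine.Point.some x₁ y₁ h₁ + h) ?_ ?_
      · intro h hh
        rw [hB3, mem_coe, mem_filter] at hh
        obtain ⟨_, x, y, h', he, hx⟩ := hh
        rw [mem_coe, mem_filter]
        refine ⟨mem_univ _, x, y, h', he, ?_⟩
        rw [mem_filter]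
        exact ⟨mem_univ _, hx⟩
      · intro h _ h' _ hh
        exact add_left_cancel hh
    · refine (fib_card (Sf (fE a b)) (univ.filter (fun x => ι x = x₀)) 2 ?_).trans ?_
      · intro x
        refine le_trans (card_le_card ?_) (sq_card_le ((fE a b).eval x))
        intro y hy
        simpa [Sf] using hy
      · have : (univ.filter (fun x => ι x = x₀)).card ≤ 1 := by
          rw [card_le_one]
          intro x hx x' hx'
          rw [mem_filter] at hx hx'
          exact ι.injective (hx.2.trans hx'.2.symm)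
        omega
  refine ⟨B1 ∪ (B2 ∪ (B3 ∪ {-Affine.Point.some x₁ y₁ h₁})), ?_, ?_⟩
  · have hVc : V.card ≤ 1 + 2 * (1 + (QuadraticAlgebra.norm (phi a b Φ x₁ y₁)).natDegree) :=
      (VF_card _ _ _).trans (by omega)
    have c1 := card_union_le B1 (B2 ∪ (B3 ∪ {-Affine.Point.some x₁ y₁ h₁}))
    have c2 := card_union_le B2 (B3 ∪ {-Affine.Point.some x₁ y₁ h₁})
    have c3 := card_union_le B3 {-Affine.Point.some x₁ y₁ h₁}
    rw [card_singleton] at c3
    omega
  · intro h hh
    simp only [mem_union, mem_singleton, not_or] at hh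
    obtain ⟨n1, n2, n3, n4⟩ := hh
    have hne : (Affine.Point.some x₁ y₁ h₁ + h : Pt a b) ≠ Affine.Point.zero := by
      intro h0
      exact n4 (eq_neg_of_add_eq_zero_right h0)
    obtain ⟨x₂, y₂, h₂, he⟩ : ∃ (x₂ y₂ : F) (h₂ : (CV a b).toAffine.Nonsingular x₂ y₂),
        (Affine.Point.some x₁ y₁ h₁ + h : Pt a b) = Affine.Point.some x₂ y₂ h₂ := by
      cases hc : (Affine.Point.some x₁ y₁ h₁ + h : Pt a b) with
      | zero => exact absurd hc hne
      | some x y h' => exact ⟨x, y, h', rfl⟩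
    refine ⟨x₂, y₂, h₂, he, ?_⟩
    have hx02 : x₀ ≠ ι x₂ := by
      rintro rfl
      apply n3
      rw [hB3, mem_filter]
      exact ⟨mem_univ _, x₂, y₂, h₂, he, rfl⟩
    obtain ⟨g₂, hg₂⟩ := hred x₂ y₂ h₂
    have hsum : (Affine.Point.some (ι x₂) (ι y₂) g₂ : Pt (ι a) (ι b)) =
        Affine.Point.some (ι x₁) (ι y₁) g₁ + red h := by
      rw [← hg₂, ← he, map_add, hg₁]
    have key : ∀ (y : K) (hR : (CV (ι a) (ι b)).toAffine.Nonsingular x₀ y),
        (red h + Affine.Point.some x₀ y hR ∉ V) → MvPolynomial.eval₂ ι (TV (ι x₂) (ι y₂) x₀ y) Φ ≠ 0 := by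
      intro y hR hnv
      have h3 := eval_TV (MvPolynomial.map ι Φ) (hΦ.map ι) g₂ hR hx02
      rw [MvPolynomial.eval_map] at h3
      rw [h3, hsum, add_assoc]
      refine mul_ne_zero (pow_ne_zero _ (sub_ne_zero.2 hx02)) ?_
      exact nonvanish ι hD Φ hΦ h₁ g₁ hN _ hnv
    rw [eval_map, evQ_norm ι a b x₀ y₀ hy₀ hy₀', evQ_phi, evQ_phi]
    refine mul_ne_zero (key y₀ hR ?_) (key (-y₀) hR' ?_)
    · intro hc
      apply n1
      rw [hB1, mem_filter]
      exact ⟨mem_univ _, hc⟩
    · intro hc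
      apply n2
      rw [hB2, mem_filter]
      exact ⟨mem_univ _, hc⟩

/-- the number of zeros of the form -/
theorem zeros_card (ι : F →+* K) [Fintype F] {a b : F} (hD : Disc a b) {d : ℕ}
    (Φ : MvPolynomial (Fin 3) F)
    (hΦ : Φ.IsHomogeneous d) {x₁ y₁ : F} (h₁ : (CV a b).toAffine.Nonsingular x₁ y₁)
    (hN : (QuadraticAlgebra.norm (phi a b Φ x₁ y₁)).map ι ≠ 0)
    [DecidablePred (fun u : Pt a b => Gv Φ u = 0)] :
    (univ.filter (fun u : Pt a b => Gv Φ u = 0)).card ≤
      1 + 2 * (1 + (QuadraticAlgebra.norm (phi a b Φ x₁ y₁)).natDegree) := by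
  classical
  obtain ⟨red, hred⟩ := baseChange ι a b (disc_map ι hD)
  obtain ⟨g₁, hg₁⟩ := hred x₁ y₁ h₁
  set N := (X - C (ι x₁)) * (QuadraticAlgebra.norm (phi a b Φ x₁ y₁)).map ι with hNdef
  have hNd : N.natDegree ≤ 1 + (QuadraticAlgebra.norm (phi a b Φ x₁ y₁)).natDegree := by
    rw [hNdef]
    refine natDegree_mul_le.trans ?_
    rw [natDegree_X_sub_C]
    exact Nat.add_le_add_left natDegree_map_le _
  refine le_trans ?_ ((VF_card (ι a) (ι b) N).trans (by omega))
  refine card_le_card_of_injOn (fun u => red (u - Affine.Point.some x₁ y₁ h₁)) ?_ ?_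
  · intro u hu
    rw [mem_coe, mem_filter] at hu
    by_contra hc
    have h2 := nonvanish ι hD Φ hΦ h₁ g₁ hN _ hc
    apply h2
    have h3 : (Affine.Point.some (ι x₁) (ι y₁) g₁ + red (u - Affine.Point.some x₁ y₁ h₁) :
        Pt (ι a) (ι b)) = red u := by
      rw [← hg₁, ← map_add]
      congr 1
      abel
    rw [h3]
    have h4 : rep (red u) = ι ∘ rep u := by
      funext j
      exact rep_red ι red hred u j
    rw [h4, MvPolynomial.eval_map]
    have h5 : MvPolynomial.eval₂ ι (ι ∘ rep u) Φ = ι (Gv Φ u) := by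
      rw [Gv, ← MvPolynomial.eval₂_id, MvPolynomial.hom_eval₂, RingHom.comp_id]
      rfl
    rw [h5, hu.2, map_zero]
  · intro u _ u' _ huu
    exact sub_left_injective (red_inj ι red hred huu)

end

end Pool.Agent.K9h5
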