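import Mathlib
import Pool.Agent.K9h5.Corr1

/-!
# The weights
-/

set_option autoImplicit false
set_option linter.all false

namespace Pool.Agent.K9h5

open Polynomial Pool.Agent.H901R3.MS WeierstrassCurve Finset

open Classical in
/-- the weight: `1 - 1 / l` at the points where the form is an `l`-th power, `-1 / l` elsewhere -/
noncomputable def gw {F : Type} [Field F] {a b : F} (l : ℕ) (Φ : MvPolynomial (Fin 3) F)
    (u : Pt a b) : ℝ :=
  (if ∃ t : F, t ^ l = Gv Φ u then 1 else 0) - 1 / l

theorem gw_abs_le {F : Type} [Field F] {a b : F} {l : ℕ} (hl : 1 ≤ l) (Φ : MvPolynomial (Fin 3) F)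
    (u : Pt a b) : |gw l Φ u| ≤ 1 := by
  unfold gw
  have h1 : (0 : ℝ) < l := by exact_mod_cast hl
  have h2 : (1 : ℝ) / l ≤ 1 := by
    rw [div_le_one h1]
    exact_mod_cast hl
  have h3 : (0 : ℝ) < 1 / l := by positivity
  rw [abs_le]
  split_ifs <;> constructor <;> linarith

end Pool.Agent.K9h5
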