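import Mathlib
import Pool.Agent.K9h5.Corr2
import Pool.Agent.K9h5.Chi4
import Pool.Agent.K9h5.Gw

/-!
# Four-fold correlations on elliptic curves over finite fields
-/

set_option autoImplicit false
set_option linter.all false

namespace Pool.Agent.K9h5

open Polynomial Pool.Agent.H901R3.MS WeierstrassCurve Finset

theorem degQ_prod {S : Type} [CommRing S] {a b : S} {ι : Type} (s : Finset ι) (z : ι → QA S a b)
    {D : ℕ} (hz : ∀ i ∈ s, degQ (z i) D) : degQ (∏ i ∈ s, z i) (s.card * (D + 3)) := by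
  classical
  induction s using Finset.induction_on with
  | empty =>
    rw [prod_empty]
    constructor
    · simp [QuadraticAlgebra.re_one]
    · simp [QuadraticAlgebra.im_one]
  | insert i s his ih =>
    rw [prod_insert his, card_insert_of_notMem his]
    have h1 := ih fun i' hi' => hz i' (mem_insert_of_mem hi')
    have h2 := degQ_mul (hz i (mem_insert_self i s)) h1
    exact ⟨h2.1.trans (by ring_nf; omega), h2.2.trans (by ring_nf; omega)⟩

/-- the number of translations for which a product is an `l`-th power -/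
theorem count_four (l : ℕ) (hl : l.Prime) (d : ℕ) (hld : l ∣ d) (D : ℕ) : ∃ C : ℝ, 0 ≤ C ∧
    ∀ (p : ℕ) [Fact p.Prime], p ≠ 2 → l ∣ p - 1 → ∀ (a b : ZMod p), Disc a b →
    ∀ Φ : MvPolynomial (Fin 3) (ZMod p), Φ.IsHomogeneous d →
    ∀ (x y : Fin 4 → ZMod p) (hn : ∀ i, (CV a b).toAffine.Nonsingular (x i) (y i)),
    (∀ i, degQ (phi a b Φ (x i) (y i)) D) → ∀ k : Fin 4 → ℕ, (∀ i, k i ≤ l) →
    (∀ g : (AlgebraicClosure (ZMod p))[X], g ^ l ≠
      (QuadraticAlgebra.norm (∏ i, phi a b Φ (x i) (y i) ^ k i)).map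
        (algebraMap (ZMod p) (AlgebraicClosure (ZMod p)))) →
    |(l : ℝ) * (Nat.card {u : Pt a b // IsL l (∏ i,
      Gv Φ (Affine.Point.some (x i) (y i) (hn i) + u : Pt a b) ^ k i)}) - p| ≤ C * √p := by
  obtain ⟨C, hC, hw⟩ := wcount l hl (4 * (l * (D + 3) + 3))
  refine ⟨C + 17 * l, by positivity, ?_⟩
  intro p _ hp2 hlp a b hD Φ hΦ x y hn hdeg k hk hpow
  classical
  have hs1 : (1 : ℝ) ≤ √p := by
    rw [Real.one_le_sqrt]
    exact_mod_cast (Fact.out : p.Prime).one_lt.le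
  set z : QA (ZMod p) a b := ∏ i, phi a b Φ (x i) (y i) ^ k i with hz
  have hzd : degQ z (4 * (l * (D + 3) + 3)) := by
    have h3 := degQ_prod (univ : Finset (Fin 4)) (fun i => phi a b Φ (x i) (y i) ^ k i)
      (D := l * (D + 3)) (by
        intro i _
        have h4 := degQ_pow (hdeg i) (k i)
        have h5 : k i * (D + 3) ≤ l * (D + 3) := Nat.mul_le_mul_right _ (hk i)
        exact ⟨h4.1.trans h5, h4.2.trans h5⟩)
    rw [card_univ, Fintype.card_fin] at h3
    exact h3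
  have hcnt := hw p hp2 hlp (fE a b) z.re z.im (fE_natDegree a b) hzd.1 hzd.2 (by
    rw [← normQ]; exact hpow)
  set XX : Finset (ZMod p) := univ.image x with hXX
  have hXc : XX.card ≤ 4 := by
    refine card_image_le.trans ?_
    rw [card_univ, Fintype.card_fin]
  have hXm : ∀ i, x i ∈ XX := fun i => mem_image_of_mem x (mem_univ i)
  set Q : ZMod p × ZMod p → Prop := fun w => w.1 ∉ XX ∧
    IsL l (z.re.eval w.1 + z.im.eval w.1 * w.2) with hQ
  have hcard := card_affine hD Q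
  obtain ⟨e, he⟩ := hld
  set GG : Pt a b → ZMod p := fun u =>
    ∏ i, Gv Φ (Affine.Point.some (x i) (y i) (hn i) + u : Pt a b) ^ k i with hGG
  have key : ∀ (x' y' : ZMod p) (h : (CV a b).toAffine.Nonsingular x' y'), x' ∉ XX →
      (IsL l (z.re.eval x' + z.im.eval x' * y') ↔ IsL l (GG (Affine.Point.some x' y' h))) := by
    intro x' y' h hx'
    have hE : y' ^ 2 = x' ^ 3 + (RingHom.id _) a * x' + (RingHom.id _) b := eqn_of h
    have h5 : z.re.eval x' + z.im.eval x' * y' = evQ (RingHom.id _) a b x' y' hE z := by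
      rw [evQ_apply, eval₂_id, eval₂_id]
    have hxi : ∀ i, x' ≠ x i := by
      intro i hi
      exact hx' (hi ▸ hXm i)
    rw [h5, hz, map_prod]
    have h6 : ∀ i, evQ (RingHom.id _) a b x' y' hE (phi a b Φ (x i) (y i) ^ k i) =
        (((x' - x i) ^ (3 * e)) ^ k i) ^ l *
          Gv Φ (Affine.Point.some (x i) (y i) (hn i) + Affine.Point.some x' y' h : Pt a b) ^ k i := by
      intro i
      rw [map_pow, evQ_phi]
      have h7 := eval_TV Φ hΦ (hn i) h (hxi i)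
      have h8 : MvPolynomial.eval₂ (RingHom.id (ZMod p))
          (TV ((RingHom.id _) (x i)) ((RingHom.id _) (y i)) x' y') Φ =
          ((x' - x i) ^ (3 * e)) ^ l *
          Gv Φ (Affine.Point.some (x i) (y i) (hn i) + Affine.Point.some x' y' h : Pt a b) := by
        rw [he] at h7
        rw [← pow_mul]
        have e7 : 3 * (l * e) = 3 * e * l := by ring
        rw [e7] at h7
        exact h7
      rw [h8, mul_pow]
      congr 1
      exact pow_right_comm _ l (k i)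
    rw [prod_congr rfl fun i _ => h6 i, prod_mul_distrib, prod_pow]
    apply isL_mul_pow
    rw [prod_ne_zero_iff]
    intro i _
    exact pow_ne_zero _ (pow_ne_zero _ (sub_ne_zero.2 (hxi i)))
  set A : Finset (Pt a b) := univ.filter (fun u => IsL l (GG u)) with hA
  have hAc : Nat.card {u : Pt a b // IsL l (GG u)} = A.card := by
    rw [Nat.card_eq_fintype_card, Fintype.card_subtype]
  set A' : Finset (Pt a b) := univ.filter (fun u : Pt a b =>
    ∃ (x y : ZMod p) (h : (CV a b).toAffine.Nonsingular x y),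
      u = Affine.Point.some x y h ∧ Q (x, y)) with hA'
  set Ex : Finset (ZMod p × ZMod p) := (Sf (fE a b)).filter (fun w => w.1 ∈ XX) with hEx
  have hExc : Ex.card ≤ 8 := by
    refine (fib_card (Sf (fE a b)) XX 2 ?_).trans (by omega)
    intro x
    refine le_trans (card_le_card ?_) (sq_card_le ((fE a b).eval x))
    intro y hy
    simpa [Sf] using hy
  have hEx2 := card_affine hD (fun w : ZMod p × ZMod p => w.1 ∈ XX)
  set ExP : Finset (Pt a b) := univ.filter (fun u : Pt a b =>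
    ∃ (x y : ZMod p) (h : (CV a b).toAffine.Nonsingular x y),
      u = Affine.Point.some x y h ∧ (x, y).1 ∈ XX) with hExP
  have hA'A : A' ⊆ A := by
    intro u hu
    rw [hA', mem_filter] at hu
    obtain ⟨_, x, y, h, rfl, hq⟩ := hu
    rw [hA, mem_filter]
    exact ⟨mem_univ _, (key x y h hq.1).1 hq.2⟩
  have hAA' : A ⊆ A' ∪ (ExP ∪ {Affine.Point.zero}) := by
    intro u hu
    rw [hA, mem_filter] at hu
    rw [mem_union, mem_union, mem_singleton]
    cases u with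
    | zero => right; right; rfl
    | some x y h =>
      by_cases hx1 : x ∈ XX
      · right; left
        rw [hExP, mem_filter]
        exact ⟨mem_univ _, x, y, h, rfl, hx1⟩
      left
      rw [hA', mem_filter]
      exact ⟨mem_univ _, x, y, h, rfl, hx1, (key x y h hx1).2 hu.2⟩
  have hTT : (Sf (fE a b)).filter Q ⊆ Tf l (fE a b) z.re z.im := by
    intro w hw
    rw [mem_filter] at hw
    rw [Tf, mem_filter]
    rw [Sf, mem_filter] at hw
    exact ⟨mem_univ _, hw.1.2, hw.2.2⟩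
  have hTT' : Tf l (fE a b) z.re z.im ⊆ (Sf (fE a b)).filter Q ∪ Ex := by
    intro w hw
    rw [Tf, mem_filter] at hw
    rw [mem_union]
    have hwS : w ∈ Sf (fE a b) := by
      rw [Sf, mem_filter]
      exact ⟨mem_univ _, hw.2.1⟩
    by_cases hx : w.1 ∈ XX
    · right
      rw [hEx, mem_filter]
      exact ⟨hwS, hx⟩
    · left
      rw [mem_filter]
      exact ⟨hwS, hx, hw.2.2⟩
  have c1 : A'.card ≤ A.card := card_le_card hA'A
  have c2 : A.card ≤ A'.card + 9 := by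
    refine (card_le_card hAA').trans ((card_union_le _ _).trans ?_)
    have c3 := card_union_le ExP {(Affine.Point.zero : Pt a b)}
    rw [card_singleton] at c3
    have c4 : ExP.card = Ex.card := hEx2
    omega
  have c5 : ((Sf (fE a b)).filter Q).card ≤ (Tf l (fE a b) z.re z.im).card := card_le_card hTT
  have c6 : (Tf l (fE a b) z.re z.im).card ≤ ((Sf (fE a b)).filter Q).card + 8 := by
    refine (card_le_card hTT').trans ((card_union_le _ _).trans ?_)
    omega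
  have c7 : A'.card = ((Sf (fE a b)).filter Q).card := hcard
  have hAc' : (Nat.card {u : Pt a b // IsL l (∏ i,
      Gv Φ (Affine.Point.some (x i) (y i) (hn i) + u : Pt a b) ^ k i)}) = A.card := hAc
  rw [hAc']
  have c8 : |((A.card : ℝ) - (Tf l (fE a b) z.re z.im).card)| ≤ 17 := by
    have d1 : (A.card : ℝ) ≤ (Tf l (fE a b) z.re z.im).card + 17 := by
      exact_mod_cast (by omega : A.card ≤ (Tf l (fE a b) z.re z.im).card + 17)
    have d2 : ((Tf l (fE a b) z.re z.im).card : ℝ) ≤ A.card + 17 := by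
      exact_mod_cast (by omega : (Tf l (fE a b) z.re z.im).card ≤ A.card + 17)
    rw [abs_le]
    constructor <;> linarith
  have e1 : (l : ℝ) * (A.card : ℝ) - p = ((l : ℝ) * (Tf l (fE a b) z.re z.im).card - p) +
      l * ((A.card : ℝ) - (Tf l (fE a b) z.re z.im).card) := by ring
  rw [e1]
  refine (abs_add_le _ _).trans ?_
  rw [add_mul]
  refine add_le_add hcnt ?_
  rw [abs_mul, abs_of_nonneg (Nat.cast_nonneg l : (0 : ℝ) ≤ l)]
  have h4 : (l : ℝ) * |((A.card : ℝ) - (Tf l (fE a b) z.re z.im).card)| ≤ 17 * l := by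
    rw [mul_comm 17]
    exact mul_le_mul_of_nonneg_left c8 (Nat.cast_nonneg l)
  exact h4.trans (le_mul_of_one_le_right (by positivity) hs1)

/-- the weights are given by the centred indicators, up to zeros -/
theorem gw_eq {F : Type} [Field F] {a b : F} {l : ℕ} (hl : l ≠ 0) (Φ : MvPolynomial (Fin 3) F)
    (u : Pt a b) [Decidable (Gv Φ u = 0)] :
    (l : ℝ) * gw l Φ u = wL l (Gv Φ u) + l * (if Gv Φ u = 0 then 1 else 0) := by
  classical
  have hl0 : (l : ℝ) ≠ 0 := by exact_mod_cast hl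
  unfold gw wL
  rw [mul_sub, mul_one_div_cancel hl0]
  by_cases h0 : Gv Φ u = 0
  · have h1 : ¬ IsL l (Gv Φ u) := fun h => h.ne_zero h0
    rw [if_neg h1, if_pos h0, if_pos ⟨0, by rw [zero_pow hl, h0]⟩]
    ring
  · have h1 : (∃ t : F, t ^ l = Gv Φ u) ↔ IsL l (Gv Φ u) := by
      constructor
      · rintro ⟨t, ht⟩
        refine ⟨t, ?_, ht⟩
        rintro rfl
        rw [zero_pow hl] at ht
        exact h0 ht.symm
      · rintro ⟨t, _, ht⟩
        exact ⟨t, ht⟩
    rw [if_neg h0]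
    by_cases h2 : IsL l (Gv Φ u)
    · rw [if_pos h2, if_pos (h1.2 h2)]; ring
    · rw [if_neg h2, if_neg (fun h3 => h2 (h1.1 h3))]; ring

theorem prod_four_close (L : ℝ) (hL : 1 ≤ L) (A Z : Fin 4 → ℝ) (hA : ∀ i, |A i| ≤ L)
    (hZ : ∀ i, Z i = 0 ∨ Z i = 1) (hAZ : ∀ i, |A i + L * Z i| ≤ L) :
    |(A 0 + L * Z 0) * (A 1 + L * Z 1) * (A 2 + L * Z 2) * (A 3 + L * Z 3) -
      A 0 * A 1 * A 2 * A 3| ≤ 2 * L ^ 4 * ∑ i, Z i := by
  have hZ0 : ∀ i, 0 ≤ Z i := fun i => by rcases hZ i with h | h <;> rw [h] <;> norm_num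
  by_cases h : ∀ i, Z i = 0
  · simp [h]
  · push Not at h
    obtain ⟨i₀, hi₀⟩ := h
    have h1 : (1 : ℝ) ≤ ∑ i, Z i := by
      have h2 := single_le_sum (f := Z) (fun i _ => hZ0 i) (mem_univ i₀)
      rcases hZ i₀ with h3 | h3
      · exact absurd h3 hi₀
      · rw [h3] at h2; exact h2
    have h2 : |(A 0 + L * Z 0) * (A 1 + L * Z 1) * (A 2 + L * Z 2) * (A 3 + L * Z 3)| ≤ L ^ 4 := by
      rw [abs_mul, abs_mul, abs_mul]
      have e : L ^ 4 = L * L * L * L := by ring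
      rw [e]
      have := hAZ 0; have := hAZ 1; have := hAZ 2; have := hAZ 3
      gcongr
    have h3 : |A 0 * A 1 * A 2 * A 3| ≤ L ^ 4 := by
      rw [abs_mul, abs_mul, abs_mul]
      have e : L ^ 4 = L * L * L * L := by ring
      rw [e]
      have := hA 0; have := hA 1; have := hA 2; have := hA 3
      gcongr
    refine (abs_sub _ _).trans ?_
    have h5 : (0 : ℝ) ≤ L ^ 4 := by positivity
    nlinarith

/-- **Four-fold correlations.** -/
theorem corr_four (l : ℕ) (hl : l.Prime) (d : ℕ) (hld : l ∣ d) (D : ℕ) : ∃ C : ℝ, 0 ≤ C ∧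
    ∀ (p : ℕ) [Fact p.Prime], p ≠ 2 → l ∣ p - 1 → ∀ (a b : ZMod p), Disc a b →
    ∀ Φ : MvPolynomial (Fin 3) (ZMod p), Φ.IsHomogeneous d →
    (∀ x y : ZMod p, degQ (phi a b Φ x y) D) →
    ∀ (x₁ y₁ : ZMod p) (h₁ : (CV a b).toAffine.Nonsingular x₁ y₁),
    (∀ g : (AlgebraicClosure (ZMod p))[X], g ^ l ≠
      (QuadraticAlgebra.norm (phi a b Φ x₁ y₁)).map
        (algebraMap (ZMod p) (AlgebraicClosure (ZMod p)))) →
    ∃ Bd : Finset (Pt a b), (Bd.card : ℝ) ≤ C ∧ ∀ h h', h ∉ Bd → h' ∉ Bd → h + h' ∉ Bd →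
      |∑ u : Pt a b, gw l Φ u * gw l Φ (u + h) * gw l Φ (u + h') * gw l Φ (u + (h + h'))| ≤
        C * √p := by
  obtain ⟨C1, hC1, hk⟩ := count_four l hl d hld D
  obtain ⟨C2, hC2, hs⟩ := scount
  have hl0 : (0 : ℝ) < l := by exact_mod_cast hl.pos
  have hl2 : (2 : ℝ) ≤ l := by exact_mod_cast hl.two_le
  set Zc : ℝ := 2 * (1 + 2 * (1 + (2 * D + 3))) + 3 with hZc
  have hZ0 : (0 : ℝ) ≤ Zc := by rw [hZc]; positivity
  refine ⟨(C1 + C2 + 1) + 16 * (l : ℝ) ^ 5 * Zc + Zc, by positivity, ?_⟩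
  intro p _ hp2 hlp a b hD Φ hΦ hdeg x₁ y₁ h₁ hc
  classical
  set K := AlgebraicClosure (ZMod p)
  set ι := algebraMap (ZMod p) K
  have hs1 : (1 : ℝ) ≤ √p := by
    rw [Real.one_le_sqrt]
    exact_mod_cast (Fact.out : p.Prime).one_lt.le
  set N := QuadraticAlgebra.norm (phi a b Φ x₁ y₁) with hNdef
  have hNd : N.natDegree ≤ 2 * D + 3 := by
    have h1 := hdeg x₁ y₁
    rw [hNdef, normQ]
    refine (natDegree_sub_le _ _).trans (max_le ?_ ?_)
    · refine natDegree_pow_le.trans ?_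
      have := h1.1; omega
    · refine natDegree_mul_le.trans ?_
      rw [fE_natDegree]
      have := natDegree_pow_le (p := (phi a b Φ x₁ y₁).im) (n := 2)
      have := h1.2; omega
  obtain ⟨hN0, x₀, hx₀⟩ := exists_mult hl.pos hc
  obtain ⟨Bd, hBd, hgood⟩ := norm_ne ι hD Φ hΦ h₁ hN0 x₀
  rw [← hNdef] at hBd
  have hBd' : (Bd.card : ℝ) ≤ Zc := by
    have h1 : Bd.card ≤ 2 * (1 + 2 * (1 + (2 * D + 3))) + 3 := hBd.trans (by omega)
    rw [hZc]
    exact_mod_cast h1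
  refine ⟨Bd, ?_, ?_⟩
  · refine hBd'.trans ?_
    have : 0 ≤ (C1 + C2 + 1) + 16 * (l : ℝ) ^ 5 * Zc := by positivity
    linarith
  intro h h' hh hh' hhh'
  obtain ⟨x₂, y₂, h₂, he₂, hne₂⟩ := hgood h hh
  obtain ⟨x₃, y₃, h₃, he₃, hne₃⟩ := hgood h' hh'
  obtain ⟨x₄, y₄, h₄, he₄, hne₄⟩ := hgood (h + h') hhh'
  -- the number of zeros
  have hzero := zeros_card ι hD Φ hΦ h₁ hN0
  rw [← hNdef] at hzero
  set z : Pt a b → ℝ := fun u => if Gv Φ u = 0 then 1 else 0 with hz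
  have hzs : ∑ u, z u ≤ Zc := by
    rw [hz, ← Finset.sum_filter, Finset.sum_const, nsmul_eq_mul, mul_one]
    have h1 : (univ.filter (fun u : Pt a b => Gv Φ u = 0)).card ≤
      2 * (1 + 2 * (1 + (2 * D + 3))) + 3 := hzero.trans (by omega)
    rw [hZc]
    exact_mod_cast h1
  have hz01 : ∀ u, z u = 0 ∨ z u = 1 := fun u => by
    rw [hz]; simp only; split_ifs
    · right; rfl
    · left; rfl
  have hzt : ∀ v, ∑ u, z (u + v) = ∑ u, z u := fun v => Equiv.sum_comp (Equiv.addRight v) z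
  set sh : Fin 4 → Pt a b := ![0, h, h', h + h'] with hsh
  set xs : Fin 4 → ZMod p := ![x₁, x₂, x₃, x₄] with hxs
  set ys : Fin 4 → ZMod p := ![y₁, y₂, y₃, y₄] with hys
  have hn : ∀ i, (CV a b).toAffine.Nonsingular (xs i) (ys i) := by
    intro i
    fin_cases i
    · exact h₁
    · exact h₂
    · exact h₃
    · exact h₄
  have hPi : ∀ i, (Affine.Point.some (xs i) (ys i) (hn i) : Pt a b) =
      Affine.Point.some x₁ y₁ h₁ + sh i := by
    intro i
    fin_cases i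
    · show (Affine.Point.some x₁ y₁ _ : Pt a b) = Affine.Point.some x₁ y₁ h₁ + 0
      rw [add_zero]
    · show (Affine.Point.some x₂ y₂ _ : Pt a b) = Affine.Point.some x₁ y₁ h₁ + h
      rw [he₂]
    · show (Affine.Point.some x₃ y₃ _ : Pt a b) = Affine.Point.some x₁ y₁ h₁ + h'
      rw [he₃]
    · show (Affine.Point.some x₄ y₄ _ : Pt a b) = Affine.Point.some x₁ y₁ h₁ + (h + h')
      rw [he₄]
  set n : ℝ := (Fintype.card (Pt a b) : ℝ) with hn'
  have hnp : |n - p| ≤ (C2 + 1) * √p := by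
    rw [hn', card_Pt hD]
    have h3 := hs p hp2 (fE a b) (fE_natDegree a b)
    push_cast
    have h4 : ((Sf (fE a b)).card : ℝ) + 1 - p = (((Sf (fE a b)).card : ℝ) - p) + 1 := by ring
    rw [h4, add_mul]
    refine (abs_add_le _ _).trans (add_le_add h3 ?_)
    rw [abs_one, one_mul]
    exact hs1
  -- the sums of the products
  have hS : ∀ k : Fin 4 → ℕ, (∀ i, k i ∈ Ico 1 l) →
      |∑ u : Pt a b, wL l (∏ i, Gv Φ (u + sh i) ^ k i)| ≤ (C1 + (C2 + 1)) * √p := by
    intro k hkI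
    have hkl : ∀ i, k i ≤ l := fun i => (mem_Ico.1 (hkI i)).2.le
    have h3 := hk p hp2 hlp a b hD Φ hΦ xs ys hn (fun i => hdeg _ _) k hkl (by
      intro g hg
      rw [map_prod, Polynomial.map_prod, Fin.prod_univ_four] at hg
      simp only [map_pow, Polynomial.map_pow] at hg
      have e0 : QuadraticAlgebra.norm (phi a b Φ (xs 0) (ys 0)) = N := rfl
      have e1 : QuadraticAlgebra.norm (phi a b Φ (xs 1) (ys 1)) =
        QuadraticAlgebra.norm (phi a b Φ x₂ y₂) := rfl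
      have e2 : QuadraticAlgebra.norm (phi a b Φ (xs 2) (ys 2)) =
        QuadraticAlgebra.norm (phi a b Φ x₃ y₃) := rfl
      have e3 : QuadraticAlgebra.norm (phi a b Φ (xs 3) (ys 3)) =
        QuadraticAlgebra.norm (phi a b Φ x₄ y₄) := rfl
      rw [e0, e1, e2, e3] at hg
      have nz : ∀ q : K[X], q.eval x₀ ≠ 0 → q ≠ 0 := by
        intro q hq h0
        rw [h0] at hq
        simp at hq
      have m0 := pow_ne_zero (k 0) hN0
      have m1 := pow_ne_zero (k 1) (nz _ hne₂)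
      have m2 := pow_ne_zero (k 2) (nz _ hne₃)
      have m3 := pow_ne_zero (k 3) (nz _ hne₄)
      have h4 := congrArg (fun q => rootMultiplicity x₀ q) hg
      rw [rootMult_pow, rootMultiplicity_mul (mul_ne_zero (mul_ne_zero (mul_ne_zero m0 m1) m2) m3),
        rootMultiplicity_mul (mul_ne_zero (mul_ne_zero m0 m1) m2),
        rootMultiplicity_mul (mul_ne_zero m0 m1), rootMult_pow, rootMult_pow, rootMult_pow,
        rootMult_pow, rootMultiplicity_eq_zero hne₂, rootMultiplicity_eq_zero hne₃,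
        rootMultiplicity_eq_zero hne₄] at h4
      simp only [mul_zero, add_zero] at h4
      have h5 : l ∣ k 0 * rootMultiplicity x₀ (N.map ι) := ⟨_, h4.symm⟩
      rcases (hl.dvd_mul).1 h5 with h6 | h6
      · have h7 := mem_Ico.1 (hkI 0)
        exact absurd (Nat.le_of_dvd (by omega) h6) (by omega)
      · exact hx₀ h6)
    have h5 : ∑ u : Pt a b, wL l (∏ i, Gv Φ (u + sh i) ^ k i) =
        (l : ℝ) * (Nat.card {u : Pt a b // IsL l (∏ i,
          Gv Φ (Affine.Point.some (xs i) (ys i) (hn i) + u : Pt a b) ^ k i)}) - n := by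
      rw [Nat.card_eq_fintype_card, Fintype.card_subtype]
      unfold wL
      rw [sum_sub_distrib, ← mul_sum, ← Finset.sum_filter, Finset.sum_const, nsmul_eq_mul, mul_one,
        sum_const, card_univ, nsmul_eq_mul, mul_one]
      congr 3
      refine card_bij' (fun u _ => u - Affine.Point.some x₁ y₁ h₁)
        (fun u _ => u + Affine.Point.some x₁ y₁ h₁) ?_ ?_ ?_ ?_
      · intro u hu
        rw [mem_filter] at hu ⊢
        refine ⟨mem_univ _, ?_⟩
        have h6 : ∀ i, (Affine.Point.some (xs i) (ys i) (hn i) +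
            (u - Affine.Point.some x₁ y₁ h₁) : Pt a b) = u + sh i := by
          intro i; rw [hPi]; abel
        simp only [h6]
        exact hu.2
      · intro u hu
        rw [mem_filter] at hu ⊢
        refine ⟨mem_univ _, ?_⟩
        have h6 : ∀ i, (u + Affine.Point.some x₁ y₁ h₁ + sh i : Pt a b) =
            Affine.Point.some (xs i) (ys i) (hn i) + u := by
          intro i; rw [hPi]; abel
        simp only [h6]
        exact hu.2
      · intro u _; abel
      · intro u _; abel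
    rw [h5]
    have e1 : (l : ℝ) * (Nat.card {u : Pt a b // IsL l (∏ i,
          Gv Φ (Affine.Point.some (xs i) (ys i) (hn i) + u : Pt a b) ^ k i)}) - n =
        ((l : ℝ) * (Nat.card {u : Pt a b // IsL l (∏ i,
          Gv Φ (Affine.Point.some (xs i) (ys i) (hn i) + u : Pt a b) ^ k i)}) - p) - (n - p) := by
      ring
    rw [e1, add_mul]
    exact (abs_sub _ _).trans (add_le_add h3 hnp)
  -- the identity
  set W : Pt a b → ℝ := fun u => wL l (Gv Φ (u + sh 0)) * wL l (Gv Φ (u + sh 1)) *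
    wL l (Gv Φ (u + sh 2)) * wL l (Gv Φ (u + sh 3)) with hW
  have hI : |((l : ℝ) - 1) * (∑ u, W u) - ∑ k₁ ∈ Ico 1 l, ∑ k₂ ∈ Ico 1 l, ∑ k₃ ∈ Ico 1 l,
      ∑ k₄ ∈ Ico 1 l, ∑ u : Pt a b, wL l (∏ i, Gv Φ (u + sh i) ^ (![k₁, k₂, k₃, k₄] i))| ≤
      2 * (l : ℝ) ^ 5 * (4 * Zc) := by
    have h3 : ∑ k₁ ∈ Ico 1 l, ∑ k₂ ∈ Ico 1 l, ∑ k₃ ∈ Ico 1 l,
      ∑ k₄ ∈ Ico 1 l, ∑ u : Pt a b, wL l (∏ i, Gv Φ (u + sh i) ^ (![k₁, k₂, k₃, k₄] i)) =
      ∑ u : Pt a b, ∑ k₁ ∈ Ico 1 l, ∑ k₂ ∈ Ico 1 l, ∑ k₃ ∈ Ico 1 l,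
      ∑ k₄ ∈ Ico 1 l, wL l (∏ i, Gv Φ (u + sh i) ^ (![k₁, k₂, k₃, k₄] i)) := by
      rw [sum_comm' (s := (univ : Finset (Pt a b))) (t := fun _ => Ico 1 l)
        (t' := Ico 1 l) (s' := fun _ => univ) (by simp)]
      refine sum_congr rfl fun k₁ _ => ?_
      rw [sum_comm' (s := (univ : Finset (Pt a b))) (t := fun _ => Ico 1 l)
        (t' := Ico 1 l) (s' := fun _ => univ) (by simp)]
      refine sum_congr rfl fun k₂ _ => ?_
      rw [sum_comm' (s := (univ : Finset (Pt a b))) (t := fun _ => Ico 1 l)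
        (t' := Ico 1 l) (s' := fun _ => univ) (by simp)]
      refine sum_congr rfl fun k₃ _ => ?_
      rw [sum_comm]
    rw [h3, mul_sum, ← sum_sub_distrib]
    refine (abs_sum_le_sum_abs _ _).trans ?_
    have h4 : ∀ u ∈ (univ : Finset (Pt a b)), |((l : ℝ) - 1) * W u - ∑ k₁ ∈ Ico 1 l,
        ∑ k₂ ∈ Ico 1 l, ∑ k₃ ∈ Ico 1 l, ∑ k₄ ∈ Ico 1 l,
        wL l (∏ i, Gv Φ (u + sh i) ^ (![k₁, k₂, k₃, k₄] i))| ≤
        2 * (l : ℝ) ^ 5 * ∑ i, z (u + sh i) := by
      intro u _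
      exact four_bound (F := ZMod p) hl (by rw [ZMod.card]; exact hlp) (fun i => Gv Φ (u + sh i))
    refine (sum_le_sum h4).trans ?_
    rw [← mul_sum, sum_comm]
    refine mul_le_mul_of_nonneg_left ?_ (by positivity)
    rw [sum_congr rfl fun i _ => hzt (sh i), sum_const, card_univ, Fintype.card_fin, nsmul_eq_mul]
    push_cast
    linarith
  have hIco : ((Ico 1 l).card : ℝ) ≤ l := by
    rw [Nat.card_Ico]
    exact_mod_cast Nat.sub_le l 1
  have hsum : |∑ k₁ ∈ Ico 1 l, ∑ k₂ ∈ Ico 1 l, ∑ k₃ ∈ Ico 1 l,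
      ∑ k₄ ∈ Ico 1 l, ∑ u : Pt a b, wL l (∏ i, Gv Φ (u + sh i) ^ (![k₁, k₂, k₃, k₄] i))| ≤
      (l : ℝ) ^ 4 * ((C1 + (C2 + 1)) * √p) := by
    have key : ∀ (f : ℕ → ℝ) (M : ℝ), 0 ≤ M → (∀ k ∈ Ico 1 l, |f k| ≤ M) →
        |∑ k ∈ Ico 1 l, f k| ≤ l * M := by
      intro f M hM hf
      refine (abs_sum_le_sum_abs _ _).trans ((sum_le_sum hf).trans ?_)
      rw [sum_const, nsmul_eq_mul]
      exact mul_le_mul_of_nonneg_right hIco hM
    have e : (l : ℝ) ^ 4 * ((C1 + (C2 + 1)) * √p) =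
      l * (l * (l * (l * ((C1 + (C2 + 1)) * √p)))) := by ring
    rw [e]
    refine key _ _ (by positivity) fun k₁ i₁ => ?_
    refine key _ _ (by positivity) fun k₂ i₂ => ?_
    refine key _ _ (by positivity) fun k₃ i₃ => ?_
    refine key _ _ (by positivity) fun k₄ i₄ => ?_
    apply hS
    intro i
    fin_cases i
    · exact i₁
    · exact i₂
    · exact i₃
    · exact i₄
  have hl1 : (1 : ℝ) ≤ (l : ℝ) - 1 := by linarith
  have hWs : |∑ u, W u| ≤ (l : ℝ) ^ 4 * ((C1 + (C2 + 1)) * √p) + 2 * (l : ℝ) ^ 5 * (4 * Zc) := by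
    have h3 : |((l : ℝ) - 1) * (∑ u, W u)| ≤
        (l : ℝ) ^ 4 * ((C1 + (C2 + 1)) * √p) + 2 * (l : ℝ) ^ 5 * (4 * Zc) := by
      have h4 := abs_sub_abs_le_abs_sub (((l : ℝ) - 1) * (∑ u, W u))
        (∑ k₁ ∈ Ico 1 l, ∑ k₂ ∈ Ico 1 l, ∑ k₃ ∈ Ico 1 l,
      ∑ k₄ ∈ Ico 1 l, ∑ u : Pt a b, wL l (∏ i, Gv Φ (u + sh i) ^ (![k₁, k₂, k₃, k₄] i)))
      linarith
    rw [abs_mul, abs_of_nonneg (by linarith : (0 : ℝ) ≤ (l : ℝ) - 1)] at h3
    have h5 : |∑ u, W u| ≤ ((l : ℝ) - 1) * |∑ u, W u| :=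
      le_mul_of_one_le_left (abs_nonneg _) hl1
    linarith
  -- the weights
  have hG : |(l : ℝ) ^ 4 * (∑ u : Pt a b, gw l Φ u * gw l Φ (u + h) * gw l Φ (u + h') *
      gw l Φ (u + (h + h'))) - ∑ u, W u| ≤ 2 * (l : ℝ) ^ 4 * (4 * Zc) := by
    rw [mul_sum, ← sum_sub_distrib]
    refine (abs_sum_le_sum_abs _ _).trans ?_
    have h4 : ∀ u ∈ (univ : Finset (Pt a b)), |(l : ℝ) ^ 4 * (gw l Φ u * gw l Φ (u + h) *
        gw l Φ (u + h') * gw l Φ (u + (h + h'))) - W u| ≤ 2 * (l : ℝ) ^ 4 * ∑ i, z (u + sh i) := by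
      intro u _
      have g0 := fun v : Pt a b => gw_eq (l := l) hl.ne_zero Φ v
      have h5 := prod_four_close (l : ℝ) (by linarith) (fun i => wL l (Gv Φ (u + sh i)))
        (fun i => z (u + sh i)) (fun i => wL_abs hl.one_lt.le _) (fun i => hz01 _) (by
          intro i
          have h6 := g0 (u + sh i)
          simp only [hz]
          rw [← h6, abs_mul, abs_of_nonneg hl0.le]
          have := gw_abs_le hl.one_lt.le Φ (u + sh i)
          nlinarith)
      simp only [hz] at h5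
      rw [← g0, ← g0, ← g0, ← g0] at h5
      refine le_trans (le_of_eq ?_) h5
      congr 1
      rw [hW]
      simp only
      have s0 : u + sh 0 = u := by rw [hsh]; simp
      have s1 : u + sh 1 = u + h := rfl
      have s2 : u + sh 2 = u + h' := rfl
      have s3 : u + sh 3 = u + (h + h') := rfl
      rw [s0, s1, s2, s3]
      ring
    refine (sum_le_sum h4).trans ?_
    rw [← mul_sum, sum_comm]
    refine mul_le_mul_of_nonneg_left ?_ (by positivity)
    rw [sum_congr rfl fun i _ => hzt (sh i), sum_const, card_univ, Fintype.card_fin, nsmul_eq_mul]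
    push_cast
    linarith
  have hfin : |(l : ℝ) ^ 4 * (∑ u : Pt a b, gw l Φ u * gw l Φ (u + h) * gw l Φ (u + h') *
      gw l Φ (u + (h + h')))| ≤ (l : ℝ) ^ 4 * ((C1 + (C2 + 1)) * √p) +
        2 * (l : ℝ) ^ 5 * (4 * Zc) + 2 * (l : ℝ) ^ 4 * (4 * Zc) := by
    have h4 := abs_sub_abs_le_abs_sub ((l : ℝ) ^ 4 * (∑ u : Pt a b, gw l Φ u * gw l Φ (u + h) *
      gw l Φ (u + h') * gw l Φ (u + (h + h')))) (∑ u, W u)
    linarith
  rw [abs_mul, abs_of_nonneg (by positivity : (0 : ℝ) ≤ (l : ℝ) ^ 4)] at hfin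
  have hl4 : (0 : ℝ) < (l : ℝ) ^ 4 := by positivity
  refine le_of_mul_le_mul_left (hfin.trans ?_) hl4
  have e5 : 2 * (l : ℝ) ^ 5 * (4 * Zc) = (l : ℝ) ^ 4 * (8 * l * Zc) := by ring
  have e6 : 2 * (l : ℝ) ^ 4 * (4 * Zc) = (l : ℝ) ^ 4 * (8 * Zc) := by ring
  rw [e5, e6, ← mul_add, ← mul_add]
  refine mul_le_mul_of_nonneg_left ?_ hl4.le
  have hl5 : (l : ℝ) ≤ (l : ℝ) ^ 5 := by
    have h1 : (1 : ℝ) ≤ (l : ℝ) ^ 4 := one_le_pow₀ (by linarith)
    nlinarith
  have h1l5 : (1 : ℝ) ≤ (l : ℝ) ^ 5 := one_le_pow₀ (by linarith)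
  have f1 : 8 * (l : ℝ) * Zc ≤ 8 * (l : ℝ) ^ 5 * Zc * √p := by
    have : 8 * (l : ℝ) * Zc ≤ 8 * (l : ℝ) ^ 5 * Zc := by
      refine mul_le_mul_of_nonneg_right ?_ hZ0
      linarith
    exact this.trans (le_mul_of_one_le_right (by positivity) hs1)
  have f2 : 8 * Zc ≤ 8 * (l : ℝ) ^ 5 * Zc * √p := by
    have : 8 * Zc ≤ 8 * (l : ℝ) ^ 5 * Zc := by
      refine mul_le_mul_of_nonneg_right ?_ hZ0
      linarith
    exact this.trans (le_mul_of_one_le_right (by positivity) hs1)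
  have f3 : (0 : ℝ) ≤ Zc * √p := by positivity
  have e7 : (C1 + C2 + 1 + 16 * (l : ℝ) ^ 5 * Zc + Zc) * √p =
      (C1 + (C2 + 1)) * √p + 8 * (l : ℝ) ^ 5 * Zc * √p + 8 * (l : ℝ) ^ 5 * Zc * √p + Zc * √p := by
    ring
  rw [e7]
  linarith

end Pool.Agent.K9h5
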