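import Mathlib
import Pool.Agent.H901R3.MS.Defs

/-!
# The place of the field of Laurent series
-/

set_option autoImplicit false
set_option linter.all false

namespace Pool.Agent.K9h5

open Pool.Agent.H901R3.MS

/-- Laurent series -/
abbrev LS (k : Type) [Field k] : Type := HahnSeries ℤ k

section

variable {k : Type} [Field k]

/-- power series as Laurent series -/
noncomputable def pL (k : Type) [Field k] : PowerSeries k →+* LS k := HahnSeries.ofPowerSeries ℤ k

theorem pL_coeff (f : PowerSeries k) (n : ℕ) : (pL k f).coeff (n : ℤ) = PowerSeries.coeff n f :=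
  HahnSeries.ofPowerSeries_apply_coeff f n

theorem pL_coeff_neg (f : PowerSeries k) (n : ℤ) (hn : n < 0) : (pL k f).coeff n = 0 := by
  unfold pL
  rw [HahnSeries.ofPowerSeries_apply, HahnSeries.embDomain_notin_range]
  rintro ⟨m, hm⟩
  simp at hm
  omega

theorem mem_range_pL (x : LS k) (hx : ∀ n : ℤ, n < 0 → x.coeff n = 0) : ∃ f, pL k f = x := by
  refine ⟨PowerSeries.mk fun n => x.coeff (n : ℤ), ?_⟩
  ext n
  rcases lt_or_ge n 0 with h | h
  · rw [pL_coeff_neg _ _ h, hx n h]
  · obtain ⟨m, rfl⟩ := Int.eq_ofNat_of_zero_le h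
    have : ((m : ℤ)) = ((m : ℕ) : ℤ) := rfl
    rw [pL_coeff, PowerSeries.coeff_mk]

theorem pL_inj : Function.Injective (pL k) := HahnSeries.ofPowerSeries_injective

/-- the place -/
noncomputable def plc (k : Type) [Field k] : Place (LS k) k where
  A := (pL k).range
  ρ := { toFun := fun x => (x : LS k).coeff 0
         map_one' := by simp
         map_zero' := by simp
         map_add' := fun x y => by simp
         map_mul' := by
           rintro ⟨_, f, rfl⟩ ⟨_, g, rfl⟩
           have h : ∀ f : PowerSeries k, (pL k f).coeff 0 = PowerSeries.constantCoeff f := by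
             intro f
             have := pL_coeff f 0
             rw [PowerSeries.coeff_zero_eq_constantCoeff] at this
             exact_mod_cast this
           show (pL k f * pL k g).coeff 0 = (pL k f).coeff 0 * (pL k g).coeff 0
           rw [← map_mul, h, h, h, map_mul] }
  inv_of_notMem := by
    intro x hx
    have hx0 : x ≠ 0 := by
      rintro rfl
      exact hx ⟨0, map_zero _⟩
    have h1 : x.order < 0 := by
      by_contra hc
      push Not at hc
      apply hx
      exact mem_range_pL x fun n hn => HahnSeries.coeff_eq_zero_of_lt_order (by omega)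
    have h2 : x⁻¹.order = - x.order := by
      have h3 := HahnSeries.order_mul hx0 (inv_ne_zero hx0)
      rw [mul_inv_cancel₀ hx0, HahnSeries.order_one] at h3
      omega
    have h4 : x⁻¹ ∈ (pL k).range :=
      mem_range_pL _ fun n hn => HahnSeries.coeff_eq_zero_of_lt_order (by omega)
    exact ⟨h4, HahnSeries.coeff_eq_zero_of_lt_order (by show (0 : ℤ) < x⁻¹.order; omega)⟩
  inv_of_ne := by
    rintro ⟨_, f, rfl⟩ hf
    have hf0 : PowerSeries.constantCoeff f ≠ 0 := by
      have := pL_coeff f 0
      rw [PowerSeries.coeff_zero_eq_constantCoeff] at this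
      intro h
      apply hf
      show (pL k f).coeff 0 = 0
      have e : (pL k f).coeff ((0 : ℕ) : ℤ) = (pL k f).coeff 0 := by norm_num
      rw [← e, this, h]
    refine ⟨f⁻¹, ?_⟩
    apply eq_inv_of_mul_eq_one_right
    rw [← map_mul, PowerSeries.mul_inv_cancel f hf0, map_one]

theorem plc_C (c : k) : (HahnSeries.C c : LS k) ∈ (plc k).A ∧ (plc k).r (HahnSeries.C c) = c := by
  have h1 : (HahnSeries.C c : LS k) ∈ (plc k).A := ⟨PowerSeries.C c, HahnSeries.ofPowerSeries_C c⟩
  refine ⟨h1, ?_⟩
  rw [(plc k).r_of h1]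
  show (HahnSeries.C c : LS k).coeff 0 = c
  rw [HahnSeries.C_apply, HahnSeries.coeff_single_same]

theorem ord_unit {x : LS k} (h : (plc k).r x ≠ 0) : x ≠ 0 ∧ x.order = 0 := by
  have hA := (plc k).mem_of_r_ne h
  have h0 := (plc k).ne_zero_of_r_ne h
  refine ⟨h0, ?_⟩
  rw [(plc k).r_of hA] at h
  have h1 : x.coeff 0 ≠ 0 := h
  have h2 := HahnSeries.order_le_of_coeff_ne_zero h1
  obtain ⟨f, hf⟩ := hA
  have h3 : 0 ≤ x.order := by
    by_contra hc
    push Not at hc
    have h4 : x.coeff x.order ≠ 0 := fun h => h0 (HahnSeries.coeff_order_eq_zero.1 h)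
    apply h4
    rw [← hf] at hc ⊢
    exact pL_coeff_neg f _ hc
  omega

theorem ord_pL {f : PowerSeries k} {n : ℕ} (h : f.order = n) : pL k f ≠ 0 ∧ (pL k f).order = n := by
  have hf0 : f ≠ 0 := by
    rintro rfl
    rw [PowerSeries.order_zero] at h
    exact absurd h (by simp)
  have h0 : pL k f ≠ 0 := by
    rw [← map_zero (pL k)]
    exact fun hh => hf0 (pL_inj hh)
  refine ⟨h0, ?_⟩
  rw [PowerSeries.order_eq_nat] at h
  apply le_antisymm
  · apply HahnSeries.order_le_of_coeff_ne_zero
    rw [pL_coeff]
    exact h.1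
  · by_contra hc
    push Not at hc
    have h4 : (pL k f).coeff (pL k f).order ≠ 0 := fun h => h0 (HahnSeries.coeff_order_eq_zero.1 h)
    apply h4
    rcases lt_or_ge (pL k f).order 0 with h5 | h5
    · exact pL_coeff_neg f _ h5
    · obtain ⟨m, hm⟩ := Int.eq_ofNat_of_zero_le h5
      rw [hm] at hc ⊢
      have e : (pL k f).coeff (m : ℤ) = PowerSeries.coeff m f := pL_coeff f m
      rw [e]
      exact h.2 m (by exact_mod_cast hc)

end

end Pool.Agent.K9h5
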