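import Mathlib

/-!
# The obstruction for being an `l`-th power
-/

set_option autoImplicit false
set_option linter.all false

namespace Pool.Agent.K9h5

open Polynomial

theorem exists_minor {K : Type} [Field K] {m n : ℕ} (M : Matrix (Fin m) (Fin n) K)
    (h : ∀ v : Fin n → K, M.mulVec v = 0 → v = 0) :
    ∃ s : Fin n → Fin m, (M.submatrix s id).det ≠ 0 := by
  classical
  have h1 : M.rank = n := by
    have h2 : Function.Injective M.mulVecLin := by
      rw [← LinearMap.ker_eq_bot, LinearMap.ker_eq_bot']
      exact h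
    have h3 := LinearMap.finrank_range_of_inj h2
    rw [Matrix.rank, h3]
    simp
  rw [Matrix.rank_eq_finrank_span_row] at h1
  have h4 : Submodule.span K (Set.range M.row) = ⊤ := by
    apply Submodule.eq_top_of_finrank_eq
    rw [h1]
    simp
  obtain ⟨t, ht1, ht2, ht3⟩ := exists_linearIndependent K (Set.range M.row)
  rw [h4] at ht2
  haveI : Finite t := (Set.finite_range M.row).subset ht1
  haveI : Fintype t := Fintype.ofFinite t
  let B : Module.Basis t K (Fin n → K) := Module.Basis.mk ht3 (by
    rw [Subtype.range_coe]; exact ht2.ge)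
  have hc : Fintype.card t = n := by
    have := Module.finrank_eq_card_basis B
    rw [← this]
    simp
  let e : Fin n ≃ t := (Fintype.equivFinOfCardEq hc).symm
  have h5 : ∀ i : Fin n, ∃ j : Fin m, M.row j = (e i : Fin n → K) := fun i => ht1 (e i).2
  choose s hs using h5
  refine ⟨s, ?_⟩
  have h6 : LinearIndependent K (M.submatrix s id).row := by
    have h7 : (M.submatrix s id).row = (fun i => ((e i : t) : Fin n → K)) := by
      funext i
      rw [← hs i]
      rfl
    rw [h7]
    exact ht3.comp e e.injective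
  have h8 := Matrix.linearIndependent_rows_iff_isUnit.1 h6
  rw [Matrix.isUnit_iff_isUnit_det] at h8
  exact h8.ne_zero

/-- the matrix of `g ↦ N' g - l N g'` on the polynomials of degree at most `n` -/
noncomputable def MM {S : Type} [CommRing S] (l n : ℕ) (N : S[X]) :
    Matrix (Fin (2 * n + 2)) (Fin (n + 1)) S :=
  fun i k => (derivative N * X ^ (k : ℕ) - (l : S[X]) * N * derivative (X ^ (k : ℕ))).coeff i

theorem MM_map {S T : Type} [CommRing S] [CommRing T] (φ : S →+* T) (l n : ℕ) (N : S[X]) :
    MM l n (N.map φ) = (MM l n N).map φ := by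
  ext i k
  rw [Matrix.map_apply, MM, MM, ← coeff_map, Polynomial.map_sub, Polynomial.map_mul,
    Polynomial.map_mul, Polynomial.map_mul, ← derivative_map, ← derivative_map, Polynomial.map_pow,
    map_X, Polynomial.map_natCast]

theorem MM_mulVec {S : Type} [CommRing S] (l n : ℕ) (N : S[X]) (g : S[X]) (hg : g.natDegree ≤ n)
    (i : Fin (2 * n + 2)) : (MM l n N).mulVec (fun k : Fin (n + 1) => g.coeff k) i =
      (derivative N * g - (l : S[X]) * N * derivative g).coeff i := by
  have h1 : g = ∑ k : Fin (n + 1), C (g.coeff k) * X ^ (k : ℕ) := by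
    conv_lhs => rw [g.as_sum_range_C_mul_X_pow' (Nat.lt_succ_of_le hg)]
    rw [Finset.sum_range]
  have h2 : derivative N * g - (l : S[X]) * N * derivative g =
      ∑ k : Fin (n + 1), C (g.coeff k) * (derivative N * X ^ (k : ℕ) -
        (l : S[X]) * N * derivative (X ^ (k : ℕ))) := by
    conv_lhs => rw [h1]
    rw [derivative_sum, Finset.mul_sum, Finset.mul_sum, ← Finset.sum_sub_distrib]
    refine Finset.sum_congr rfl fun k _ => ?_
    rw [derivative_C_mul]
    ring
  rw [h2, finset_sum_coeff, Matrix.mulVec, dotProduct]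
  refine Finset.sum_congr rfl fun k _ => ?_
  rw [coeff_C_mul, MM, mul_comm]

/-- a nonvanishing minor shows that `N` is not an `l`-th power -/
theorem not_pow_of_minor {K L : Type} [Field K] [Field L] (ι : K →+* L) {l n : ℕ} (hl : 0 < l)
    {N : K[X]} (hN : N.natDegree ≤ n) (s : Fin (n + 1) → Fin (2 * n + 2))
    (h : ((MM l n N).submatrix s id).det ≠ 0) (g : L[X]) : g ^ l ≠ N.map ι := by
  intro hg
  have hdet : ((MM l n (N.map ι)).submatrix s id).det ≠ 0 := by
    rw [MM_map]
    have h1 : ((MM l n N).map ι).submatrix s id = ((MM l n N).submatrix s id).map ι := rfl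
    have h2 := RingHom.map_det ι ((MM l n N).submatrix s id)
    rw [RingHom.mapMatrix_apply] at h2
    rw [h1, ← h2, _root_.map_ne_zero]
    exact h
  have hgd : g.natDegree ≤ n := by
    have h1 := congrArg natDegree hg
    rw [natDegree_pow, natDegree_map] at h1
    calc g.natDegree ≤ l * g.natDegree := Nat.le_mul_of_pos_left _ hl
      _ = N.natDegree := h1
      _ ≤ n := hN
  have hg0 : g ≠ 0 := by
    rintro rfl
    rw [zero_pow hl.ne'] at hg
    apply hdet
    have h1 : (MM l n (N.map ι)).submatrix s id = 0 := by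
      ext i k
      rw [Matrix.submatrix_apply, MM, ← hg]
      simp
    rw [h1, Matrix.det_zero]
  have hder : derivative (N.map ι) * g - (l : L[X]) * (N.map ι) * derivative g = 0 := by
    rw [← hg, derivative_pow]
    obtain ⟨m, rfl⟩ : ∃ m, l = m + 1 := ⟨l - 1, by omega⟩
    simp only [Nat.add_sub_cancel, map_natCast]
    ring
  have hv : ((MM l n (N.map ι)).submatrix s id).mulVec (fun k : Fin (n + 1) => g.coeff k) = 0 := by
    funext i
    have h1 := MM_mulVec l n (N.map ι) g hgd (s i)
    rw [hder, coeff_zero] at h1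
    exact h1
  have h3 := Matrix.eq_zero_of_mulVec_eq_zero hdet hv
  apply hg0
  ext k
  rw [coeff_zero]
  rcases Nat.lt_or_ge k (n + 1) with hk | hk
  · exact congrFun h3 ⟨k, hk⟩
  · exact coeff_eq_zero_of_natDegree_lt (by omega)

/-- in characteristic zero, a multiplicity not divisible by `l` gives a nonvanishing minor -/
theorem minor_of_mult {K : Type} [Field K] [CharZero K] {l n : ℕ}
    {N : K[X]} (hN0 : N ≠ 0) (hN : N.natDegree ≤ n) {x₀ : K}
    (h : ¬ l ∣ N.rootMultiplicity x₀) :
    ∃ s : Fin (n + 1) → Fin (2 * n + 2), ((MM l n N).submatrix s id).det ≠ 0 := by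
  apply exists_minor
  intro v hv
  by_contra hv0
  set g : K[X] := ∑ k : Fin (n + 1), C (v k) * X ^ (k : ℕ) with hg
  have hgc : ∀ k : Fin (n + 1), g.coeff k = v k := by
    intro k
    rw [hg, finset_sum_coeff, Finset.sum_eq_single k]
    · simp
    · intro k' _ hk'
      rw [coeff_C_mul, coeff_X_pow, if_neg, mul_zero]
      intro h
      exact hk' (Fin.ext h.symm)
    · intro h; exact absurd (Finset.mem_univ _) h
  have hgd : g.natDegree ≤ n := by
    rw [hg]
    apply natDegree_sum_le_of_forall_le
    intro k _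
    refine (natDegree_C_mul_X_pow_le _ _).trans ?_
    have := k.2
    omega
  have hg0 : g ≠ 0 := by
    intro h0
    apply hv0
    funext k
    rw [← hgc k, h0, coeff_zero]
    rfl
  have hder : derivative N * g - (l : K[X]) * N * derivative g = 0 := by
    ext i
    rw [coeff_zero]
    rcases Nat.lt_or_ge i (2 * n + 2) with hi | hi
    · have h1 := MM_mulVec l n N g hgd ⟨i, hi⟩
      rw [← h1]
      have h2 : (fun k : Fin (n + 1) => g.coeff k) = v := funext hgc
      rw [h2, hv]
      rfl
    · apply coeff_eq_zero_of_natDegree_lt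
      refine lt_of_le_of_lt ?_ (lt_of_lt_of_le (show 2 * n < 2 * n + 2 by omega) hi)
      refine (natDegree_sub_le _ _).trans (max_le ?_ ?_)
      · refine natDegree_mul_le.trans ?_
        have := natDegree_derivative_le N
        omega
      · refine natDegree_mul_le.trans ?_
        have h3 := natDegree_derivative_le g
        have h4 : ((l : K[X]) * N).natDegree ≤ n := by
          rw [← C_eq_natCast]
          exact (natDegree_C_mul_le _ _).trans hN
        omega
  -- multiplicities
  obtain ⟨N1, hN1, hN1'⟩ := exists_eq_pow_rootMultiplicity_mul_and_not_dvd N hN0 x₀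
  obtain ⟨g1, hg1, hg1'⟩ := exists_eq_pow_rootMultiplicity_mul_and_not_dvd g hg0 x₀
  set μ := N.rootMultiplicity x₀ with hμ
  set ν := g.rootMultiplicity x₀ with hν
  rw [dvd_iff_isRoot, IsRoot.def] at hN1' hg1'
  apply h
  have hμ0 : μ ≠ 0 := fun h0 => h (by rw [h0]; exact dvd_zero l)
  obtain ⟨μ', hμ'⟩ : ∃ m, μ = m + 1 := ⟨μ - 1, by omega⟩
  have e1 : derivative N = (X - C x₀) ^ μ' * (C (μ : K) * N1 + (X - C x₀) * derivative N1) := by
    rw [hN1, hμ', derivative_mul, derivative_X_sub_C_pow, Nat.add_sub_cancel]
    push_cast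
    rw [pow_succ]
    simp only [map_add, map_natCast, map_one]
    ring
  have key : C ((μ : K) - l * ν) * N1 * g1 + (X - C x₀) * (derivative N1 * g1 -
      (l : K[X]) * N1 * derivative g1) = 0 := by
    have hX : (X - C x₀ : K[X]) ≠ 0 := X_sub_C_ne_zero _
    rcases Nat.eq_zero_or_pos ν with h0 | h0
    · have e2 : g = g1 := by
        rw [hg1, h0, pow_zero, one_mul]
      have h1 : (X - C x₀) ^ μ' * (C ((μ : K) - l * ν) * N1 * g1 + (X - C x₀) * (derivative N1 * g1 -
        (l : K[X]) * N1 * derivative g1)) = 0 := by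
        rw [← hder, e1, e2]
        conv_rhs => rw [hN1]
        rw [h0, hμ']
        simp only [Nat.cast_zero, mul_zero, sub_zero, map_natCast]
        push_cast
        ring
      exact (mul_eq_zero.1 h1).resolve_left (pow_ne_zero _ hX)
    · obtain ⟨ν', hν'⟩ : ∃ m, ν = m + 1 := ⟨ν - 1, by omega⟩
      have e2 : derivative g = (X - C x₀) ^ ν' * (C (ν : K) * g1 + (X - C x₀) * derivative g1) := by
        rw [hg1, hν', derivative_mul, derivative_X_sub_C_pow, Nat.add_sub_cancel]
        push_cast
        rw [pow_succ]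
        simp only [map_add, map_natCast, map_one]
        ring
      have h1 : (X - C x₀) ^ (μ' + ν' + 1) * (C ((μ : K) - l * ν) * N1 * g1 +
          (X - C x₀) * (derivative N1 * g1 - (l : K[X]) * N1 * derivative g1)) = 0 := by
        rw [← hder, e1, e2]
        conv_rhs => rw [hN1, hg1]
        rw [hμ', hν']
        simp only [map_sub, map_mul, map_natCast]
        push_cast
        ring
      exact (mul_eq_zero.1 h1).resolve_left (pow_ne_zero _ hX)
  have h5 := congrArg (eval x₀) key
  simp only [eval_add, eval_mul, eval_sub, eval_C, eval_X, sub_self, zero_mul, add_zero,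
    eval_zero] at h5
  have h6 : (μ : K) - l * ν = 0 := by
    rcases mul_eq_zero.1 h5 with h6 | h6
    · exact (mul_eq_zero.1 h6).resolve_right hN1'
    · exact absurd h6 hg1'
  have h7 : (μ : K) = ((l * ν : ℕ) : K) := by
    push_cast
    linear_combination h6
  exact ⟨ν, by exact_mod_cast h7⟩

end Pool.Agent.K9h5
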