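import Mathlib
import Pool.Agent.K9h5.Corr2
import Pool.Agent.K9h5.Minor

/-!
# Specialization of multihomogeneous forms
-/

set_option autoImplicit false
set_option linter.all false

namespace Pool.Agent.K9h5

open Polynomial Pool.Agent.H901R3.MS WeierstrassCurve Finset

/-- the value of a polynomial in the variables `(i, k)` with integer coefficients -/
noncomputable def evF {r : ℕ} {S : Type} [CommRing S] (F : MvPolynomial (Fin r × Fin 3) ℤ)
    (V : Fin r → Fin 3 → S) : S :=
  MvPolynomial.eval₂ (Int.castRingHom S) (fun v => V v.1 v.2) F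

theorem evF_map {r : ℕ} {S T : Type} [CommRing S] [CommRing T] (φ : S →+* T)
    (F : MvPolynomial (Fin r × Fin 3) ℤ) (V : Fin r → Fin 3 → S) :
    φ (evF F V) = evF F (fun i k => φ (V i k)) := by
  unfold evF
  rw [MvPolynomial.hom_eval₂]
  congr 1
  exact RingHom.ext_int _ _

/-- the form in the variables of the `j`-th factor -/
noncomputable def specF {r : ℕ} {S : Type} [CommRing S] (F : MvPolynomial (Fin r × Fin 3) ℤ)
    (j : Fin r) (V : Fin r → Fin 3 → S) : MvPolynomial (Fin 3) S :=
  evF F (fun i k => if i = j then MvPolynomial.X k else MvPolynomial.C (V i k))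

theorem specF_map {r : ℕ} {S T : Type} [CommRing S] [CommRing T] (φ : S →+* T)
    (F : MvPolynomial (Fin r × Fin 3) ℤ) (j : Fin r) (V : Fin r → Fin 3 → S) :
    MvPolynomial.map φ (specF F j V) = specF F j (fun i k => φ (V i k)) := by
  unfold specF
  rw [evF_map]
  congr 1
  funext i k
  split_ifs
  · rw [MvPolynomial.map_X]
  · rw [MvPolynomial.map_C]

theorem specF_eval {r : ℕ} {S T : Type} [CommRing S] [CommRing T] (ι : S →+* T)
    (F : MvPolynomial (Fin r × Fin 3) ℤ) (j : Fin r) (V : Fin r → Fin 3 → S) (W : Fin 3 → T) :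
    MvPolynomial.eval₂ ι W (specF F j V) = evF F (fun i k => if i = j then W k else ι (V i k)) := by
  unfold specF
  have h1 := evF_map (MvPolynomial.eval₂Hom ι W) F
    (fun i k => if i = j then MvPolynomial.X k else MvPolynomial.C (V i k))
  rw [MvPolynomial.coe_eval₂Hom] at h1
  rw [h1]
  congr 1
  funext i k
  split_ifs
  · rw [MvPolynomial.eval₂_X]
  · rw [MvPolynomial.eval₂_C]

theorem specF_congr {r : ℕ} {S : Type} [CommRing S]
    (F : MvPolynomial (Fin r × Fin 3) ℤ) (j : Fin r) (V V' : Fin r → Fin 3 → S)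
    (h : ∀ i, i ≠ j → V i = V' i) : specF F j V = specF F j V' := by
  unfold specF
  congr 1
  funext i k
  by_cases hi : i = j
  · rw [if_pos hi, if_pos hi]
  · rw [if_neg hi, if_neg hi, h i hi]

/-- the weight of the variables of the `j`-th factor -/
def wtj {r : ℕ} (j : Fin r) : Fin r × Fin 3 → ℕ := fun v => if v.1 = j then 1 else 0

theorem specF_homog {r : ℕ} {S : Type} [CommRing S] (F : MvPolynomial (Fin r × Fin 3) ℤ)
    (j : Fin r) {d : ℕ} (hF : F.IsWeightedHomogeneous (wtj j) d) (V : Fin r → Fin 3 → S) :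
    (specF F j V).IsHomogeneous d := by
  unfold specF evF
  rw [MvPolynomial.eval₂_eq]
  apply MvPolynomial.IsHomogeneous.sum
  intro e he
  have h1 : (∏ v ∈ e.support, (if v.1 = j then MvPolynomial.X v.2 else
      MvPolynomial.C (V v.1 v.2) : MvPolynomial (Fin 3) S) ^ e v).IsHomogeneous
        (∑ v ∈ e.support, wtj j v * e v) := by
    apply MvPolynomial.IsHomogeneous.prod
    intro v _
    apply MvPolynomial.IsHomogeneous.pow
    unfold wtj
    split_ifs
    · exact MvPolynomial.isHomogeneous_X _ _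
    · exact MvPolynomial.isHomogeneous_C _ _
  have h2 : ∑ v ∈ e.support, wtj j v * e v = d := by
    have h3 := hF (MvPolynomial.mem_support_iff.1 he)
    rw [← h3, Finsupp.weight_apply, Finsupp.sum]
    refine Finset.sum_congr rfl fun i _ => ?_
    rw [smul_eq_mul, mul_comm]
  rw [h2] at h1
  have h4 := (MvPolynomial.isHomogeneous_C (Fin 3) (((MvPolynomial.coeff e F : ℤ) : S))).mul h1
  rw [zero_add] at h4
  have h5 : (Int.castRingHom (MvPolynomial (Fin 3) S)) (MvPolynomial.coeff e F) =
      MvPolynomial.C ((MvPolynomial.coeff e F : ℤ) : S) := by simp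
  rw [h5]
  exact h4

/-- the specialization homomorphism -/
noncomputable def spH {r : ℕ} {S : Type} [CommRing S] (V : Fin r → Fin 3 → S) :
    MvPolynomial (Fin r × Fin 3) ℤ →+* S :=
  MvPolynomial.eval₂Hom (Int.castRingHom S) (fun v => V v.1 v.2)

theorem spH_apply {r : ℕ} {S : Type} [CommRing S] (V : Fin r → Fin 3 → S)
    (F : MvPolynomial (Fin r × Fin 3) ℤ) : spH V F = evF F V := rfl

theorem spH_X {r : ℕ} {S : Type} [CommRing S] (V : Fin r → Fin 3 → S) (i : Fin r) (k : Fin 3) :
    spH V (MvPolynomial.X (i, k)) = V i k := by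
  unfold spH
  rw [MvPolynomial.coe_eval₂Hom, MvPolynomial.eval₂_X]

/-- the universal element of the coordinate ring -/
noncomputable def uphi {r : ℕ} (F : MvPolynomial (Fin r × Fin 3) ℤ) (j : Fin r) (a b : ℤ) :
    QA (MvPolynomial (Fin r × Fin 3) ℤ) (a : MvPolynomial (Fin r × Fin 3) ℤ)
      (b : MvPolynomial (Fin r × Fin 3) ℤ) :=
  phi _ _ (specF F j (fun i k => MvPolynomial.X (i, k))) (MvPolynomial.X (j, 0))
    (MvPolynomial.X (j, 1))

theorem uphi_map {r : ℕ} {S : Type} [CommRing S] (F : MvPolynomial (Fin r × Fin 3) ℤ) (j : Fin r)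
    (a b : ℤ) (V : Fin r → Fin 3 → S) :
    mapQ (spH V) _ _ (a : S) (b : S) (map_intCast _ a) (map_intCast _ b) (uphi F j a b) =
      phi (a : S) (b : S) (specF F j V) (V j 0) (V j 1) := by
  unfold uphi
  rw [mapQ_phi, specF_map, spH_X, spH_X]
  congr 2
  funext i k
  rw [spH_X]

theorem degQ_spec {r : ℕ} (F : MvPolynomial (Fin r × Fin 3) ℤ) (j : Fin r) (a b : ℤ) :
    ∃ D : ℕ, ∀ (S : Type) [CommRing S] (V : Fin r → Fin 3 → S) (x y : S),
      degQ (phi (a : S) (b : S) (specF F j V) x y) D := by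
  refine ⟨max (uphi F j a b).re.natDegree (uphi F j a b).im.natDegree, ?_⟩
  intro S _ V x y
  set V' : Fin r → Fin 3 → S := fun i => if i = j then ![x, y, 1] else V i with hV'
  have h1 : specF F j V = specF F j V' := by
    apply specF_congr
    intro i hi
    rw [hV']
    simp only [if_neg hi]
  have h2 := uphi_map F j a b V'
  have h3 : V' j 0 = x := by rw [hV']; simp
  have h4 : V' j 1 = y := by rw [hV']; simp
  rw [h3, h4, ← h1] at h2
  rw [← h2]
  constructor
  · rw [mapQ_re]
    exact natDegree_map_le.trans (le_max_left _ _)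
  · rw [mapQ_im]
    exact natDegree_map_le.trans (le_max_right _ _)

/-- **The polynomial detecting ramification.** -/
theorem bpoly {r : ℕ} (F : MvPolynomial (Fin r × Fin 3) ℤ) (j : Fin r) (a b : ℤ) (l : ℕ)
    (hl : 0 < l) (V₀ : Fin r → Fin 3 → ℂ) (x₀ : ℂ)
    (h0 : QuadraticAlgebra.norm (phi (a : ℂ) (b : ℂ) (specF F j V₀) (V₀ j 0) (V₀ j 1)) ≠ 0)
    (hm : ¬ l ∣ (QuadraticAlgebra.norm
      (phi (a : ℂ) (b : ℂ) (specF F j V₀) (V₀ j 0) (V₀ j 1))).rootMultiplicity x₀) :
    ∃ bp : MvPolynomial (Fin r × Fin 3) ℤ, evF bp V₀ ≠ 0 ∧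
      ∀ (k K : Type) [Field k] [Field K] (ι : k →+* K) (V : Fin r → Fin 3 → k), evF bp V ≠ 0 →
        ∀ g : K[X], g ^ l ≠ (QuadraticAlgebra.norm
          (phi (a : k) (b : k) (specF F j V) (V j 0) (V j 1))).map ι := by
  set NU := QuadraticAlgebra.norm (uphi F j a b) with hNU
  have hN : ∀ (S : Type) [CommRing S] (V : Fin r → Fin 3 → S),
      QuadraticAlgebra.norm (phi (a : S) (b : S) (specF F j V) (V j 0) (V j 1)) =
        NU.map (spH V) := by
    intro S _ V
    rw [← uphi_map, mapQ_norm]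
  have hNd : ∀ (S : Type) [CommRing S] (V : Fin r → Fin 3 → S),
      (QuadraticAlgebra.norm (phi (a : S) (b : S) (specF F j V) (V j 0) (V j 1))).natDegree ≤
        NU.natDegree := by
    intro S _ V
    rw [hN]
    exact natDegree_map_le
  obtain ⟨s, hs⟩ := minor_of_mult (n := NU.natDegree) h0 (hNd ℂ V₀) hm
  have hdet : ∀ (S : Type) [CommRing S] (V : Fin r → Fin 3 → S),
      evF ((MM l NU.natDegree NU).submatrix s id).det V =
      ((MM l NU.natDegree (QuadraticAlgebra.norm
        (phi (a : S) (b : S) (specF F j V) (V j 0) (V j 1)))).submatrix s id).det := by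
    intro S _ V
    rw [hN, MM_map, ← spH_apply, RingHom.map_det]
    rfl
  refine ⟨((MM l NU.natDegree NU).submatrix s id).det, ?_, ?_⟩
  · rw [hdet]
    exact hs
  · intro k K _ _ ι V hV
    rw [hdet] at hV
    exact not_pow_of_minor ι hl (hNd k V) s hV

end Pool.Agent.K9h5
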