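import Mathlib
import Pool.Agent.K9h5.Sp

/-!
# A Schwartz-Zippel lemma on products of elliptic curves
-/

set_option autoImplicit false
set_option linter.all false

namespace Pool.Agent.K9h5

open Polynomial Pool.Agent.H901R3.MS WeierstrassCurve Finset

/-- the universal ring -/
abbrev RU (r : ℕ) : Type := MvPolynomial (Fin r × Fin 3) ℤ

/-- the polynomial depends only on the variables in `T` -/
def Dep {r : ℕ} (F : MvPolynomial (Fin r × Fin 3) ℤ) (T : Finset (Fin r)) : Prop :=
  ∀ (S : Type) [CommRing S] (V V' : Fin r → Fin 3 → S), (∀ i ∈ T, V i = V' i) → evF F V = evF F V'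

/-- the point with generic `i₀`-th coordinate -/
noncomputable def gen {r : ℕ} {S : Type} [CommRing S] (i₀ : Fin r) (a b : S)
    (V : Fin r → Fin 3 → S) : Fin r → Fin 3 → QA S a b :=
  fun i k => if i = i₀ then ![qx S a b, qy S a b, 1] k else qc S a b (V i k)

theorem evQ_gen {r : ℕ} {S K : Type} [CommRing S] [CommRing K] (ι : S →+* K) (i₀ : Fin r) (a b : S)
    (V : Fin r → Fin 3 → S) (x y : K) (h : y ^ 2 = x ^ 3 + ι a * x + ι b)
    (F : MvPolynomial (Fin r × Fin 3) ℤ) :
    evQ ι a b x y h (evF F (gen i₀ a b V)) =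
      evF F (fun i k => if i = i₀ then ![x, y, 1] k else ι (V i k)) := by
  rw [evF_map]
  congr 1
  funext i k
  unfold gen
  split_ifs
  · fin_cases k
    · simp [evQ_apply, qx]
    · simp [evQ_apply, qy]
    · simp
  · rw [evQ_apply, qc_apply]; simp

theorem mapQ_gen {r : ℕ} {S T : Type} [CommRing S] [CommRing T] (φ : S →+* T) (i₀ : Fin r)
    (a b : S) (a' b' : T) (ha : φ a = a') (hb : φ b = b')
    (V : Fin r → Fin 3 → S) (F : MvPolynomial (Fin r × Fin 3) ℤ) :
    mapQ φ a b a' b' ha hb (evF F (gen i₀ a b V)) = evF F (gen i₀ a' b' (fun i k => φ (V i k))) := by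
  rw [evF_map]
  congr 1
  funext i k
  unfold gen
  split_ifs
  · fin_cases k
    · ext1 <;> simp [mapQ_re, mapQ_im, qx]
    · ext1 <;> simp [mapQ_re, mapQ_im, qy]
    · simp
  · ext1 <;> simp [mapQ_re, mapQ_im, qc_apply]

theorem norm_ne_zero {F : Type} [Field F] {a b : F} {z : QA F a b} (hz : z ≠ 0) :
    QuadraticAlgebra.norm z ≠ 0 := by
  intro h
  rw [normQ, sub_eq_zero] at h
  by_cases hi : z.im = 0
  · rw [hi] at h
    have h1 : z.re = 0 := by
      apply pow_eq_zero_iff (n := 2) (by norm_num) |>.1
      rw [h]; ring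
    apply hz
    ext1
    · exact h1
    · exact hi
  · have h0 : fE a b ≠ 0 := by
      intro h0
      have := fE_natDegree a b
      rw [h0] at this
      simp at this
    have h1 := congrArg natDegree h
    rw [natDegree_pow, natDegree_mul h0 (pow_ne_zero _ hi), natDegree_pow, fE_natDegree] at h1
    omega

/-- the number of zeros of a nonzero function on a curve -/
theorem zeros_le {F : Type} [Field F] [Fintype F] [DecidableEq F] {a b : F} (z : QA F a b)
    (hz : z ≠ 0) {D : ℕ} (hD : degQ z D) (Q : Pt a b → Prop) [DecidablePred Q]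
    (hQ : ∀ (x y : F) (h : (CV a b).toAffine.Nonsingular x y),
      Q (Affine.Point.some x y h) → z.re.eval x + z.im.eval x * y = 0) :
    (univ.filter Q).card ≤ 4 * D + 7 := by
  classical
  have h1 : univ.filter Q ⊆ VF a b (QuadraticAlgebra.norm z) := by
    intro u hu
    rw [mem_filter] at hu
    cases u with
    | zero => exact zero_mem_VF
    | some x y h =>
      apply mem_VF (norm_ne_zero hz)
      have h2 := hQ x y h hu.2
      have h3 : y ^ 2 = x ^ 3 + a * x + b := eqn_of h
      rw [normQ, eval_sub, eval_mul, eval_pow, eval_pow, fE_eval, ← h3]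
      linear_combination (z.re.eval x - z.im.eval x * y) * h2
  refine (card_le_card h1).trans ((VF_card _ _ _).trans ?_)
  have h2 : (QuadraticAlgebra.norm z).natDegree ≤ 2 * D + 3 := by
    rw [normQ]
    refine (natDegree_sub_le _ _).trans (max_le ?_ ?_)
    · refine natDegree_pow_le.trans ?_
      have := hD.1; omega
    · refine natDegree_mul_le.trans ?_
      rw [fE_natDegree]
      have := natDegree_pow_le (p := z.im) (n := 2)
      have := hD.2; omega
  omega

open Classical in
/-- the bad tuples -/
noncomputable def badT {r : ℕ} (a b : Fin r → ℤ) (p : ℕ) [Fact p.Prime]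
    (F : MvPolynomial (Fin r × Fin 3) ℤ) (S : ∀ i, Finset (Pt (a i : ZMod p) (b i : ZMod p))) :
    Finset (∀ i, Pt (a i : ZMod p) (b i : ZMod p)) :=
  (Fintype.piFinset S).filter (fun P => evF F (fun i => rep (P i)) = 0)

/-- the bound -/
noncomputable def bdT {r : ℕ} (a b : Fin r → ℤ) (p : ℕ) [Fact p.Prime]
    (S : ∀ i, Finset (Pt (a i : ZMod p) (b i : ZMod p))) : ℕ :=
  ∑ i, ∏ i' ∈ univ.erase i, (S i').card

theorem sz_aux {r : ℕ} (a b : Fin r → ℤ) (V₀ : Fin r → Fin 3 → ℂ)
    (haff : ∀ i, V₀ i 2 = 1 ∧ V₀ i 1 ^ 2 = V₀ i 0 ^ 3 + a i * V₀ i 0 + b i) :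
    ∀ (n : ℕ) (T : Finset (Fin r)), T.card = n → ∀ F : MvPolynomial (Fin r × Fin 3) ℤ, Dep F T →
      evF F V₀ ≠ 0 → ∃ C p₀ : ℕ, ∀ (p : ℕ) [Fact p.Prime], p₀ ≤ p →
        ∀ S : ∀ i, Finset (Pt (a i : ZMod p) (b i : ZMod p)),
          (badT a b p F S).card ≤ C * bdT a b p S := by
  classical
  intro n
  induction n with
  | zero =>
    intro T hT F hdep h0
    rw [card_eq_zero] at hT
    subst hT
    set m : ℤ := evF F (fun _ _ => (0 : ℤ)) with hm
    have hall : ∀ (S : Type) [CommRing S] (V : Fin r → Fin 3 → S), evF F V = (m : S) := by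
      intro S _ V
      rw [hdep S V (fun i k => (Int.castRingHom S) 0) (fun i hi => absurd hi (notMem_empty i)),
        ← evF_map (Int.castRingHom S) F (fun _ _ => (0 : ℤ))]
      rfl
    have hm0 : m ≠ 0 := by
      intro h
      apply h0
      rw [hall, h]
      simp
    refine ⟨0, m.natAbs + 1, ?_⟩
    intro p _ hp S
    rw [zero_mul, Nat.le_zero, card_eq_zero, badT, filter_eq_empty_iff]
    intro P _ hP
    rw [hall] at hP
    rw [ZMod.intCast_zmod_eq_zero_iff_dvd] at hP
    have h1 := Int.natAbs_dvd_natAbs.2 hP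
    rw [Int.natAbs_natCast] at h1
    have h2 := Nat.le_of_dvd (Int.natAbs_pos.2 hm0) h1
    omega
  | succ n ih =>
    intro T hT F hdep h0
    obtain ⟨i₀, hi₀⟩ : T.Nonempty := by
      rw [← card_pos, hT]; omega
    set T' := T.erase i₀ with hT'
    have hT'c : T'.card = n := by
      rw [hT', card_erase_of_mem hi₀, hT]; rfl
    set zU : QA (RU r) (a i₀ : RU r) (b i₀ : RU r) := evF F (gen i₀ _ _ (fun i k => MvPolynomial.X (i, k)))
      with hzU
    have hmap : ∀ (S : Type) [CommRing S] (V : Fin r → Fin 3 → S),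
        mapQ (spH V) _ _ (a i₀ : S) (b i₀ : S) (map_intCast _ _) (map_intCast _ _) zU =
          evF F (gen i₀ (a i₀ : S) (b i₀ : S) V) := by
      intro S _ V
      rw [hzU, mapQ_gen]
      congr 2
      funext i k
      rw [spH_X]
    have hgdep : ∀ (S : Type) [CommRing S] (V V' : Fin r → Fin 3 → S), (∀ i ∈ T', V i = V' i) →
        evF F (gen i₀ (a i₀ : S) (b i₀ : S) V) = evF F (gen i₀ (a i₀ : S) (b i₀ : S) V') := by
      intro S _ V V' hVV
      refine hdep (QA S (a i₀ : S) (b i₀ : S)) (gen i₀ (a i₀ : S) (b i₀ : S) V)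
        (gen i₀ (a i₀ : S) (b i₀ : S) V') ?_
      intro i hi
      funext k
      unfold gen
      by_cases h : i = i₀
      · rw [if_pos h, if_pos h]
      · rw [if_neg h, if_neg h, hVV i (mem_erase.2 ⟨h, hi⟩)]
    -- a coefficient which does not vanish
    obtain ⟨γ, hγdep, hγ0, hγ⟩ : ∃ γ : RU r, Dep γ T' ∧ evF γ V₀ ≠ 0 ∧
        ∀ (S : Type) [CommRing S] (V : Fin r → Fin 3 → S), evF γ V ≠ 0 →
          evF F (gen i₀ (a i₀ : S) (b i₀ : S) V) ≠ 0 := by
      have h1 : evF F (gen i₀ (a i₀ : ℂ) (b i₀ : ℂ) V₀) ≠ 0 := by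
        intro h
        apply h0
        have hE : (V₀ i₀ 1) ^ 2 = (V₀ i₀ 0) ^ 3 + (RingHom.id ℂ) (a i₀ : ℂ) * (V₀ i₀ 0) +
          (RingHom.id ℂ) (b i₀ : ℂ) := (haff i₀).2
        have h2 := evQ_gen (RingHom.id ℂ) i₀ (a i₀ : ℂ) (b i₀ : ℂ) V₀ (V₀ i₀ 0) (V₀ i₀ 1) hE F
        rw [h, map_zero] at h2
        rw [h2]
        congr 1
        funext i k
        by_cases hi : i = i₀
        · rw [if_pos hi]
          subst hi
          have h3 := (haff i).1
          fin_cases k <;> simp [h3]
        · rw [if_neg hi]; rfl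
      rw [← hmap] at h1
      have h2 : (∃ m, ((mapQ (spH V₀) _ _ (a i₀ : ℂ) (b i₀ : ℂ) (map_intCast _ _) (map_intCast _ _)
          zU).re).coeff m ≠ 0) ∨ (∃ m, ((mapQ (spH V₀) _ _ (a i₀ : ℂ) (b i₀ : ℂ) (map_intCast _ _)
          (map_intCast _ _) zU).im).coeff m ≠ 0) := by
        by_contra hcon
        push Not at hcon
        apply h1
        ext1
        · ext m; rw [hcon.1 m]; simp
        · ext m; rw [hcon.2 m]; simp
      rcases h2 with ⟨m, hm⟩ | ⟨m, hm⟩
      · refine ⟨zU.re.coeff m, ?_, ?_, ?_⟩
        · intro S _ V V' hVV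
          have e1 := congrArg (fun z => (z.re).coeff m) (hmap S V)
          have e2 := congrArg (fun z => (z.re).coeff m) (hmap S V')
          simp only [mapQ_re, coeff_map, spH_apply] at e1 e2
          rw [e1, e2, hgdep S V V' hVV]
        · rw [mapQ_re, coeff_map, spH_apply] at hm
          exact hm
        · intro S _ V hV h
          apply hV
          have e1 := congrArg (fun z => (z.re).coeff m) (hmap S V)
          simp only [mapQ_re, coeff_map, spH_apply] at e1
          rw [e1, h]
          simp
      · refine ⟨zU.im.coeff m, ?_, ?_, ?_⟩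
        · intro S _ V V' hVV
          have e1 := congrArg (fun z => (z.im).coeff m) (hmap S V)
          have e2 := congrArg (fun z => (z.im).coeff m) (hmap S V')
          simp only [mapQ_im, coeff_map, spH_apply] at e1 e2
          rw [e1, e2, hgdep S V V' hVV]
        · rw [mapQ_im, coeff_map, spH_apply] at hm
          exact hm
        · intro S _ V hV h
          apply hV
          have e1 := congrArg (fun z => (z.im).coeff m) (hmap S V)
          simp only [mapQ_im, coeff_map, spH_apply] at e1
          rw [e1, h]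
          simp
    obtain ⟨C', p₀, hC'⟩ := ih T' hT'c γ hγdep hγ0
    set D := max zU.re.natDegree zU.im.natDegree with hD
    refine ⟨C' + (4 * D + 7), p₀, ?_⟩
    intro p _ hp S
    have h1 := hC' p hp S
    -- the tuples where `γ` does not vanish
    set W : Finset (∀ i, Pt (a i : ZMod p) (b i : ZMod p)) := (Fintype.piFinset S).filter
      (fun P => evF γ (fun i => rep (P i)) ≠ 0 ∧ evF F (fun i => rep (P i)) = 0) with hW
    have h2 : W.card ≤ (4 * D + 7) * ∏ i' ∈ univ.erase i₀, (S i').card := by
      set B : Finset (∀ i, Pt (a i : ZMod p) (b i : ZMod p)) :=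
        Fintype.piFinset (Function.update S i₀ {0}) with hB
      have hBc : B.card = ∏ i' ∈ univ.erase i₀, (S i').card := by
        rw [hB, Fintype.card_piFinset, ← Finset.mul_prod_erase univ _ (mem_univ i₀),
          Function.update_self, card_singleton, one_mul]
        refine Finset.prod_congr rfl fun i hi => ?_
        rw [Function.update_of_ne (ne_of_mem_erase hi)]
      have hmaps : ∀ P ∈ W, Function.update P i₀ 0 ∈ B := by
        intro P hP
        rw [hW, mem_filter, Fintype.mem_piFinset] at hP
        rw [hB, Fintype.mem_piFinset]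
        intro i
        by_cases hi : i = i₀
        · subst hi
          rw [Function.update_self, Function.update_self]
          exact mem_singleton_self _
        · rw [Function.update_of_ne hi, Function.update_of_ne hi]
          exact hP.1 i
      rw [card_eq_sum_card_fiberwise hmaps, ← hBc, mul_comm]
      refine (sum_le_card_nsmul _ _ (4 * D + 7) ?_).trans (by rw [smul_eq_mul])
      intro Q hQ
      by_cases hne : (W.filter (fun P => Function.update P i₀ 0 = Q)).Nonempty
      · obtain ⟨P₁, hP₁⟩ := hne
        rw [mem_filter, hW, mem_filter] at hP₁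
        obtain ⟨⟨_, hγP, _⟩, hPQ⟩ := hP₁
        set V : Fin r → Fin 3 → ZMod p := fun i => rep (P₁ i) with hV
        set zV := evF F (gen i₀ (a i₀ : ZMod p) (b i₀ : ZMod p) V) with hzV
        have hz0 : zV ≠ 0 := hγ (ZMod p) V hγP
        have hzd : degQ zV D := by
          rw [hzV, ← hmap]
          constructor
          · rw [mapQ_re]
            exact natDegree_map_le.trans (le_max_left _ _)
          · rw [mapQ_im]
            exact natDegree_map_le.trans (le_max_right _ _)
        set Qp : Pt (a i₀ : ZMod p) (b i₀ : ZMod p) → Prop := fun u =>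
          evF F (fun i => rep (Function.update P₁ i₀ u i)) = 0 with hQp
        have h3 := zeros_le zV hz0 hzd Qp (by
          intro x y h hq
          have hE : y ^ 2 = x ^ 3 + (RingHom.id (ZMod p)) (a i₀ : ZMod p) * x +
            (RingHom.id (ZMod p)) (b i₀ : ZMod p) := eqn_of h
          have h4 := evQ_gen (RingHom.id (ZMod p)) i₀ (a i₀ : ZMod p) (b i₀ : ZMod p) V x y hE F
          rw [evQ_apply, eval₂_id, eval₂_id] at h4
          rw [h4, ← hq]
          congr 1
          funext i k
          by_cases hi : i = i₀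
          · subst hi
            rw [if_pos rfl, Function.update_self]
            rfl
          · rw [if_neg hi, Function.update_of_ne hi]
            rfl)
        refine le_trans ?_ h3
        refine card_le_card_of_injOn (fun P => P i₀) ?_ ?_
        · intro P hP
          rw [mem_coe, mem_filter, hW, mem_filter] at hP
          obtain ⟨⟨_, _, hF⟩, hPQ'⟩ := hP
          rw [mem_coe, mem_filter]
          refine ⟨mem_univ _, ?_⟩
          have h5 : Function.update P₁ i₀ (P i₀) = P := by
            funext i
            by_cases hi : i = i₀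
            · subst hi; rw [Function.update_self]
            · have h6 := congrFun (hPQ.trans hPQ'.symm) i
              rw [Function.update_of_ne hi, Function.update_of_ne hi] at h6
              rw [Function.update_of_ne hi, h6]
          show evF F (fun i => rep (Function.update P₁ i₀ (P i₀) i)) = 0
          rw [h5]
          exact hF
        · intro P hP P' hP' h
          rw [mem_coe, mem_filter] at hP hP'
          funext i
          by_cases hi : i = i₀
          · subst hi; exact h
          · have h6 := congrFun (hP.2.trans hP'.2.symm) i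
            rw [Function.update_of_ne hi, Function.update_of_ne hi] at h6
            exact h6
      · rw [not_nonempty_iff_eq_empty] at hne
        rw [hne, card_empty]
        exact Nat.zero_le _
    have h3 : badT a b p F S ⊆ badT a b p γ S ∪ W := by
      intro P hP
      rw [badT, mem_filter] at hP
      rw [mem_union, badT, mem_filter, hW, mem_filter]
      by_cases h : evF γ (fun i => rep (P i)) = 0
      · left; exact ⟨hP.1, h⟩
      · right; exact ⟨hP.1, h, hP.2⟩
    have h4 : ∏ i' ∈ univ.erase i₀, (S i').card ≤ bdT a b p S := by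
      unfold bdT
      exact single_le_sum (f := fun i => ∏ i' ∈ univ.erase i, (S i').card)
        (fun _ _ => Nat.zero_le _) (mem_univ i₀)
    refine (card_le_card h3).trans ((card_union_le _ _).trans ?_)
    rw [add_mul]
    exact add_le_add h1 (h2.trans (Nat.mul_le_mul_left _ h4))

/-- **Schwartz-Zippel on a product of elliptic curves.** -/
theorem sz {r : ℕ} (a b : Fin r → ℤ) (V₀ : Fin r → Fin 3 → ℂ)
    (haff : ∀ i, V₀ i 2 = 1 ∧ V₀ i 1 ^ 2 = V₀ i 0 ^ 3 + a i * V₀ i 0 + b i)
    (F : MvPolynomial (Fin r × Fin 3) ℤ) (h0 : evF F V₀ ≠ 0) :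
    ∃ C p₀ : ℕ, ∀ (p : ℕ) [Fact p.Prime], p₀ ≤ p →
        ∀ S : ∀ i, Finset (Pt (a i : ZMod p) (b i : ZMod p)),
          (badT a b p F S).card ≤ C * bdT a b p S := by
  refine sz_aux a b V₀ haff _ univ rfl F ?_ h0
  intro S _ V V' h
  have : V = V' := funext fun i => h i (mem_univ i)
  rw [this]

end Pool.Agent.K9h5
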