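import Mathlib
import Pool.Agent.K9h5.Ram
import Pool.Agent.H901R3.MS.P_M1
import Pool.Agent.H769R2.RR_HDB
import Pool.Agent.Helper94.RR_HUP
import Pool.Agent.H678RR.RR_F
import Pool.Agent.H437R2.Man.MWCan

/-!
# Heights on elliptic curves over the rational numbers
-/

set_option autoImplicit false
set_option linter.all false

namespace Pool.Agent.K9h5

open Pool.Agent.H901R3.MS WeierstrassCurve Finset

/-- the logarithmic height of a point: `log (max |m| n)` for `x = m / n` in lowest terms -/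
noncomputable def hP {a b : ℚ} : Pt a b → ℝ
  | Affine.Point.zero => 0
  | Affine.Point.some x _ _ => Real.log (max |(x.num : ℝ)| (x.den : ℝ))

theorem hP_nonneg {a b : ℚ} (P : Pt a b) : 0 ≤ hP P := by
  cases P with
  | zero => exact le_rfl
  | some x y h =>
    apply Real.log_nonneg
    refine le_max_of_le_right ?_
    exact_mod_cast x.den_pos

theorem disc_int {a b : ℤ} (h : Disc (a : ℚ) (b : ℚ)) : 4 * a ^ 3 + 27 * b ^ 2 ≠ 0 := by
  intro h0
  apply h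
  have : (4 * (a : ℚ) ^ 3 + 27 * (b : ℚ) ^ 2) = ((4 * a ^ 3 + 27 * b ^ 2 : ℤ) : ℚ) := by push_cast; ring
  rw [this, h0]
  simp

theorem hP_eq {a b : ℚ} (P : Pt a b) : hP P = Pool.Agent.H925R3.RR.htp (a := a) (b := b) P := by
  classical
  cases P with
  | zero =>
    have h : Pool.Agent.H925R3.RR.htp (a := a) (b := b) Affine.Point.zero = 0 := by
      unfold Pool.Agent.H925R3.RR.htp
      exact if_pos rfl
    exact h.symm
  | some x y h =>
    have h' : Pool.Agent.H925R3.RR.htp (a := a) (b := b) (Affine.Point.some x y h) =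
        Pool.Agent.H925R3.RR.ht x := by
      unfold Pool.Agent.H925R3.RR.htp
      rw [if_neg (by rintro ⟨⟩)]
      rfl
    refine Eq.trans ?_ h'.symm
    show Real.log _ = Real.log _
    congr 1
    push_cast
    rfl

/-- the parallelogram law up to a constant -/
theorem paral {a b : ℤ} (hD : Disc (a : ℚ) (b : ℚ)) : ∃ C : ℝ, ∀ P Q : Pt (a : ℚ) (b : ℚ),
    |hP (P + Q) + hP (P - Q) - 2 * (hP P + hP Q)| ≤ C := by
  obtain ⟨C1, h1⟩ := Pool.Agent.Helper94.RRHUP.hup Pool.Agent.H678RR.fsp Pool.Agent.H678RR.fdb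
    Pool.Agent.H678RR.feq a b (disc_int hD)
  obtain ⟨C2, h2⟩ := Pool.Agent.H769R2.rr_hdb Pool.Agent.H678RR.fdb Pool.Agent.H678RR.feq a b
    (disc_int hD)
  have k1 : ∀ P Q : Pt (a : ℚ) (b : ℚ), hP (P + Q) + hP (P - Q) ≤ 2 * hP P + 2 * hP Q + C1 := by
    intro P Q
    rw [hP_eq, hP_eq, hP_eq, hP_eq]
    exact h1 P Q
  have k2 : ∀ P : Pt (a : ℚ) (b : ℚ), 4 * hP P ≤ hP (P + P) + C2 := by
    intro P
    rw [hP_eq, hP_eq]
    exact h2 P
  refine ⟨|C1| + |C2| + |C1|, fun P Q => ?_⟩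
  have a1 := k1 P Q
  have a2 := k1 (P + Q) (P - Q)
  have e1 : P + Q + (P - Q) = P + P := by abel
  have e2 : P + Q - (P - Q) = Q + Q := by abel
  rw [e1, e2] at a2
  have a3 := k2 P
  have a4 := k2 Q
  have b1 := le_abs_self C1
  have b2 := le_abs_self C2
  have b3 := abs_nonneg C1
  have b4 := abs_nonneg C2
  rw [abs_le]
  constructor <;> linarith

/-- the canonical height as the square of a norm -/
theorem canon_norm {a b : ℤ} (hD : Disc (a : ℚ) (b : ℚ)) : ∃ (n : ℕ)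
    (ψ : Pt (a : ℚ) (b : ℚ) →+ EuclideanSpace ℝ (Fin n)) (C : ℝ),
      ∀ P, |‖ψ P‖ ^ 2 - hP P| ≤ C := by
  obtain ⟨C, hC⟩ := paral hD
  obtain ⟨q, C', h1, h2, h3⟩ := Pool.Agent.H437R2.Man.MW.canon hP C hP_nonneg hC
  obtain ⟨n, ψ, hψ⟩ := Pool.Agent.H437R2.Man.MW.embed (t_M1 a b hD) q h2 h3
  exact ⟨n, ψ, C', fun P => by rw [hψ]; exact h1 P⟩

/-- Northcott's theorem -/
theorem northcott {a b : ℤ} (B : ℝ) : {P : Pt (a : ℚ) (b : ℚ) | hP P ≤ B}.Finite := by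
  obtain ⟨N, hN⟩ := exists_nat_ge (Real.exp B)
  have hfin : ({q : ℚ | |q.num| ≤ (N : ℤ) ∧ q.den ≤ N}).Finite := by
    refine Set.Finite.of_finite_image (f := fun q : ℚ => (q.num, q.den)) ?_ ?_
    · refine ((Set.finite_Icc (-(N : ℤ)) N).prod (Set.finite_Icc 0 N)).subset ?_
      rintro _ ⟨q, ⟨h1, h2⟩, rfl⟩
      rw [abs_le] at h1
      exact ⟨⟨h1.1, h1.2⟩, ⟨Nat.zero_le _, h2⟩⟩
    · intro q _ q' _ h
      simp only [Prod.mk.injEq] at h
      exact Rat.ext h.1 h.2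
  have hsq : ∀ c : ℚ, {y : ℚ | y ^ 2 = c}.Finite := by
    intro c
    by_cases hne : {y : ℚ | y ^ 2 = c}.Nonempty
    · obtain ⟨y0, hy0⟩ := hne
      refine (Set.toFinite {y0, -y0}).subset ?_
      intro y hy
      rw [Set.mem_setOf_eq] at hy hy0
      rw [← hy0] at hy
      rcases sq_eq_sq_iff_eq_or_eq_neg.1 hy with h | h
      · left; exact h
      · right; exact h
    · rw [Set.not_nonempty_iff_eq_empty] at hne
      rw [hne]; exact Set.finite_empty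
  have hpair : {z : ℚ × ℚ | (|z.1.num| ≤ (N : ℤ) ∧ z.1.den ≤ N) ∧
      z.2 ^ 2 = z.1 ^ 3 + a * z.1 + b}.Finite := by
    have : {z : ℚ × ℚ | (|z.1.num| ≤ (N : ℤ) ∧ z.1.den ≤ N) ∧ z.2 ^ 2 = z.1 ^ 3 + a * z.1 + b} ⊆
        ⋃ q ∈ {q : ℚ | |q.num| ≤ (N : ℤ) ∧ q.den ≤ N},
          (Prod.mk q) '' {y : ℚ | y ^ 2 = q ^ 3 + a * q + b} := by
      rintro ⟨x, y⟩ ⟨h1, h2⟩
      rw [Set.mem_iUnion₂]
      exact ⟨x, h1, y, h2, rfl⟩
    exact (hfin.biUnion fun q _ => (hsq _).image _).subset this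
  have hne : ({Affine.Point.zero} ∪ {P : Pt (a : ℚ) (b : ℚ) | ∃ (x y : ℚ)
      (h : (CV (a : ℚ) (b : ℚ)).toAffine.Nonsingular x y), P = Affine.Point.some x y h ∧
        (|x.num| ≤ (N : ℤ) ∧ x.den ≤ N)}).Finite := by
    refine (Set.finite_singleton _).union ?_
    refine Set.Finite.of_finite_image (f := fun P : Pt (a : ℚ) (b : ℚ) =>
      match P with | Affine.Point.zero => ((0 : ℚ), (0 : ℚ)) | Affine.Point.some x y _ => (x, y)) ?_ ?_
    · refine hpair.subset ?_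
      rintro _ ⟨P, ⟨x, y, h, rfl, hx⟩, rfl⟩
      exact ⟨hx, eqn_of h⟩
    · rintro _ ⟨x, y, h, rfl, hx⟩ _ ⟨x', y', h', rfl, hx'⟩ he
      simp only [Prod.mk.injEq] at he
      obtain ⟨rfl, rfl⟩ := he
      rfl
  refine hne.subset ?_
  intro P hPB
  rw [Set.mem_setOf_eq] at hPB
  cases P with
  | zero => left; rfl
  | some x y h =>
    right
    refine ⟨x, y, h, rfl, ?_⟩
    have h0 : (0 : ℝ) < max |(x.num : ℝ)| (x.den : ℝ) :=
      lt_max_of_lt_right (by exact_mod_cast x.den_pos)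
    have h1 : max |(x.num : ℝ)| (x.den : ℝ) ≤ N := by
      refine le_trans ?_ hN
      rw [← Real.log_le_iff_le_exp h0]
      exact hPB
    constructor
    · have := (le_max_left _ _).trans h1
      exact_mod_cast this
    · have := (le_max_right _ _).trans h1
      exact_mod_cast this

/-- the lower bound for a seminorm on `ℤ ^ ρ` -/
theorem seminorm_lower {ρ : ℕ} (H : (Fin ρ → ℤ) → ℝ) (hH0 : ∀ e, 0 ≤ H e)
    (hadd : ∀ e f, H (e + f) ≤ H e + H f) (hsmul : ∀ (k : ℕ) e, H (fun j => (k : ℤ) * e j) = k * H e)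
    (A : ℝ) (hA0 : 0 ≤ A) (hle : ∀ (u : Fin ρ → ℤ) (E : ℝ), (∀ j, |(u j : ℝ)| ≤ E) → 0 ≤ E → H u ≤ A * E)
    (hfin : {f : Fin ρ → ℤ | H f ≤ 1 + A}.Finite) :
    ∃ c : ℕ, 1 ≤ c ∧ ∀ (e : Fin ρ → ℤ) (j : Fin ρ), |(e j : ℝ)| ≤ c * H e := by
  classical
  obtain ⟨R, hR⟩ : ∃ R : ℕ, ∀ f : Fin ρ → ℤ, H f ≤ 1 + A → ∀ j, (f j).natAbs ≤ R := by
    refine ⟨hfin.toFinset.sup (fun f => univ.sup (fun j => (f j).natAbs)), ?_⟩
    intro f hf j
    have h1 : (f j).natAbs ≤ univ.sup (fun j => (f j).natAbs) :=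
      le_sup (f := fun j => (f j).natAbs) (mem_univ j)
    have h2 : univ.sup (fun j => (f j).natAbs) ≤
        hfin.toFinset.sup (fun f => univ.sup (fun j => (f j).natAbs)) :=
      le_sup (f := fun f : Fin ρ → ℤ => univ.sup (fun j => (f j).natAbs))
        (hfin.mem_toFinset.2 hf)
    exact h1.trans h2
  refine ⟨R + 1, by omega, ?_⟩
  intro e j
  obtain ⟨j1, _, hj1⟩ := exists_max_image (univ : Finset (Fin ρ)) (fun j => |(e j : ℝ)|)
    ⟨j, mem_univ j⟩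
  refine (hj1 j (mem_univ j)).trans ?_
  by_contra hcon
  rw [not_le] at hcon
  obtain ⟨E, hE⟩ : ∃ E : ℕ, E = (e j1).natAbs := ⟨_, rfl⟩
  have hEr : |(e j1 : ℝ)| = (E : ℝ) := by
    rw [hE, Nat.cast_natAbs, Int.cast_abs]
  rw [hEr] at hcon
  push_cast at hcon
  have hR0 : (0 : ℝ) ≤ ((R : ℝ) + 1) * H e := mul_nonneg (by positivity) (hH0 e)
  have hE0 : (0 : ℝ) < E := lt_of_le_of_lt hR0 hcon
  obtain ⟨f, hf⟩ : ∃ f : Fin ρ → ℤ, f = fun j => round (((R : ℝ) + 1) * e j / E) := ⟨_, rfl⟩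
  have hfu : ∀ j, |(E : ℝ) * f j - ((R : ℝ) + 1) * e j| ≤ E / 2 := by
    intro j
    have h1 := abs_sub_round (((R : ℝ) + 1) * e j / E)
    have h2 : (E : ℝ) * f j - ((R : ℝ) + 1) * e j =
        -(E * (((R : ℝ) + 1) * e j / E - f j)) := by
      field_simp
      ring
    rw [h2, abs_neg, abs_mul, abs_of_pos hE0]
    have h3 : (f j : ℝ) = ((round (((R : ℝ) + 1) * e j / E) : ℤ) : ℝ) := by rw [hf]
    rw [h3]
    have := mul_le_mul_of_nonneg_left h1 hE0.le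
    linarith
  obtain ⟨u, hu⟩ : ∃ u : Fin ρ → ℤ, u = fun j => (E : ℤ) * f j - ((R + 1 : ℕ) : ℤ) * e j :=
    ⟨_, rfl⟩
  have hu1 : ∀ j, |(u j : ℝ)| ≤ E / 2 := by
    intro j
    rw [hu]
    push_cast
    exact hfu j
  have h1 : H (fun j => ((E : ℕ) : ℤ) * f j) ≤ H (fun j => ((R + 1 : ℕ) : ℤ) * e j) + H u := by
    have h2 : (fun j => ((E : ℕ) : ℤ) * f j) = (fun j => ((R + 1 : ℕ) : ℤ) * e j) + u := by
      funext j
      rw [Pi.add_apply, hu]
      ring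
    rw [h2]
    exact hadd _ _
  rw [hsmul, hsmul] at h1
  have h2 := hle u (E / 2) hu1 (by positivity)
  push_cast at h1
  have h3 : (E : ℝ) * H f ≤ E * (1 + A) := by nlinarith
  have h4 : H f ≤ 1 + A := le_of_mul_le_mul_left h3 hE0
  have h5 := hR f h4 j1
  have h6 : |(f j1 : ℝ)| ≤ R := by
    have h7 : (((f j1).natAbs : ℕ) : ℝ) ≤ R := by exact_mod_cast h5
    rwa [Nat.cast_natAbs, Int.cast_abs] at h7
  have h7 := hfu j1
  have h8 : |((R : ℝ) + 1) * e j1| = ((R : ℝ) + 1) * E := by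
    rw [abs_mul, hEr, abs_of_nonneg (by positivity)]
  have h9 : |(E : ℝ) * f j1| ≤ E * R := by
    rw [abs_mul, abs_of_pos hE0]
    exact mul_le_mul_of_nonneg_left h6 hE0.le
  have h10 : |((R : ℝ) + 1) * e j1| ≤ |(E : ℝ) * f j1| +
      |(E : ℝ) * f j1 - ((R : ℝ) + 1) * e j1| := by
    have h11 := abs_sub_abs_le_abs_sub (((R : ℝ) + 1) * e j1) ((E : ℝ) * f j1)
    rw [abs_sub_comm (((R : ℝ) + 1) * e j1)] at h11
    linarith
  rw [h8] at h10
  nlinarith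

/-- a basis modulo torsion -/
theorem exists_basis {A : Type} [AddCommGroup A] (hA : AddGroup.FG A) (r : ℕ)
    (hr : r = Module.finrank ℤ A) :
    ∃ (e : Fin r → A) (R : Finset A),
      (∀ x, ∃ ω ∈ R, ∃ n : Fin r → ℤ, x = ω + ∑ j, n j • e j) ∧
      (∀ n : Fin r → ℤ, ∑ j, n j • e j = 0 → n = 0) := by
  classical
  haveI := hA
  haveI : Module.Finite ℤ A := Module.Finite.iff_addGroup_fg.2 inferInstance
  haveI : Module.Free ℤ (A ⧸ Submodule.torsion ℤ A) := inferInstance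
  have hfr : Module.finrank ℤ (A ⧸ Submodule.torsion ℤ A) = r := by
    rw [hr]
    exact finrank_quotient_eq_of_le_torsion le_rfl
  let b := Module.finBasisOfFinrankEq ℤ (A ⧸ Submodule.torsion ℤ A) hfr
  have hlift : ∀ j : Fin r, ∃ a : A, (Submodule.torsion ℤ A).mkQ a = b j :=
    fun j => Submodule.mkQ_surjective _ (b j)
  choose a ha using hlift
  haveI : Finite (Submodule.torsion ℤ A) := by
    refine Module.finite_of_fg_torsion _ ?_
    exact Submodule.torsion_isTorsion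
  haveI : Fintype (Submodule.torsion ℤ A) := Fintype.ofFinite _
  refine ⟨a, (Finset.univ : Finset (Submodule.torsion ℤ A)).image
    (fun t : Submodule.torsion ℤ A => (t : A)), ?_, ?_⟩
  · intro z
    obtain ⟨e, he⟩ : ∃ e : Fin r → ℤ,
      e = fun j => b.repr ((Submodule.torsion ℤ A).mkQ z) j := ⟨_, rfl⟩
    have h1 : z - ∑ j, e j • a j ∈ Submodule.torsion ℤ A := by
      rw [← Submodule.ker_mkQ (Submodule.torsion ℤ A), LinearMap.mem_ker, map_sub,
        map_sum, sub_eq_zero]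
      have h2 : ∑ j, (Submodule.torsion ℤ A).mkQ (e j • a j) = ∑ j, e j • b j := by
        refine sum_congr rfl ?_
        intro j _
        rw [map_zsmul, ha]
      rw [h2, he]
      exact (b.sum_repr _).symm
    refine ⟨z - ∑ j, e j • a j, ?_, e, by abel⟩
    rw [mem_image]
    exact ⟨⟨_, h1⟩, mem_univ _, rfl⟩
  · intro e h1
    have h2 : ∑ j, e j • b j = 0 := by
      have h3 := congrArg (Submodule.torsion ℤ A).mkQ h1
      rw [map_sum, map_zero] at h3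
      rw [← h3]
      refine sum_congr rfl ?_
      intro j _
      rw [map_zsmul, ha]
    have h3 := Fintype.linearIndependent_iff.1 b.linearIndependent e h2
    funext j
    exact h3 j

/-- **Coordinates and heights.** -/
theorem coords {a b : ℤ} (hD : Disc (a : ℚ) (b : ℚ)) (ρ : ℕ)
    (hρ : ρ = Module.finrank ℤ (Pt (a : ℚ) (b : ℚ))) :
    ∃ (e : Fin ρ → Pt (a : ℚ) (b : ℚ))
      (R : Finset (Pt (a : ℚ) (b : ℚ))) (c : ℝ), 1 ≤ c ∧
      (∀ x, ∃ ω ∈ R, ∃ n : Fin ρ → ℤ,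
        x = ω + ∑ j, n j • e j ∧ ∀ j, |(n j : ℝ)| ≤ c * √(hP x + 1)) ∧
      (∀ n : Fin ρ → ℤ, ∑ j, n j • e j = 0 → n = 0) ∧
      (∀ ω ∈ R, ∀ (n : Fin ρ → ℤ) (E : ℝ), 1 ≤ E →
        (∀ j, |(n j : ℝ)| ≤ E) → hP (ω + ∑ j, n j • e j) ≤ c * E ^ 2) ∧
      (∀ (n : Fin ρ → ℤ) (E : ℝ), 1 ≤ E →
        (∀ j, |(n j : ℝ)| ≤ E) → hP (∑ j, n j • e j) ≤ c * E ^ 2) := by
  classical
  obtain ⟨m, ψ, C, hψ⟩ := canon_norm hD
  obtain ⟨e, R, hR, hind⟩ := exists_basis (t_M1 a b hD) ρ hρ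
  have hC0 : 0 ≤ C := (abs_nonneg _).trans (hψ 0)
  set A : ℝ := ∑ j, ‖ψ (e j)‖ with hA
  have hA0 : 0 ≤ A := sum_nonneg fun j _ => norm_nonneg _
  set H : (Fin ρ → ℤ) → ℝ := fun n => ‖ψ (∑ j, n j • e j)‖ with hH
  have hle : ∀ (u : Fin ρ → ℤ) (E : ℝ), (∀ j, |(u j : ℝ)| ≤ E) → 0 ≤ E → H u ≤ A * E := by
    intro u E hu _
    rw [hH]
    simp only
    rw [map_sum]
    refine (norm_sum_le _ _).trans ?_
    rw [hA, sum_mul]
    refine sum_le_sum fun j _ => ?_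
    rw [map_zsmul, ← Int.cast_smul_eq_zsmul ℝ, norm_smul, Real.norm_eq_abs, mul_comm]
    exact mul_le_mul_of_nonneg_left (hu j) (norm_nonneg _)
  have hadd : ∀ u w, H (u + w) ≤ H u + H w := by
    intro u w
    rw [hH]
    simp only
    have h1 : ∑ j, (u + w) j • e j = ∑ j, u j • e j + ∑ j, w j • e j := by
      rw [← sum_add_distrib]
      exact sum_congr rfl fun j _ => by rw [Pi.add_apply, add_smul]
    rw [h1, map_add]
    exact norm_add_le _ _
  have hsmul : ∀ (k : ℕ) u, H (fun j => (k : ℤ) * u j) = k * H u := by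
    intro k u
    rw [hH]
    simp only
    have h1 : ∑ j, ((k : ℤ) * u j) • e j = (k : ℤ) • ∑ j, u j • e j := by
      rw [smul_sum]
      exact sum_congr rfl fun j _ => by rw [mul_smul]
    rw [h1, map_zsmul, ← Int.cast_smul_eq_zsmul ℝ, norm_smul, Real.norm_eq_abs]
    simp
  have hfin : {f : Fin ρ → ℤ | H f ≤ 1 + A}.Finite := by
    refine Set.Finite.of_finite_image (f := fun f : Fin ρ → ℤ => ∑ j, f j • e j)
      ((northcott ((1 + A) ^ 2 + C)).subset ?_) ?_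
    · rintro _ ⟨f, hf, rfl⟩
      rw [Set.mem_setOf_eq] at hf ⊢
      have h1 := abs_le.1 (hψ (∑ j, f j • e j))
      have h2 : ‖ψ (∑ j, f j • e j)‖ ^ 2 ≤ (1 + A) ^ 2 := pow_le_pow_left₀ (norm_nonneg _) hf 2
      simp only
      linarith
    · intro f _ f' _ hff
      simp only at hff
      have h3 : ∑ j, (f - f') j • e j = 0 := by
        have h4 : ∑ j, (f - f') j • e j = ∑ j, f j • e j - ∑ j, f' j • e j := by
          rw [← sum_sub_distrib]
          exact sum_congr rfl fun j _ => by rw [Pi.sub_apply, sub_smul]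
        rw [h4, hff, sub_self]
      exact sub_eq_zero.1 (hind _ h3)
  obtain ⟨c0, hc01, hc0⟩ := seminorm_lower H (fun _ => norm_nonneg _) hadd hsmul A hA0 hle hfin
  set D : ℝ := ∑ ω ∈ R, ‖ψ ω‖ with hDd
  have hD0 : 0 ≤ D := sum_nonneg fun _ _ => norm_nonneg _
  have hωD : ∀ ω ∈ R, ‖ψ ω‖ ≤ D := fun ω hω =>
    single_le_sum (f := fun ω => ‖ψ ω‖) (fun _ _ => norm_nonneg _) hω
  have hc0r : (1 : ℝ) ≤ c0 := by exact_mod_cast hc01
  refine ⟨e, R, c0 * (√(1 + C) + D) + ((D + A) ^ 2 + C + 1), ?_, ?_, hind, ?_, ?_⟩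
  · have : 0 ≤ (c0 : ℝ) * (√(1 + C) + D) := by positivity
    have : 0 ≤ (D + A) ^ 2 := sq_nonneg _
    linarith
  · intro x
    obtain ⟨ω, hω, n, hn⟩ := hR x
    refine ⟨ω, hω, n, hn, fun j => (hc0 n j).trans ?_⟩
    have h1 : H n ≤ ‖ψ x‖ + D := by
      rw [hH]
      simp only
      have h2 : ∑ j, n j • e j = x - ω := by rw [hn]; abel
      rw [h2, map_sub]
      exact (norm_sub_le _ _).trans (add_le_add le_rfl (hωD ω hω))
    have h2 : ‖ψ x‖ ≤ √(1 + C) * √(hP x + 1) := by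
      rw [← Real.sqrt_mul (by linarith)]
      apply Real.le_sqrt_of_sq_le
      have h3 := abs_le.1 (hψ x)
      have h4 := hP_nonneg x
      nlinarith
    have h3 : (1 : ℝ) ≤ √(hP x + 1) := by
      rw [Real.one_le_sqrt]
      have := hP_nonneg x
      linarith
    have h4 : H n ≤ (√(1 + C) + D) * √(hP x + 1) := by
      rw [add_mul]
      refine h1.trans (add_le_add h2 ?_)
      exact le_mul_of_one_le_right hD0 h3
    calc (c0 : ℝ) * H n ≤ c0 * ((√(1 + C) + D) * √(hP x + 1)) :=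
          mul_le_mul_of_nonneg_left h4 (by linarith)
      _ = c0 * (√(1 + C) + D) * √(hP x + 1) := by ring
      _ ≤ (c0 * (√(1 + C) + D) + ((D + A) ^ 2 + C + 1)) * √(hP x + 1) := by
          refine mul_le_mul_of_nonneg_right ?_ (by positivity)
          have : 0 ≤ (D + A) ^ 2 := sq_nonneg _
          linarith
  · intro ω hω n E hE hn
    have h1 : ‖ψ (ω + ∑ j, n j • e j)‖ ≤ (D + A) * E := by
      rw [map_add]
      refine (norm_add_le _ _).trans ?_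
      rw [add_mul]
      refine add_le_add ((hωD ω hω).trans (le_mul_of_one_le_right hD0 hE)) (hle n E hn (by linarith))
    have h2 := abs_le.1 (hψ (ω + ∑ j, n j • e j))
    have h3 : ‖ψ (ω + ∑ j, n j • e j)‖ ^ 2 ≤ ((D + A) * E) ^ 2 := pow_le_pow_left₀ (norm_nonneg _) h1 2
    have h4 : 0 ≤ (c0 : ℝ) * (√(1 + C) + D) := by positivity
    have h5 : (1 : ℝ) ≤ E ^ 2 := one_le_pow₀ hE
    have h6 : (0:ℝ) ≤ (c0 * (√(1 + C) + D) + C + 1) * (E ^ 2 - 1) := mul_nonneg (by linarith) (by linarith)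
    nlinarith
  · intro n E hE hn
    have h1 : ‖ψ (∑ j, n j • e j)‖ ≤ (D + A) * E := by
      refine (hle n E hn (by linarith)).trans ?_
      refine mul_le_mul_of_nonneg_right (by linarith) (by linarith)
    have h2 := abs_le.1 (hψ (∑ j, n j • e j))
    have h3 : ‖ψ (∑ j, n j • e j)‖ ^ 2 ≤ ((D + A) * E) ^ 2 := pow_le_pow_left₀ (norm_nonneg _) h1 2
    have h4 : 0 ≤ (c0 : ℝ) * (√(1 + C) + D) := by positivity
    have h5 : (1 : ℝ) ≤ E ^ 2 := one_le_pow₀ hE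
    have h6 : (0:ℝ) ≤ (c0 * (√(1 + C) + D) + C + 1) * (E ^ 2 - 1) := mul_nonneg (by linarith) (by linarith)
    nlinarith

end Pool.Agent.K9h5
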