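import Mathlib
import Pool.Agent.K9h5.Ht
import Pool.Agent.K9h5.Box
import Pool.Agent.H901R3.MS.P_PL

/-!
# The reductions of a finitely generated group: few primes have a small reduction
-/

set_option autoImplicit false
set_option linter.all false

namespace Pool.Agent.K9h5

open Pool.Agent.H901R3.MS WeierstrassCurve Finset

/-- the place of `ℚ` at `p` -/
noncomputable def vp (p : ℕ) [Fact p.Prime] : Place ℚ (ZMod p) := Classical.choice (t_PL p)

theorem exists_rd (p : ℕ) [Fact p.Prime] (a b : ℤ) (hD : Disc (a : ZMod p) (b : ZMod p)) :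
    ∃ red : Pt (a : ℚ) (b : ℚ) →+ Pt (a : ZMod p) (b : ZMod p),
      (∀ (x y : ℚ) (h : (CV (a : ℚ) (b : ℚ)).toAffine.Nonsingular x y), x ∉ (vp p).A →
        red (Affine.Point.some x y h) = Affine.Point.zero) ∧
      (∀ (x y : ℚ) (h : (CV (a : ℚ) (b : ℚ)).toAffine.Nonsingular x y), x ∈ (vp p).A →
        y ∈ (vp p).A ∧ ∃ g : (CV (a : ZMod p) (b : ZMod p)).toAffine.Nonsingular ((vp p).r x)
            ((vp p).r y),
          red (Affine.Point.some x y h) = Affine.Point.some _ _ g) ∧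
      ∀ P : Pt (a : ℚ) (b : ℚ), ∃ u : ℚ, u ≠ 0 ∧ ∀ j, u * rep P j ∈ (vp p).A ∧
        (vp p).r (u * rep P j) = rep (red P) j :=
  redK (vp p) (a : ℚ) (b : ℚ) (a : ZMod p) (b : ZMod p) ((vp p).int_mem a) ((vp p).int_mem b)
    ((vp p).r_int a) ((vp p).r_int b) hD

open Classical in
/-- the reduction homomorphism modulo `p` -/
noncomputable def rd (p : ℕ) [Fact p.Prime] (a b : ℤ) :
    Pt (a : ℚ) (b : ℚ) →+ Pt (a : ZMod p) (b : ZMod p) :=
  if h : Disc (a : ZMod p) (b : ZMod p) then Classical.choose (exists_rd p a b h) else 0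

theorem rd_spec (p : ℕ) [Fact p.Prime] (a b : ℤ) (hD : Disc (a : ZMod p) (b : ZMod p)) :
      (∀ (x y : ℚ) (h : (CV (a : ℚ) (b : ℚ)).toAffine.Nonsingular x y), x ∉ (vp p).A →
        rd p a b (Affine.Point.some x y h) = Affine.Point.zero) ∧
      (∀ (x y : ℚ) (h : (CV (a : ℚ) (b : ℚ)).toAffine.Nonsingular x y), x ∈ (vp p).A →
        y ∈ (vp p).A ∧ ∃ g : (CV (a : ZMod p) (b : ZMod p)).toAffine.Nonsingular ((vp p).r x)
            ((vp p).r y),
          rd p a b (Affine.Point.some x y h) = Affine.Point.some _ _ g) ∧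
      ∀ P : Pt (a : ℚ) (b : ℚ), ∃ u : ℚ, u ≠ 0 ∧ ∀ j, u * rep P j ∈ (vp p).A ∧
        (vp p).r (u * rep P j) = rep (rd p a b P) j := by
  have h := Classical.choose_spec (exists_rd p a b hD)
  unfold rd
  rw [dif_pos hD]
  exact h

/-- the denominator of the `x`-coordinate -/
def dn {a b : ℚ} : Pt a b → ℕ
  | Affine.Point.zero => 1
  | Affine.Point.some x _ _ => x.den

theorem dn_pos {a b : ℚ} (P : Pt a b) : 0 < dn P := by
  cases P with
  | zero => exact Nat.one_pos
  | some x y h => exact x.den_pos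

theorem log_dn {a b : ℚ} (P : Pt a b) : Real.log (dn P) ≤ hP P := by
  cases P with
  | zero =>
    show Real.log ((1 : ℕ) : ℝ) ≤ 0
    simp
  | some x y h =>
    apply Real.log_le_log
    · exact_mod_cast x.den_pos
    · exact le_max_right _ _

theorem dvd_dn (p : ℕ) [Fact p.Prime] (a b : ℤ) (hD : Disc (a : ZMod p) (b : ZMod p))
    (P : Pt (a : ℚ) (b : ℚ)) (hP0 : P ≠ 0) (h : rd p a b P = 0) : p ∣ dn P := by
  cases P with
  | zero => exact absurd rfl hP0
  | some x y hn =>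
    by_contra hc
    have hden : ((x.den : ℤ) : ZMod p) ≠ 0 := by
      intro h0
      apply hc
      have h1 : ((x.den : ℕ) : ZMod p) = 0 := by exact_mod_cast h0
      rwa [ZMod.natCast_eq_zero_iff] at h1
    have hx : x ∈ (vp p).A := by
      have h1 : x = (x.num : ℚ) / ((x.den : ℤ) : ℚ) := by
        have := Rat.num_div_den x
        push_cast
        exact this.symm
      rw [h1]
      apply (vp p).div_mem ((vp p).int_mem _)
      rw [(vp p).r_int]
      exact hden
    obtain ⟨_, g, hg⟩ := (rd_spec p a b hD).2.1 x y hn hx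
    rw [hg] at h
    cases h

theorem card_primes_dvd (D : ℕ) (hD : 0 < D) (s : Finset ℕ) (hs : ∀ p ∈ s, p.Prime ∧ p ∣ D) :
    (s.card : ℝ) * Real.log 2 ≤ Real.log D := by
  have h1 : ∏ p ∈ s, p ∣ D :=
    Finset.prod_primes_dvd D (fun p hp => (hs p hp).1.prime) (fun p hp => (hs p hp).2)
  have h2 : 2 ^ s.card ≤ ∏ p ∈ s, p := by
    rw [← Finset.prod_const]
    exact Finset.prod_le_prod' fun p hp => (hs p hp).1.two_le
  have h3 : 2 ^ s.card ≤ D := h2.trans (Nat.le_of_dvd hD h1)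
  have h4 : Real.log ((2 : ℝ) ^ s.card) ≤ Real.log D := by
    apply Real.log_le_log (by positivity)
    exact_mod_cast h3
  rwa [Real.log_pow] at h4

open Classical in
/-- the primes with a small reduction -/
theorem small_group {a b : ℤ} {ρ : ℕ} (e : Fin ρ → Pt (a : ℚ) (b : ℚ)) (c : ℝ) (hc : 1 ≤ c)
    (hind : ∀ n : Fin ρ → ℤ, ∑ j, n j • e j = 0 → n = 0)
    (hup : ∀ (n : Fin ρ → ℤ) (E : ℝ), 1 ≤ E → (∀ j, |(n j : ℝ)| ≤ E) →
      hP (∑ j, n j • e j) ≤ c * E ^ 2) :
    ∃ C : ℝ, 0 ≤ C ∧ ∀ (PP : Finset ℕ) (L : ℕ), 1 ≤ L →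
      (∀ p ∈ PP, ∃ hp : Fact p.Prime, Disc (a : ZMod p) (b : ZMod p) ∧
        (gset (fun k => @rd p hp a b (e k))).ncard < L ^ ρ) →
      (PP.card : ℝ) ≤ C * (L : ℝ) ^ (ρ + 2) := by
  refine ⟨3 ^ ρ * (c / Real.log 2), by positivity, ?_⟩
  intro PP L hL hPP
  set Bx : Finset (Fin ρ → ℤ) := Fintype.piFinset (fun _ => Finset.Icc (-(L : ℤ)) L) with hBx
  set Bx' := Bx.filter (fun v => v ≠ 0) with hBx'
  set Dv : (Fin ρ → ℤ) → ℕ := fun v => dn (∑ k, v k • e k) with hDv
  have h1 : PP ⊆ Bx'.biUnion (fun v => PP.filter (fun p => p.Prime ∧ p ∣ Dv v)) := by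
    intro p hp
    obtain ⟨hpf, hD, hcard⟩ := hPP p hp
    rw [mem_biUnion]
    -- pigeonhole
    set S := gset (fun k => rd p a b (e k)) with hS
    have hSf : S.Finite := Set.toFinite _
    obtain ⟨n, hn, n', hn', hne, heq⟩ := Finset.exists_ne_map_eq_of_card_lt_of_maps_to
      (s := Fintype.piFinset (fun _ : Fin ρ => range L)) (t := hSf.toFinset)
      (f := fun n => ∑ k, n k • rd p a b (e k)) (by
        rw [Fintype.card_piFinset, prod_const, card_range, card_univ, Fintype.card_fin]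
        rw [← Set.ncard_eq_toFinset_card S hSf]
        exact hcard) (by
        intro n _
        rw [Set.Finite.coe_toFinset]
        exact ⟨n, rfl⟩)
    set v : Fin ρ → ℤ := fun k => (n k : ℤ) - n' k with hv
    have hv0 : v ≠ 0 := by
      intro h0
      apply hne
      funext k
      have := congrFun h0 k
      rw [hv] at this
      simp only [Pi.zero_apply] at this
      omega
    refine ⟨v, ?_, ?_⟩
    · rw [hBx', mem_filter, hBx, Fintype.mem_piFinset]
      refine ⟨fun k => ?_, hv0⟩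
      rw [Fintype.mem_piFinset] at hn hn'
      have h2 := mem_range.1 (hn k)
      have h3 := mem_range.1 (hn' k)
      rw [mem_Icc, hv]
      constructor <;> simp only <;> omega
    · rw [mem_filter]
      refine ⟨hp, hpf.out, ?_⟩
      apply dvd_dn p a b hD
      · intro h0
        exact hv0 (hind v h0)
      · rw [map_sum]
        have h4 : ∀ k, rd p a b (v k • e k) = n k • rd p a b (e k) - n' k • rd p a b (e k) := by
          intro k
          rw [map_zsmul, hv]
          simp only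
          rw [sub_smul, natCast_zsmul, natCast_zsmul]
        rw [Finset.sum_congr rfl fun k _ => h4 k, Finset.sum_sub_distrib]
        exact sub_eq_zero.2 heq
  have hlog : 0 < Real.log 2 := Real.log_pos (by norm_num)
  have hLr : (1 : ℝ) ≤ L := by exact_mod_cast hL
  have h2 : ∀ v ∈ Bx', ((PP.filter (fun p => p.Prime ∧ p ∣ Dv v)).card : ℝ) ≤
      c / Real.log 2 * (L : ℝ) ^ 2 := by
    intro v hv
    have h3 := card_primes_dvd (Dv v) (dn_pos _) (PP.filter (fun p => p.Prime ∧ p ∣ Dv v))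
      (fun p hp => (mem_filter.1 hp).2)
    have h4 : Real.log (Dv v) ≤ c * (L : ℝ) ^ 2 := by
      refine (log_dn _).trans (hup v L hLr ?_)
      intro k
      rw [hBx', mem_filter, hBx, Fintype.mem_piFinset] at hv
      have := mem_Icc.1 (hv.1 k)
      rw [abs_le]
      constructor
      · exact_mod_cast this.1
      · exact_mod_cast this.2
    rw [div_mul_eq_mul_div, le_div_iff₀ hlog]
    exact h3.trans h4
  have h3 : (PP.card : ℝ) ≤ ∑ v ∈ Bx', ((PP.filter (fun p => p.Prime ∧ p ∣ Dv v)).card : ℝ) := by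
    have h4 := (card_le_card h1).trans card_biUnion_le
    exact_mod_cast h4
  refine h3.trans ((Finset.sum_le_sum h2).trans ?_)
  rw [Finset.sum_const, nsmul_eq_mul]
  have h4 : (Bx'.card : ℝ) ≤ 3 ^ ρ * (L : ℝ) ^ ρ := by
    have h5 : Bx'.card ≤ (2 * L + 1) ^ ρ := by
      refine (card_le_card (filter_subset _ _)).trans ?_
      rw [hBx, Fintype.card_piFinset, prod_const, card_univ, Fintype.card_fin, Int.card_Icc]
      apply Nat.pow_le_pow_left
      omega
    have h6 : ((2 * L + 1 : ℕ) : ℝ) ≤ 3 * L := by push_cast; linarith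
    calc (Bx'.card : ℝ) ≤ ((2 * L + 1 : ℕ) : ℝ) ^ ρ := by exact_mod_cast h5
      _ ≤ (3 * L) ^ ρ := pow_le_pow_left₀ (Nat.cast_nonneg _) h6 ρ
      _ = 3 ^ ρ * (L : ℝ) ^ ρ := mul_pow _ _ _
  calc (Bx'.card : ℝ) * (c / Real.log 2 * (L : ℝ) ^ 2) ≤
      (3 ^ ρ * (L : ℝ) ^ ρ) * (c / Real.log 2 * (L : ℝ) ^ 2) :=
        mul_le_mul_of_nonneg_right h4 (by positivity)
    _ = 3 ^ ρ * (c / Real.log 2) * (L : ℝ) ^ (ρ + 2) := by rw [pow_add]; ring

end Pool.Agent.K9h5
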