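import Mathlib
import Pool.Agent.K9h5.Ram
import Pool.Agent.K9h5.Corr4
import Pool.Agent.K9h5.Sm

/-!
# The local theorem at the prime `p`
-/

set_option autoImplicit false
set_option linter.all false

namespace Pool.Agent.K9h5

open Polynomial Pool.Agent.H901R3.MS WeierstrassCurve Finset

/-- good reduction at large primes -/
theorem disc_mod {a b : ℤ} (h : Disc (a : ℚ) (b : ℚ)) : ∃ p₀ : ℕ, ∀ (p : ℕ) [Fact p.Prime],
    p₀ ≤ p → Disc (a : ZMod p) (b : ZMod p) := by
  have h0 : 2 * (4 * a ^ 3 + 27 * b ^ 2) ≠ 0 := mul_ne_zero (by norm_num) (disc_int h)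
  refine ⟨(2 * (4 * a ^ 3 + 27 * b ^ 2)).natAbs + 1, ?_⟩
  intro p _ hp hc
  have h1 : ((2 * (4 * a ^ 3 + 27 * b ^ 2) : ℤ) : ZMod p) = 0 := by
    push_cast
    exact hc
  rw [ZMod.intCast_zmod_eq_zero_iff_dvd] at h1
  have h2 := Int.natAbs_dvd_natAbs.2 h1
  rw [Int.natAbs_natCast] at h2
  have h3 := Nat.le_of_dvd (Int.natAbs_pos.2 h0) h2
  omega

/-- the form is good at the tuple `P` of points modulo `p` of the factors other than the `j`-th -/
def Good {r : ℕ} (a b : Fin r → ℤ) (j : Fin r) (bp : MvPolynomial (Fin r × Fin 3) ℤ) (p : ℕ)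
    [Fact p.Prime] (P : ∀ i, Pt (a i : ZMod p) (b i : ZMod p)) : Prop :=
  ∃ c : Pt (a j : ZMod p) (b j : ZMod p), evF bp (fun i => rep (Function.update P j c i)) ≠ 0

/-- the form at the tuple `P` -/
noncomputable def Fm {r : ℕ} (a b : Fin r → ℤ) (F : MvPolynomial (Fin r × Fin 3) ℤ) (j : Fin r)
    (p : ℕ) [Fact p.Prime] (P : ∀ i, Pt (a i : ZMod p) (b i : ZMod p)) :
    MvPolynomial (Fin 3) (ZMod p) :=
  specF F j (fun i => rep (P i))

/-- **The local theorem.** -/
theorem local_thm {r : ℕ} (a b : Fin r → ℤ) (hD : ∀ i, Disc (a i : ℚ) (b i : ℚ))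
    (F : MvPolynomial (Fin r × Fin 3) ℤ) (l : ℕ) (hl : l.Prime) (j : Fin r) {d : ℕ}
    (hF : F.IsWeightedHomogeneous (wtj j) d) (hld : l ∣ d) (hR : Ram a b F l j) :
    ∃ (bp : MvPolynomial (Fin r × Fin 3) ℤ) (C : ℝ) (p₀ : ℕ), 0 ≤ C ∧ ∀ (p : ℕ) [Fact p.Prime],
      p₀ ≤ p → (∀ i, Disc (a i : ZMod p) (b i : ZMod p)) ∧ p ≠ 2 ∧
      (∀ S : ∀ i, Finset (Pt (a i : ZMod p) (b i : ZMod p)),
        ((badT a b p bp S).card : ℝ) ≤ C * bdT a b p S) ∧
      (l ∣ p - 1 → ∀ P : ∀ i, Pt (a i : ZMod p) (b i : ZMod p), Good a b j bp p P →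
        ∃ Bd : Finset (Pt (a j : ZMod p) (b j : ZMod p)), (Bd.card : ℝ) ≤ C ∧
          ∀ h h', h ∉ Bd → h' ∉ Bd → h + h' ∉ Bd →
            |∑ u : Pt (a j : ZMod p) (b j : ZMod p), gw l (Fm a b F j p P) u *
              gw l (Fm a b F j p P) (u + h) * gw l (Fm a b F j p P) (u + h') *
              gw l (Fm a b F j p P) (u + (h + h'))| ≤ C * √p) := by
  classical
  have hDC : Disc (a j : ℂ) (b j : ℂ) := by
    have h1 := disc_map (Rat.castHom ℂ) (hD j)
    simpa using h1
  obtain ⟨V₀, x₀, haff, hN0, hm⟩ := ram_point a b F l j hDC hF hld hR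
  obtain ⟨bp', hbp'0, hbp'⟩ := bpoly F j (a j) (b j) l hl.pos V₀ x₀ hN0 hm
  set bp : MvPolynomial (Fin r × Fin 3) ℤ := bp' * MvPolynomial.X (j, 2) with hbp
  have hev : ∀ (S : Type) [CommRing S] (V : Fin r → Fin 3 → S), evF bp V = evF bp' V * V j 2 := by
    intro S _ V
    unfold evF
    rw [hbp, MvPolynomial.eval₂_mul, MvPolynomial.eval₂_X]
  have hbp0 : evF bp V₀ ≠ 0 := by
    rw [hev, (haff j).1, mul_one]
    exact hbp'0
  obtain ⟨Cs, ps, hs⟩ := sz a b V₀ haff bp hbp0
  obtain ⟨D, hD'⟩ := degQ_spec F j (a j) (b j)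
  obtain ⟨Cc, hCc, hc⟩ := corr_four l hl d hld D
  choose q hq using fun i => disc_mod (hD i)
  refine ⟨bp, max (Cs : ℝ) Cc, max (max ps 3) (∑ i, q i), by positivity, ?_⟩
  intro p _ hp
  have hp1 : ps ≤ p := ((le_max_left _ _).trans (le_max_left _ _)).trans hp
  have hp2 : 3 ≤ p := ((le_max_right _ _).trans (le_max_left _ _)).trans hp
  have hp3 : ∀ i, q i ≤ p := fun i => ((single_le_sum (f := q) (fun _ _ => Nat.zero_le _)
    (mem_univ i)).trans (le_max_right _ _)).trans hp
  refine ⟨fun i => hq i p (hp3 i), by omega, ?_, ?_⟩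
  · intro S
    have h1 := hs p hp1 S
    have h2 : ((badT a b p bp S).card : ℝ) ≤ Cs * bdT a b p S := by exact_mod_cast h1
    exact h2.trans (mul_le_mul_of_nonneg_right (le_max_left _ _) (Nat.cast_nonneg _))
  · intro hlp P hG
    obtain ⟨c, hcne⟩ := hG
    rw [hev] at hcne
    have h1 := left_ne_zero_of_mul hcne
    have h2 := right_ne_zero_of_mul hcne
    set V : Fin r → Fin 3 → ZMod p := fun i => rep (Function.update P j c i) with hV
    have hVj : V j = rep c := by
      rw [hV]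
      simp only [Function.update_self]
    have hFm : Fm a b F j p P = specF F j V := by
      unfold Fm
      apply specF_congr
      intro i hi
      rw [hV]
      simp only
      rw [Function.update_of_ne hi]
    rw [Function.update_self] at h2
    cases hcc : c with
    | zero =>
      exfalso
      apply h2
      rw [hcc]
      simp [rep]
    | some x y h =>
      rw [hcc] at hVj
      have hx : V j 0 = x := by rw [hVj]; simp [rep]
      have hy : V j 1 = y := by rw [hVj]; simp [rep]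
      have h3 := hbp' (ZMod p) (AlgebraicClosure (ZMod p))
        (algebraMap (ZMod p) (AlgebraicClosure (ZMod p))) V h1
      rw [hx, hy, ← hFm] at h3
      have h4 : (Fm a b F j p P).IsHomogeneous d := specF_homog F j hF _
      obtain ⟨Bd, hBd, hB⟩ := hc p (by omega) hlp (a j) (b j) (hq j p (hp3 j)) (Fm a b F j p P) h4
        (fun x y => hD' (ZMod p) _ x y) x y h h3
      refine ⟨Bd, hBd.trans (le_max_right _ _), ?_⟩
      intro h h' e1 e2 e3
      exact (hB h h' e1 e2 e3).trans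
        (mul_le_mul_of_nonneg_right (le_max_right _ _) (Real.sqrt_nonneg _))

/-- multihomogeneous forms -/
theorem evF_scale {r : ℕ} {K : Type} [Field K] (F : MvPolynomial (Fin r × Fin 3) ℤ) (d : Fin r → ℕ)
    (hF : ∀ i, F.IsWeightedHomogeneous (wtj i) (d i)) (u : Fin r → K) (V : Fin r → Fin 3 → K) :
    evF F (fun i k => u i * V i k) = (∏ i, u i ^ d i) * evF F V := by
  classical
  have key : ∀ s : Finset (Fin r), evF F (fun i k => (if i ∈ s then u i else 1) * V i k) =
      (∏ i ∈ s, u i ^ d i) * evF F V := by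
    intro s
    induction s using Finset.induction_on with
    | empty => simp
    | insert i₀ s hi ih =>
      rw [prod_insert hi, mul_assoc, ← ih]
      have h1 := eval₂_weighted (Int.castRingHom K) (hF i₀) (u i₀)
        (fun v : Fin r × Fin 3 => (if v.1 ∈ s then u v.1 else 1) * V v.1 v.2)
      unfold evF
      rw [← h1]
      congr 1
      funext v
      unfold wtj
      simp only
      by_cases hv : v.1 = i₀
      · rw [hv, if_pos (mem_insert_self _ _), if_pos rfl, if_neg hi, pow_one, one_mul]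
      · rw [if_neg hv, pow_zero, one_mul]
        by_cases hvs : v.1 ∈ s
        · rw [if_pos (mem_insert_of_mem hvs), if_pos hvs]
        · rw [if_neg hvs, if_neg (by rw [mem_insert, not_or]; exact ⟨hv, hvs⟩)]
  have h1 := key univ
  simpa using h1

/-- the value at a place -/
theorem evF_place {r : ℕ} {K k : Type} [Field K] [Field k] (v : Place K k)
    (F : MvPolynomial (Fin r × Fin 3) ℤ) (V : Fin r → Fin 3 → K) (hV : ∀ i k, V i k ∈ v.A) :
    evF F V ∈ v.A ∧ v.r (evF F V) = evF F (fun i k => v.r (V i k)) := by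
  set V' : Fin r → Fin 3 → v.A := fun i k => ⟨V i k, hV i k⟩ with hV'
  have h1 : evF F V = v.A.subtype (evF F V') := by
    rw [evF_map]
    rfl
  have h2 : evF F V ∈ v.A := by
    rw [h1]
    exact (evF F V').2
  refine ⟨h2, ?_⟩
  rw [v.r_of h2]
  have h3 : (⟨evF F V, h2⟩ : v.A) = evF F V' := Subtype.ext h1
  rw [h3, evF_map]
  congr 1
  funext i k
  rw [v.r_of (hV i k)]

/-- **The local condition.** -/
theorem lift_local {r : ℕ} (a b : Fin r → ℤ) (F : MvPolynomial (Fin r × Fin 3) ℤ) (l : ℕ)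
    (hl : 1 ≤ l) (j : Fin r) (d : Fin r → ℕ) (hF : ∀ i, F.IsWeightedHomogeneous (wtj i) (d i))
    (hld : ∀ i, l ∣ d i) (p : ℕ) [Fact p.Prime] (hD : ∀ i, Disc (a i : ZMod p) (b i : ZMod p))
    (P : ∀ i, Pt (a i : ℚ) (b i : ℚ)) (w : ℚ) (hw : w ^ l = evF F (fun i => rep (P i))) :
    ∃ t : ZMod p, t ^ l = Gv (Fm a b F j p (fun i => rd p (a i) (b i) (P i)))
      (rd p (a j) (b j) (P j)) := by
  choose u hu0 huA using fun i => (rd_spec p (a i) (b i) (hD i)).2.2 (P i)
  choose e he using hld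
  have h1 := evF_scale F d hF u (fun i => rep (P i))
  obtain ⟨h2, h3⟩ := evF_place (vp p) F (fun i k => u i * rep (P i) k) (fun i k => (huA i k).1)
  have h4 : evF F (fun i k => u i * rep (P i) k) = ((∏ i, u i ^ e i) * w) ^ l := by
    rw [h1, ← hw, mul_pow]
    congr 1
    rw [← prod_pow]
    refine prod_congr rfl fun i _ => ?_
    rw [he i, ← pow_mul, mul_comm]
  rw [h4] at h2 h3
  have h5 := (vp p).mem_of_pow_mem hl h2
  refine ⟨(vp p).r ((∏ i, u i ^ e i) * w), ?_⟩
  rw [← (vp p).r_pow h5, h3]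
  unfold Gv Fm
  rw [← MvPolynomial.eval₂_id, specF_eval]
  congr 1
  funext i k
  rw [(huA i k).2]
  split_ifs with hi
  · subst hi; rfl
  · rfl

end Pool.Agent.K9h5
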