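import Mathlib
import Pool.Agent.K9h5.Sm

/-!
# Few pairs of primes have a small kernel
-/

set_option autoImplicit false
set_option linter.all false

namespace Pool.Agent.K9h5

open Pool.Agent.H901R3.MS WeierstrassCurve Finset

theorem kset_nsmul {G G' : Type} [AddCommGroup G] [AddCommGroup G'] [Fintype G] [Fintype G']
    {ρ : ℕ} (x : Fin ρ → G) (x' : Fin ρ → G') (v : Fin ρ → ℤ) (hv : ∑ k, v k • x' k = 0) :
    0 < (kset x x').ncard ∧ (kset x x').ncard • (∑ k, v k • x k) = 0 := by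
  classical
  set m := Fintype.card G * Fintype.card G' with hm
  have hG0 : 0 < Fintype.card G := Fintype.card_pos
  have hG'0 : 0 < Fintype.card G' := Fintype.card_pos
  have hm0 : 0 < m := Nat.mul_pos hG0 hG'0
  haveI : NeZero m := ⟨hm0.ne'⟩
  have hmG : ∀ u : G, m • u = 0 := by
    intro u
    rw [hm, mul_comm, mul_smul, card_nsmul_eq_zero, smul_zero]
  have hmG' : ∀ u : G', m • u = 0 := by
    intro u
    rw [hm, mul_smul, card_nsmul_eq_zero, smul_zero]
  obtain ⟨φ, hφ⟩ := exists_hom x hmG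
  obtain ⟨φ', hφ'⟩ := exists_hom x' hmG'
  have hK := map_ker_eq_kset x x' φ φ' hφ hφ'
  set K : AddSubgroup G := φ'.ker.map φ with hKdef
  have hKc : (kset x x').ncard = Nat.card K := by
    rw [← hK]
    rfl
  have hval : ∀ {A : Type} [AddCommGroup A] (hA : ∀ u : A, m • u = 0) (u : A) (t : ℤ),
      (((t : ZMod m).val : ℕ) • u) = t • u := by
    intro A _ hA u t
    have h1 : ((((t : ZMod m).val : ℕ) : ℤ) : ZMod m) = ((t : ℤ) : ZMod m) := by
      rw [Int.cast_natCast, ZMod.natCast_zmod_val]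
    rw [ZMod.intCast_eq_intCast_iff_dvd_sub] at h1
    obtain ⟨q, hq⟩ := h1
    have h2 : t = (((t : ZMod m).val : ℕ) : ℤ) + (m : ℤ) * q := by linarith
    conv_rhs => rw [h2, add_smul, mul_comm, mul_smul, natCast_zsmul, natCast_zsmul, hA, smul_zero,
      add_zero]
  have hu : (∑ k, v k • x k) ∈ K := by
    have h1 : (∑ k, v k • x k) ∈ (K : Set G) := by
      rw [hK]
      refine ⟨fun k => ((v k : ZMod m).val), ?_, ?_⟩
      · rw [← hv]
        exact Finset.sum_congr rfl fun k _ => hval hmG' _ _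
      · exact (Finset.sum_congr rfl fun k _ => hval hmG _ _).symm
    exact h1
  rw [hKc]
  refine ⟨Nat.card_pos, ?_⟩
  have h1 : Nat.card K • (⟨_, hu⟩ : K) = 0 := card_nsmul_eq_zero'
  have h2 := congrArg Subtype.val h1
  exact h2

open Classical in
/-- the pairs of primes with a small kernel -/
theorem small_kernel {a b : ℤ} {ρ : ℕ} (e : Fin ρ → Pt (a : ℚ) (b : ℚ)) (c : ℝ) (hc : 1 ≤ c)
    (hind : ∀ n : Fin ρ → ℤ, ∑ j, n j • e j = 0 → n = 0)
    (hup : ∀ (n : Fin ρ → ℤ) (E : ℝ), 1 ≤ E → (∀ j, |(n j : ℝ)| ≤ E) →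
      hP (∑ j, n j • e j) ≤ c * E ^ 2) :
    ∃ C : ℝ, 0 ≤ C ∧ ∀ (PP : Finset ℕ) (hPf : ∀ p ∈ PP, Fact p.Prime) (M t : ℕ), 1 ≤ M → 1 ≤ t →
      (∀ p ∈ PP, ∀ hp : Fact p.Prime, Disc (a : ZMod p) (b : ZMod p) ∧
        Fintype.card (Pt (a : ZMod p) (b : ZMod p)) < (M + 1) ^ ρ) →
      (((PP ×ˢ PP).filter (fun z => ∃ (h1 : Fact z.1.Prime) (h2 : Fact z.2.Prime),
        (kset (fun k => @rd z.1 h1 a b (e k)) (fun k => @rd z.2 h2 a b (e k))).ncard ≤ t)).card : ℝ) ≤
      C * PP.card * ((t : ℝ) ^ 3 * (M : ℝ) ^ 2) := by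
  refine ⟨c / Real.log 2, by positivity, ?_⟩
  intro PP hPf M t hM ht hPP
  have hlog : 0 < Real.log 2 := Real.log_pos (by norm_num)
  -- a short vector in the kernel
  have hv : ∀ p' ∈ PP, ∃ v : Fin ρ → ℤ, v ≠ 0 ∧ (∀ k, |(v k : ℝ)| ≤ M) ∧
      ∀ hp : Fact p'.Prime, ∑ k, v k • @rd p' hp a b (e k) = 0 := by
    intro p' hp'
    haveI hp := hPf p' hp'
    obtain ⟨hD, hcard⟩ := hPP p' hp' hp
    obtain ⟨n, hn, n', hn', hne, heq⟩ := Finset.exists_ne_map_eq_of_card_lt_of_maps_to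
      (s := Fintype.piFinset (fun _ : Fin ρ => range (M + 1)))
      (t := (univ : Finset (Pt (a : ZMod p') (b : ZMod p'))))
      (f := fun n => ∑ k, n k • rd p' a b (e k)) (by
        rw [Fintype.card_piFinset, prod_const, card_range, Finset.card_univ (α := Fin ρ),
          Fintype.card_fin, card_univ]
        exact hcard) (by
        intro n _
        exact mem_coe.2 (mem_univ _))
    refine ⟨fun k => (n k : ℤ) - n' k, ?_, ?_, ?_⟩
    · intro h0
      apply hne
      funext k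
      have := congrFun h0 k
      simp only [Pi.zero_apply] at this
      omega
    · intro k
      rw [Fintype.mem_piFinset] at hn hn'
      have h2 := mem_range.1 (hn k)
      have h3 := mem_range.1 (hn' k)
      have h4 : |((n k : ℤ) - n' k)| ≤ M := by
        rw [abs_le]
        constructor <;> omega
      exact_mod_cast h4
    · intro hp2
      have h4 : ∀ k, ((n k : ℤ) - n' k) • rd p' a b (e k) =
          n k • rd p' a b (e k) - n' k • rd p' a b (e k) := by
        intro k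
        rw [sub_smul, natCast_zsmul, natCast_zsmul]
      rw [Finset.sum_congr rfl fun k _ => h4 k, Finset.sum_sub_distrib]
      exact sub_eq_zero.2 heq
  choose! v hv0 hvM hvz using hv
  set Dv : ℕ → ℕ → ℕ := fun p' s => dn (∑ k, ((s : ℤ) * v p' k) • e k) with hDv
  have h1 : (PP ×ˢ PP).filter (fun z => ∃ (h1 : Fact z.1.Prime) (h2 : Fact z.2.Prime),
        (kset (fun k => @rd z.1 h1 a b (e k)) (fun k => @rd z.2 h2 a b (e k))).ncard ≤ t) ⊆
      PP.biUnion (fun p' => (Finset.Icc 1 t).biUnion (fun s =>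
        (PP.filter (fun p => p.Prime ∧ p ∣ Dv p' s)).image (fun p => (p, p')))) := by
    rintro ⟨p, p'⟩ hz
    rw [mem_filter, mem_product] at hz
    obtain ⟨⟨hp, hp'⟩, hfp, hfp', hK⟩ := hz
    simp only at hp hp' hfp hfp' hK
    rw [mem_biUnion]
    refine ⟨p', hp', ?_⟩
    rw [mem_biUnion]
    obtain ⟨hk1, hk2⟩ := kset_nsmul (fun k => rd p a b (e k)) (fun k => rd p' a b (e k)) (v p')
      (hvz p' hp' hfp')
    set s := (kset (fun k => rd p a b (e k)) (fun k => rd p' a b (e k))).ncard with hs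
    refine ⟨s, mem_Icc.2 ⟨hk1, hK⟩, ?_⟩
    rw [mem_image]
    refine ⟨p, mem_filter.2 ⟨hp, hfp.out, ?_⟩, rfl⟩
    apply dvd_dn p a b (hPP p hp hfp).1
    · intro h0
      have h2 := hind _ h0
      apply hv0 p' hp'
      funext k
      have h3 := congrFun h2 k
      simp only [Pi.zero_apply, mul_eq_zero] at h3
      rcases h3 with h3 | h3
      · omega
      · exact h3
    · rw [map_sum]
      have h4 : ∀ k, rd p a b (((s : ℤ) * v p' k) • e k) = s • (v p' k • rd p a b (e k)) := by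
        intro k
        rw [map_zsmul, mul_smul, natCast_zsmul]
      rw [Finset.sum_congr rfl fun k _ => h4 k, ← Finset.smul_sum]
      exact hk2
  have hMr : (1 : ℝ) ≤ M := by exact_mod_cast hM
  have htr : (1 : ℝ) ≤ t := by exact_mod_cast ht
  have h2 : ∀ p' ∈ PP, ∀ s ∈ Finset.Icc 1 t,
      ((PP.filter (fun p => p.Prime ∧ p ∣ Dv p' s)).card : ℝ) ≤
        c / Real.log 2 * ((t : ℝ) * M) ^ 2 := by
    intro p' hp' s hs
    rw [mem_Icc] at hs
    have h3 := card_primes_dvd (Dv p' s) (dn_pos _) (PP.filter (fun p => p.Prime ∧ p ∣ Dv p' s))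
      (fun p hp => (mem_filter.1 hp).2)
    have h4 : Real.log (Dv p' s) ≤ c * ((t : ℝ) * M) ^ 2 := by
      refine (log_dn _).trans (hup _ _ (by nlinarith) ?_)
      intro k
      rw [Int.cast_mul, abs_mul]
      refine mul_le_mul ?_ (hvM p' hp' k) (abs_nonneg _) (by linarith)
      rw [Int.cast_natCast, Nat.abs_cast]
      exact_mod_cast hs.2
    rw [div_mul_eq_mul_div, le_div_iff₀ hlog]
    exact h3.trans h4
  have h3 : (((PP ×ˢ PP).filter (fun z => ∃ (h1 : Fact z.1.Prime) (h2 : Fact z.2.Prime),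
        (kset (fun k => @rd z.1 h1 a b (e k)) (fun k => @rd z.2 h2 a b (e k))).ncard ≤ t)).card : ℝ) ≤
      ∑ p' ∈ PP, ∑ s ∈ Finset.Icc 1 t, ((PP.filter (fun p => p.Prime ∧ p ∣ Dv p' s)).card : ℝ) := by
    have h4 : ((PP ×ˢ PP).filter (fun z => ∃ (h1 : Fact z.1.Prime) (h2 : Fact z.2.Prime),
        (kset (fun k => @rd z.1 h1 a b (e k)) (fun k => @rd z.2 h2 a b (e k))).ncard ≤ t)).card ≤
      ∑ p' ∈ PP, ∑ s ∈ Finset.Icc 1 t, (PP.filter (fun p => p.Prime ∧ p ∣ Dv p' s)).card := by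
      refine (card_le_card h1).trans (card_biUnion_le.trans (Finset.sum_le_sum fun p' _ => ?_))
      exact card_biUnion_le.trans (Finset.sum_le_sum fun s _ => card_image_le)
    exact_mod_cast h4
  refine h3.trans ((Finset.sum_le_sum fun p' hp' => Finset.sum_le_sum (h2 p' hp')).trans ?_)
  rw [Finset.sum_const, Finset.sum_const, Nat.card_Icc, Nat.add_sub_cancel, nsmul_eq_mul,
    nsmul_eq_mul]
  refine le_of_eq ?_
  ring

end Pool.Agent.K9h5
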