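import Mathlib
import Pool.Agent.K9h5.Loc

/-!
# Few tuples are not good
-/

set_option autoImplicit false
set_option linter.all false

namespace Pool.Agent.K9h5

open Pool.Agent.H901R3.MS WeierstrassCurve Finset

theorem fib_ord {G : Type} [AddCommGroup G] [Fintype G] [DecidableEq G] (x y : G) (T : ℕ)
    (hT : addOrderOf y ≤ T) (Q : G) :
    (((range T).filter (fun n : ℕ => x + n • y = Q)).card : ℝ) ≤ 2 * T / addOrderOf y := by
  set o := addOrderOf y with ho
  have ho0 : 0 < o := addOrderOf_pos y
  have hor : (0 : ℝ) < o := by exact_mod_cast ho0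
  have hTo : (1 : ℝ) ≤ T / o := by
    rw [one_le_div hor]
    exact_mod_cast hT
  by_cases hne : ((range T).filter (fun n : ℕ => x + n • y = Q)).Nonempty
  · obtain ⟨n₀, hn₀⟩ := hne
    rw [mem_filter] at hn₀
    have h1 : (range T).filter (fun n : ℕ => x + n • y = Q) ⊆
        (range T).filter (fun n : ℕ => (n : ZMod o) = (n₀ : ZMod o)) := by
      intro n hn
      rw [mem_filter] at hn ⊢
      refine ⟨hn.1, ?_⟩
      have h2 : n • y = n₀ • y := add_left_cancel (hn.2.trans hn₀.2.symm)
      rw [ZMod.natCast_eq_natCast_iff]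
      exact (nsmul_eq_nsmul_iff_modEq).1 h2
    have h2 : (((range T).filter (fun n : ℕ => x + n • y = Q)).card : ℝ) ≤
        ((range T).filter (fun n : ℕ => (n : ZMod o) = (n₀ : ZMod o))).card := by
      exact_mod_cast card_le_card h1
    have h3 := (abs_le.1 (card_class ho0 T (n₀ : ZMod o))).2
    have h4 : 2 * (T : ℝ) / o = T / o + T / o := by ring
    rw [h4]
    linarith
  · rw [not_nonempty_iff_eq_empty] at hne
    rw [hne, card_empty, Nat.cast_zero]
    positivity

theorem img_ord {G : Type} [AddCommGroup G] [Fintype G] [DecidableEq G] (x y : G) (T : ℕ) :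
    ((range T).image (fun n : ℕ => x + n • y)).card ≤ addOrderOf y := by
  have h1 : (range T).image (fun n : ℕ => x + n • y) ⊆
      (range (addOrderOf y)).image (fun n : ℕ => x + n • y) := by
    intro u hu
    rw [mem_image] at hu ⊢
    obtain ⟨n, _, rfl⟩ := hu
    refine ⟨n % addOrderOf y, mem_range.2 (Nat.mod_lt _ (addOrderOf_pos y)), ?_⟩
    rw [mod_addOrderOf_nsmul]
  refine (card_le_card h1).trans (card_image_le.trans ?_)
  rw [card_range]

open Classical in
/-- the tuples which are not good are few -/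
theorem not_good_card {r : ℕ} (a b : Fin r → ℤ) (j : Fin r)
    (bp : MvPolynomial (Fin r × Fin 3) ℤ) (C : ℝ) (hC : 0 ≤ C) (p : ℕ) [Fact p.Prime]
    (hsz : ∀ S : ∀ i, Finset (Pt (a i : ZMod p) (b i : ZMod p)),
      ((badT a b p bp S).card : ℝ) ≤ C * bdT a b p S)
    (x y : ∀ i, Pt (a i : ZMod p) (b i : ZMod p)) (T : ℕ) (R : ℝ) (hR : 0 < R)
    (hG : ∀ i, Fintype.card (Pt (a i : ZMod p) (b i : ZMod p)) ≤ T)
    (hy : ∀ i, i ≠ j → R ≤ addOrderOf (y i))
    (hj : R ≤ Fintype.card (Pt (a j : ZMod p) (b j : ZMod p))) :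
    (((Fintype.piFinset (fun i => range (if i = j then 1 else T))).filter
      (fun n => ¬ Good a b j bp p (fun i => x i + n i • y i))).card : ℝ) ≤
      C * 2 ^ r * r / R * (T : ℝ) ^ (r - 1) := by
  set G : Fin r → Type := fun i => Pt (a i : ZMod p) (b i : ZMod p) with hGdef
  set g : ℝ := (Fintype.card (Pt (a j : ZMod p) (b j : ZMod p)) : ℝ) with hg
  have hg0 : 0 < g := lt_of_lt_of_le hR hj
  set NB := (Fintype.piFinset (fun i => range (if i = j then 1 else T))).filter
      (fun n => ¬ Good a b j bp p (fun i => x i + n i • y i)) with hNB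
  set S : ∀ i, Finset (Pt (a i : ZMod p) (b i : ZMod p)) := fun i =>
    if i = j then univ else (range T).image (fun n : ℕ => x i + n • y i) with hS
  set O : Fin r → ℝ := fun i => if i = j then g else (addOrderOf (y i) : ℝ) with hO
  have hO0 : ∀ i, 0 < O i := by
    intro i
    rw [hO]
    simp only
    split_ifs with hi
    · exact hg0
    · exact lt_of_lt_of_le hR (hy i hi)
  have hOR : ∀ i, R ≤ O i := by
    intro i
    rw [hO]
    simp only
    split_ifs with hi
    · exact hj
    · exact hy i hi
  have hSO : ∀ i, ((S i).card : ℝ) ≤ O i := by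
    intro i
    rw [hS, hO]
    simp only
    split_ifs with hi
    · subst hi
      rw [hg, card_univ]
    · exact_mod_cast img_ord (x i) (y i) T
  set M : Fin r → ℝ := fun i => if i = j then 1 else 2 * T / addOrderOf (y i) with hM
  have hM0 : ∀ i, 0 ≤ M i := by
    intro i
    rw [hM]
    simp only
    split_ifs
    · norm_num
    · positivity
  -- the fibres
  set Z := badT a b p bp S with hZ
  have hmaps : ∀ z ∈ NB ×ˢ (univ : Finset (Pt (a j : ZMod p) (b j : ZMod p))),
      Function.update (fun i => x i + z.1 i • y i) j z.2 ∈ Z := by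
    rintro ⟨n, c⟩ hz
    rw [mem_product, hNB, mem_filter] at hz
    obtain ⟨⟨hn, hng⟩, _⟩ := hz
    simp only at hn hng ⊢
    rw [hZ, badT, mem_filter, Fintype.mem_piFinset]
    constructor
    · intro i
      rw [hS]
      simp only
      by_cases hi : i = j
      · rw [if_pos hi]; exact mem_univ _
      · rw [if_neg hi, Function.update_of_ne hi, mem_image]
        rw [Fintype.mem_piFinset] at hn
        have h1 := hn i
        rw [if_neg hi] at h1
        exact ⟨n i, h1, rfl⟩
    · by_contra hc
      exact hng ⟨c, hc⟩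
  have hfib : ∀ Q ∈ Z, (((NB ×ˢ (univ : Finset (Pt (a j : ZMod p) (b j : ZMod p)))).filter
      (fun z => Function.update (fun i => x i + z.1 i • y i) j z.2 = Q)).card : ℝ) ≤ ∏ i, M i := by
    intro Q _
    set W : Fin r → Finset ℕ := fun i => (range (if i = j then 1 else T)).filter
      (fun n => i = j ∨ x i + n • y i = Q i) with hW
    have h1 : ((NB ×ˢ (univ : Finset (Pt (a j : ZMod p) (b j : ZMod p)))).filter
      (fun z => Function.update (fun i => x i + z.1 i • y i) j z.2 = Q)).card ≤
        (Fintype.piFinset W).card := by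
      refine card_le_card_of_injOn (fun z => z.1) ?_ ?_
      · rintro ⟨n, c⟩ hz
        rw [mem_coe, mem_filter, mem_product, hNB, mem_filter] at hz
        obtain ⟨⟨⟨hn, _⟩, _⟩, hQ⟩ := hz
        simp only at hn hQ ⊢
        rw [mem_coe, Fintype.mem_piFinset]
        intro i
        rw [hW, mem_filter]
        rw [Fintype.mem_piFinset] at hn
        refine ⟨hn i, ?_⟩
        by_cases hi : i = j
        · left; exact hi
        · right
          have h2 := congrFun hQ i
          rw [Function.update_of_ne hi] at h2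
          exact h2
      · rintro ⟨n, c⟩ hz ⟨n', c'⟩ hz' hnn
        rw [mem_coe, mem_filter] at hz hz'
        simp only at hnn hz hz'
        have h2 := congrFun hz.2 j
        have h3 := congrFun hz'.2 j
        rw [Function.update_self] at h2 h3
        rw [hnn, h2, h3]
    have h2 : (((Fintype.piFinset W).card : ℕ) : ℝ) ≤ ∏ i, M i := by
      rw [Fintype.card_piFinset]
      push_cast
      refine prod_le_prod (fun i _ => Nat.cast_nonneg _) fun i _ => ?_
      rw [hW, hM]
      simp only
      by_cases hi : i = j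
      · rw [if_pos hi, if_pos hi]
        have h3 : ((range 1).filter (fun n => i = j ∨ x i + n • y i = Q i)).card ≤ 1 :=
          (card_filter_le _ _).trans (by simp)
        exact_mod_cast h3
      · rw [if_neg hi, if_neg hi]
        have h3 := fib_ord (x i) (y i) T ((addOrderOf_le_card_univ).trans (hG i)) (Q i)
        refine le_trans ?_ h3
        have h4 : (range T).filter (fun n => i = j ∨ x i + n • y i = Q i) ⊆
            (range T).filter (fun n => x i + n • y i = Q i) := by
          intro n hn
          rw [mem_filter] at hn ⊢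
          exact ⟨hn.1, hn.2.resolve_left hi⟩
        exact_mod_cast card_le_card h4
    have h3 : (((NB ×ˢ (univ : Finset (Pt (a j : ZMod p) (b j : ZMod p)))).filter
      (fun z => Function.update (fun i => x i + z.1 i • y i) j z.2 = Q)).card : ℝ) ≤
        ((Fintype.piFinset W).card : ℕ) := by exact_mod_cast h1
    exact h3.trans h2
  have hcnt : (NB.card : ℝ) * g ≤ (Z.card : ℝ) * ∏ i, M i := by
    have h1 := card_eq_sum_card_fiberwise hmaps
    rw [card_product, card_univ] at h1
    have h2 : (NB.card : ℝ) * g = ∑ Q ∈ Z,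
        (((NB ×ˢ (univ : Finset (Pt (a j : ZMod p) (b j : ZMod p)))).filter
      (fun z => Function.update (fun i => x i + z.1 i • y i) j z.2 = Q)).card : ℝ) := by
      rw [hg]
      exact_mod_cast h1
    rw [h2]
    refine (sum_le_sum hfib).trans ?_
    rw [sum_const, nsmul_eq_mul]
  have hbd : (bdT a b p S : ℝ) ≤ (r : ℝ) / R * ∏ i, O i := by
    unfold bdT
    push_cast
    have h1 : ∀ i ∈ (univ : Finset (Fin r)), (∏ i' ∈ univ.erase i, ((S i').card : ℝ)) ≤
        1 / R * ∏ i', O i' := by
      intro i _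
      have h2 : (∏ i' ∈ univ.erase i, ((S i').card : ℝ)) ≤ ∏ i' ∈ univ.erase i, O i' :=
        prod_le_prod (fun i' _ => Nat.cast_nonneg _) fun i' _ => hSO i'
      have h3 := mul_prod_erase (univ : Finset (Fin r)) O (mem_univ i)
      have h4 : 0 ≤ ∏ i' ∈ univ.erase i, O i' := prod_nonneg fun i' _ => (hO0 i').le
      refine h2.trans ?_
      rw [← h3, ← mul_assoc]
      refine le_mul_of_one_le_left h4 ?_
      rw [one_div, inv_mul_eq_div, one_le_div hR]
      exact hOR i
    refine (sum_le_sum h1).trans ?_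
    rw [sum_const, card_univ, Fintype.card_fin, nsmul_eq_mul]
    refine le_of_eq ?_
    ring
  have hMO : (∏ i, M i) * (∏ i, O i) ≤ g * (2 ^ r * (T : ℝ) ^ (r - 1)) := by
    rw [← prod_mul_distrib, ← mul_prod_erase (univ : Finset (Fin r)) _ (mem_univ j)]
    have h1 : M j * O j = g := by
      rw [hM, hO]
      simp
    rw [h1]
    refine mul_le_mul_of_nonneg_left ?_ hg0.le
    have h2 : ∀ i ∈ univ.erase j, M i * O i = 2 * T := by
      intro i hi
      rw [mem_erase] at hi
      have h3 : (0 : ℝ) < addOrderOf (y i) := lt_of_lt_of_le hR (hy i hi.1)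
      rw [hM, hO]
      simp only
      rw [if_neg hi.1, if_neg hi.1, div_mul_cancel₀ _ h3.ne']
    rw [prod_congr rfl h2, prod_const, card_erase_of_mem (mem_univ _), card_univ, Fintype.card_fin,
      mul_pow]
    refine mul_le_mul_of_nonneg_right ?_ (by positivity)
    exact pow_le_pow_right₀ (by norm_num) (Nat.sub_le _ _)
  have hPM : 0 ≤ ∏ i, M i := prod_nonneg fun i _ => hM0 i
  have hfin : (NB.card : ℝ) * g ≤ (C * 2 ^ r * r / R * (T : ℝ) ^ (r - 1)) * g := by
    calc (NB.card : ℝ) * g ≤ (Z.card : ℝ) * ∏ i, M i := hcnt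
      _ ≤ (C * bdT a b p S) * ∏ i, M i := mul_le_mul_of_nonneg_right (hsz S) hPM
      _ ≤ (C * ((r : ℝ) / R * ∏ i, O i)) * ∏ i, M i :=
          mul_le_mul_of_nonneg_right (mul_le_mul_of_nonneg_left hbd hC) hPM
      _ = C * r / R * ((∏ i, M i) * ∏ i, O i) := by ring
      _ ≤ C * r / R * (g * (2 ^ r * (T : ℝ) ^ (r - 1))) :=
          mul_le_mul_of_nonneg_left hMO (by positivity)
      _ = (C * 2 ^ r * r / R * (T : ℝ) ^ (r - 1)) * g := by ring
  exact le_of_mul_le_mul_right hfin hg0

end Pool.Agent.K9h5
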