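import Mathlib
import Pool.Agent.K9h5.Kp
import Pool.Agent.K9h5.Mult
import Pool.Agent.N120.TC.P

/-!
# The primes
-/

set_option autoImplicit false
set_option linter.all false

namespace Pool.Agent.K9h5

open Pool.Agent.H901R3.MS WeierstrassCurve Finset Filter

/-- independent points with bounded heights -/
def HB {a b : ℤ} {ρ : ℕ} (e : Fin ρ → Pt (a : ℚ) (b : ℚ)) (c : ℝ) : Prop :=
  1 ≤ c ∧ (∀ n : Fin ρ → ℤ, ∑ k, n k • e k = 0 → n = 0) ∧
    ∀ (n : Fin ρ → ℤ) (E : ℝ), 1 ≤ E → (∀ k, |(n k : ℝ)| ≤ E) → hP (∑ k, n k • e k) ≤ c * E ^ 2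

theorem gset_one {G : Type} [AddCommGroup G] [Fintype G] (y : G) :
    (gset (fun _ : Fin 1 => y)).ncard ≤ addOrderOf y := by
  classical
  have h1 : gset (fun _ : Fin 1 => y) ⊆
      (((range (addOrderOf y)).image (fun n : ℕ => n • y) : Finset G) : Set G) := by
    rintro u ⟨n, rfl⟩
    rw [Fin.sum_univ_one, mem_coe, mem_image]
    refine ⟨n 0 % addOrderOf y, mem_range.2 (Nat.mod_lt _ (addOrderOf_pos y)), ?_⟩
    rw [mod_addOrderOf_nsmul]
  refine (Set.ncard_le_ncard h1 (Finset.finite_toSet _)).trans ?_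
  rw [Set.ncard_coe_finset]
  exact card_image_le.trans (by rw [card_range])

theorem floor_ge {x : ℝ} (hx : 1 ≤ x) : x / 2 ≤ (⌊x⌋₊ : ℝ) ∧ 1 ≤ ⌊x⌋₊ := by
  have h1 : 1 ≤ ⌊x⌋₊ := by
    apply Nat.le_floor
    simpa using hx
  have h2 : (1 : ℝ) ≤ ⌊x⌋₊ := by exact_mod_cast h1
  have h3 := Nat.lt_floor_add_one x
  refine ⟨by linarith, h1⟩

/-- the comparison of powers -/
theorem ev_pow {s t : ℝ} (C : ℝ) (hst : s < t) : ∀ᶠ X : ℕ in atTop, C * (X : ℝ) ^ s ≤ (X : ℝ) ^ t := by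
  have h1 : Tendsto (fun X : ℕ => (X : ℝ) ^ (t - s)) atTop atTop :=
    (tendsto_rpow_atTop (by linarith)).comp tendsto_natCast_atTop_atTop
  filter_upwards [h1.eventually_ge_atTop C, eventually_ge_atTop 1] with X hX hX1
  have hX0 : (0 : ℝ) < X := by exact_mod_cast hX1
  have h2 : (X : ℝ) ^ t = (X : ℝ) ^ (t - s) * (X : ℝ) ^ s := by
    rw [← Real.rpow_add hX0]
    congr 1; ring
  rw [h2]
  exact mul_le_mul_of_nonneg_right hX (Real.rpow_nonneg hX0.le _)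

theorem ev_log {t c : ℝ} (ht : 0 < t) (hc : 0 < c) :
    ∀ᶠ X : ℕ in atTop, Real.log X ≤ c * (X : ℝ) ^ t := by
  have h1 := (isLittleO_log_rpow_atTop ht).comp_tendsto tendsto_natCast_atTop_atTop
  have h2 := h1.bound hc
  filter_upwards [h2, eventually_ge_atTop 1] with X hX hX1
  simp only [Function.comp] at hX
  have hX0 : (1 : ℝ) ≤ X := by exact_mod_cast hX1
  rw [Real.norm_eq_abs, Real.norm_eq_abs, abs_of_nonneg (Real.log_nonneg hX0),
    abs_of_nonneg (Real.rpow_nonneg (by linarith) _)] at hX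
  exact hX

open Classical in
/-- **The primes.** -/
theorem primes_exist {r : ℕ} (a b : Fin r → ℤ) (j : Fin r) (l : ℕ) (hl : 1 ≤ l)
    (e : ∀ i, Pt (a i : ℚ) (b i : ℚ)) (e' : Fin 3 → Pt (a j : ℚ) (b j : ℚ)) (c : ℝ)
    (he : ∀ i, i ≠ j → HB (fun _ : Fin 1 => e i) c) (he' : HB e' c) (p₀ : ℕ)
    (hp₀ : ∀ (p : ℕ) [Fact p.Prime], p₀ ≤ p → ∀ i, Disc (a i : ZMod p) (b i : ZMod p)) :
    ∃ X₀ : ℕ, ∀ X : ℕ, X₀ ≤ X → ∃ PP : Finset ℕ,
      (∀ p ∈ PP, p.Prime ∧ l ∣ p - 1 ∧ p₀ ≤ p ∧ p ≤ X ∧ ∀ hp : Fact p.Prime,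
        (∀ i, i ≠ j → (X : ℝ) ^ (33 / 100 : ℝ) / 2 ≤ addOrderOf (@rd p hp (a i) (b i) (e i))) ∧
        (X : ℝ) ^ (594 / 1000 : ℝ) / 8 ≤
          ((gset (fun k => @rd p hp (a j) (b j) (e' k))).ncard : ℝ)) ∧
      (X : ℝ) ^ (995 / 1000 : ℝ) ≤ PP.card := by
  obtain ⟨κ, cP, hκ, hκ', hcP, TP, hTP⟩ := Pool.Agent.N120.TC.t_P l hl
  -- the exceptional sets
  have hi : ∀ i : Fin r, ∃ C : ℝ, 0 ≤ C ∧ (i ≠ j → ∀ (PP : Finset ℕ) (L : ℕ), 1 ≤ L →
      (∀ p ∈ PP, ∃ hp : Fact p.Prime, Disc (a i : ZMod p) (b i : ZMod p) ∧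
        (gset (fun _ : Fin 1 => @rd p hp (a i) (b i) (e i))).ncard < L ^ 1) →
      (PP.card : ℝ) ≤ C * (L : ℝ) ^ (1 + 2)) := by
    intro i
    by_cases h : i = j
    · exact ⟨0, le_rfl, fun h' => absurd h h'⟩
    · obtain ⟨C, hC, hC'⟩ := small_group (fun _ : Fin 1 => e i) c (he i h).1 (he i h).2.1 (he i h).2.2
      exact ⟨C, hC, fun _ => hC'⟩
  choose Ci hCi hCi' using hi
  obtain ⟨Cj, hCj, hCj'⟩ := small_group e' c he'.1 he'.2.1 he'.2.2
  set CC : ℝ := (∑ i, Ci i) + Cj + p₀ with hCC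
  have hCC0 : 0 ≤ CC := by
    have : 0 ≤ ∑ i, Ci i := sum_nonneg fun i _ => hCi i
    positivity
  have hev := (ev_log (t := 1 / 1000) (c := cP / 2) (by norm_num) (by positivity)).and
    ((ev_pow (s := 99 / 100) (t := 999 / 1000) CC (by norm_num)).and
      ((ev_pow (s := 995 / 1000) (t := 999 / 1000) 1 (by norm_num)).and
        ((eventually_ge_atTop TP).and (eventually_ge_atTop 3))))
  rw [eventually_atTop] at hev
  obtain ⟨X₀, hX₀⟩ := hev
  refine ⟨X₀, fun X hX => ?_⟩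
  obtain ⟨h1, h2, h3, h4, h5⟩ := hX₀ X hX
  have hXr : (3 : ℝ) ≤ X := by exact_mod_cast h5
  have hX0 : (0 : ℝ) < X := by linarith
  have hX1 : (1 : ℝ) ≤ X := by linarith
  set P0 := Pool.Agent.N120.TC.PF l X ((X : ℝ) ^ (1 / 2 + κ)) with hP0
  have hP0c := hTP X h4
  have hP0m : ∀ p ∈ P0, p.Prime ∧ l ∣ p - 1 ∧ p ≤ X := by
    intro p hp
    rw [hP0, Pool.Agent.N120.TC.PF, mem_filter, mem_range] at hp
    exact ⟨hp.2.1, hp.2.2.1, by omega⟩
  set L : ℕ := ⌊(X : ℝ) ^ (33 / 100 : ℝ)⌋₊ with hL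
  set L' : ℕ := ⌊(X : ℝ) ^ (198 / 1000 : ℝ)⌋₊ with hL'
  obtain ⟨hL1, hL2⟩ := floor_ge (Real.one_le_rpow hX1 (by norm_num : (0 : ℝ) ≤ 33 / 100))
  obtain ⟨hL1', hL2'⟩ := floor_ge (Real.one_le_rpow hX1 (by norm_num : (0 : ℝ) ≤ 198 / 1000))
  rw [← hL] at hL1 hL2
  rw [← hL'] at hL1' hL2'
  set PP := P0.filter (fun p => p₀ ≤ p ∧ ∀ hp : Fact p.Prime,
    (∀ i, i ≠ j → L ≤ addOrderOf (@rd p hp (a i) (b i) (e i))) ∧
      L' ^ 3 ≤ (gset (fun k => @rd p hp (a j) (b j) (e' k))).ncard) with hPP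
  refine ⟨PP, ?_, ?_⟩
  · intro p hp
    rw [hPP, mem_filter] at hp
    obtain ⟨h6, h7, h8⟩ := hp
    obtain ⟨h9, h10, h11⟩ := hP0m p h6
    refine ⟨h9, h10, h7, h11, ?_⟩
    intro hpf
    obtain ⟨h12, h13⟩ := h8 hpf
    refine ⟨?_, ?_⟩
    · intro i hij
      refine hL1.trans ?_
      exact_mod_cast h12 i hij
    · have h14 : ((X : ℝ) ^ (198 / 1000 : ℝ) / 2) ^ 3 ≤ (L' : ℝ) ^ 3 :=
        pow_le_pow_left₀ (by positivity) hL1' 3
      have h15 : ((X : ℝ) ^ (198 / 1000 : ℝ) / 2) ^ 3 = (X : ℝ) ^ (594 / 1000 : ℝ) / 8 := by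
        rw [div_pow, ← Real.rpow_natCast, ← Real.rpow_mul hX0.le]
        norm_num
      rw [h15] at h14
      refine h14.trans ?_
      exact_mod_cast h13
  · -- the size
    set Sm : Fin r → Finset ℕ := fun i => P0.filter (fun p => i ≠ j ∧ p₀ ≤ p ∧
      ∃ hp : Fact p.Prime, addOrderOf (@rd p hp (a i) (b i) (e i)) < L) with hSm
    set Sj : Finset ℕ := P0.filter (fun p => p₀ ≤ p ∧ ∃ hp : Fact p.Prime,
      (gset (fun k => @rd p hp (a j) (b j) (e' k))).ncard < L' ^ 3) with hSj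
    have hsub : P0 ⊆ PP ∪ (univ.biUnion Sm ∪ (Sj ∪ range p₀)) := by
      intro p hp
      by_contra hc
      simp only [mem_union, not_or, mem_biUnion, mem_univ, true_and, not_exists] at hc
      obtain ⟨c1, c2, c3, c4⟩ := hc
      apply c1
      have hpp : p₀ ≤ p := by
        rw [mem_range, not_lt] at c4
        exact c4
      rw [hPP, mem_filter]
      refine ⟨hp, hpp, ?_⟩
      intro hpf
      constructor
      · intro i hij
        by_contra hlt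
        apply c2 i
        rw [hSm, mem_filter]
        exact ⟨hp, hij, hpp, hpf, by omega⟩
      · by_contra hlt
        apply c3
        rw [hSj, mem_filter]
        exact ⟨hp, hpp, hpf, by omega⟩
    have hcS : ∀ i, ((Sm i).card : ℝ) ≤ Ci i * (X : ℝ) ^ (99 / 100 : ℝ) := by
      intro i
      by_cases hij : i = j
      · have : Sm i = ∅ := by
          rw [hSm]
          simp only
          rw [filter_eq_empty_iff]
          intro p _ h
          exact h.1 hij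
        rw [this, card_empty, Nat.cast_zero]
        exact mul_nonneg (hCi i) (by positivity)
      · have h6 := hCi' i hij (Sm i) L hL2 (by
          intro p hp
          rw [hSm, mem_filter] at hp
          obtain ⟨_, _, hpp, hpf, hlt⟩ := hp
          refine ⟨hpf, hp₀ p hpp i, ?_⟩
          rw [pow_one]
          exact (gset_one _).trans_lt hlt)
        refine h6.trans (mul_le_mul_of_nonneg_left ?_ (hCi i))
        have h7 : (L : ℝ) ≤ (X : ℝ) ^ (33 / 100 : ℝ) := Nat.floor_le (by positivity)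
        calc (L : ℝ) ^ (1 + 2) ≤ ((X : ℝ) ^ (33 / 100 : ℝ)) ^ (1 + 2) :=
              pow_le_pow_left₀ (Nat.cast_nonneg _) h7 _
          _ = (X : ℝ) ^ (99 / 100 : ℝ) := by
              rw [← Real.rpow_natCast, ← Real.rpow_mul hX0.le]
              norm_num
    have hcj : (Sj.card : ℝ) ≤ Cj * (X : ℝ) ^ (99 / 100 : ℝ) := by
      have h6 := hCj' Sj L' hL2' (by
        intro p hp
        rw [hSj, mem_filter] at hp
        obtain ⟨_, hpp, hpf, hlt⟩ := hp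
        exact ⟨hpf, hp₀ p hpp j, hlt⟩)
      refine h6.trans (mul_le_mul_of_nonneg_left ?_ hCj)
      have h7 : (L' : ℝ) ≤ (X : ℝ) ^ (198 / 1000 : ℝ) := Nat.floor_le (by positivity)
      calc (L' : ℝ) ^ (3 + 2) ≤ ((X : ℝ) ^ (198 / 1000 : ℝ)) ^ (3 + 2) :=
            pow_le_pow_left₀ (Nat.cast_nonneg _) h7 _
        _ = (X : ℝ) ^ (99 / 100 : ℝ) := by
            rw [← Real.rpow_natCast, ← Real.rpow_mul hX0.le]
            norm_num
    have hX99 : (1 : ℝ) ≤ (X : ℝ) ^ (99 / 100 : ℝ) := Real.one_le_rpow hX1 (by norm_num)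
    have hcard : (P0.card : ℝ) ≤ PP.card + CC * (X : ℝ) ^ (99 / 100 : ℝ) := by
      have k1 := card_le_card hsub
      have k2 := card_union_le PP (univ.biUnion Sm ∪ (Sj ∪ range p₀))
      have k3 := card_union_le (univ.biUnion Sm) (Sj ∪ range p₀)
      have k4 := card_union_le Sj (range p₀)
      have k5 : (univ.biUnion Sm).card ≤ ∑ i, (Sm i).card := card_biUnion_le
      rw [card_range] at k4
      have k6 : P0.card ≤ PP.card + (∑ i, (Sm i).card + (Sj.card + p₀)) := by omega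
      have k7 : (P0.card : ℝ) ≤ PP.card + (∑ i, ((Sm i).card : ℝ) + (Sj.card + p₀)) := by
        exact_mod_cast k6
      have k8 : ∑ i, ((Sm i).card : ℝ) ≤ (∑ i, Ci i) * (X : ℝ) ^ (99 / 100 : ℝ) := by
        rw [sum_mul]
        exact sum_le_sum fun i _ => hcS i
      have k9 : (p₀ : ℝ) ≤ p₀ * (X : ℝ) ^ (99 / 100 : ℝ) :=
        le_mul_of_one_le_right (Nat.cast_nonneg _) hX99
      rw [hCC, add_mul, add_mul]
      linarith
    have hlog : 0 < Real.log X := Real.log_pos (by linarith)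
    have hmain : 2 * (X : ℝ) ^ (999 / 1000 : ℝ) ≤ cP * (X / Real.log X) := by
      have k1 : (X : ℝ) = (X : ℝ) ^ (999 / 1000 : ℝ) * (X : ℝ) ^ (1 / 1000 : ℝ) := by
        rw [← Real.rpow_add hX0]
        norm_num
      rw [mul_div_assoc', le_div_iff₀ hlog]
      calc 2 * (X : ℝ) ^ (999 / 1000 : ℝ) * Real.log X ≤
          2 * (X : ℝ) ^ (999 / 1000 : ℝ) * (cP / 2 * (X : ℝ) ^ (1 / 1000 : ℝ)) :=
            mul_le_mul_of_nonneg_left h1 (by positivity)
        _ = cP * ((X : ℝ) ^ (999 / 1000 : ℝ) * (X : ℝ) ^ (1 / 1000 : ℝ)) := by ring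
        _ = cP * X := by rw [← k1]
    have hP0c' : cP * (X / Real.log X) ≤ (P0.card : ℝ) := hP0c
    rw [one_mul] at h3
    linarith

end Pool.Agent.K9h5
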