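import Mathlib

/-!
# The second moment
-/

set_option autoImplicit false
set_option linter.all false

namespace Pool.Agent.K9h5

open Finset

/-- the second moment for a fixed parameter -/
theorem sec_one {β : Type} [DecidableEq β] (Bx : Finset β) (PP : Finset ℕ) (g : ℕ → β → ℝ)
    (hg : ∀ p m, |g p m| ≤ 1) (bad : Finset (ℕ × ℕ)) (B δ : ℝ) (hδ : 0 ≤ δ)
    (hbad : (bad.card : ℝ) ≤ B)
    (hcor : ∀ p ∈ PP, ∀ p' ∈ PP, (p, p') ∉ bad → |∑ m ∈ Bx, g p m * g p' m| ≤ δ * Bx.card)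
    (S : Finset β) (hS : S ⊆ Bx) (hSg : ∀ m ∈ S, ∀ p ∈ PP, 1 / 2 ≤ g p m) :
    (S.card : ℝ) * (PP.card : ℝ) ^ 2 ≤ Bx.card * (4 * B + 4 * δ * (PP.card : ℝ) ^ 2) := by
  have h1 : (S.card : ℝ) * ((PP.card : ℝ) / 2) ^ 2 ≤ ∑ m ∈ S, (∑ p ∈ PP, g p m) ^ 2 := by
    rw [← nsmul_eq_mul]
    apply Finset.card_nsmul_le_sum
    intro m hm
    have h2 : (PP.card : ℝ) / 2 ≤ ∑ p ∈ PP, g p m := by
      have h3 := Finset.card_nsmul_le_sum PP (fun p => g p m) (1 / 2) (hSg m hm)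
      rw [nsmul_eq_mul] at h3
      linarith
    exact pow_le_pow_left₀ (by positivity) h2 2
  have h2 : ∑ m ∈ S, (∑ p ∈ PP, g p m) ^ 2 ≤ ∑ m ∈ Bx, (∑ p ∈ PP, g p m) ^ 2 :=
    Finset.sum_le_sum_of_subset_of_nonneg hS fun _ _ _ => sq_nonneg _
  have h3 : ∑ m ∈ Bx, (∑ p ∈ PP, g p m) ^ 2 = ∑ p ∈ PP, ∑ p' ∈ PP, ∑ m ∈ Bx, g p m * g p' m := by
    have h4 : ∀ m ∈ Bx, (∑ p ∈ PP, g p m) ^ 2 = ∑ p ∈ PP, ∑ p' ∈ PP, g p m * g p' m := by
      intro m _
      rw [sq, Finset.sum_mul_sum]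
    rw [sum_congr rfl h4, sum_comm]
    refine sum_congr rfl fun p _ => ?_
    rw [sum_comm]
  have h4 : ∑ p ∈ PP, ∑ p' ∈ PP, ∑ m ∈ Bx, g p m * g p' m ≤
      ∑ p ∈ PP, ∑ p' ∈ PP, ((if (p, p') ∈ bad then (Bx.card : ℝ) else 0) + δ * Bx.card) := by
    refine sum_le_sum fun p hp => sum_le_sum fun p' hp' => ?_
    split_ifs with hb
    · have h5 : ∑ m ∈ Bx, g p m * g p' m ≤ Bx.card := by
        refine (Finset.sum_le_card_nsmul _ _ 1 ?_).trans (by rw [nsmul_eq_mul, mul_one])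
        intro m _
        have h6 : |g p m * g p' m| ≤ 1 := by
          rw [abs_mul]
          exact mul_le_one₀ (hg _ _) (abs_nonneg _) (hg _ _)
        exact (abs_le.1 h6).2
      have : 0 ≤ δ * Bx.card := by positivity
      linarith
    · rw [zero_add]
      exact (abs_le.1 (hcor p hp p' hp' hb)).2
  have h5 : ∑ p ∈ PP, ∑ p' ∈ PP, ((if (p, p') ∈ bad then (Bx.card : ℝ) else 0) + δ * Bx.card) ≤
      B * Bx.card + (PP.card : ℝ) ^ 2 * (δ * Bx.card) := by
    rw [← Finset.sum_product' (s := PP) (t := PP)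
      (f := fun p p' => (if (p, p') ∈ bad then (Bx.card : ℝ) else 0) + δ * Bx.card),
      Finset.sum_add_distrib, Finset.sum_const, card_product, nsmul_eq_mul]
    refine add_le_add ?_ (le_of_eq (by push_cast; ring))
    have h6 : ∑ x ∈ PP ×ˢ PP, (if (x.1, x.2) ∈ bad then (Bx.card : ℝ) else 0) ≤
        (bad.card : ℝ) * Bx.card := by
      rw [← Finset.sum_filter, Finset.sum_const, nsmul_eq_mul]
      refine mul_le_mul_of_nonneg_right ?_ (Nat.cast_nonneg _)
      have h7 : ((PP ×ˢ PP).filter (fun x => (x.1, x.2) ∈ bad)).card ≤ bad.card := by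
        refine card_le_card ?_
        intro x hx
        rw [mem_filter] at hx
        exact hx.2
      exact_mod_cast h7
    exact h6.trans (mul_le_mul_of_nonneg_right hbad (Nat.cast_nonneg _))
  have h6 := h1.trans (h2.trans (h3.le.trans (h4.trans h5)))
  nlinarith

open Classical in
/-- **The second moment.** -/
theorem sec_moment {α β : Type} (N : Finset α) (Bx : Finset β) (PP : Finset ℕ)
    (g : α → ℕ → β → ℝ) (hg : ∀ n p m, |g n p m| ≤ 1) (Gd : α → ℕ → Prop)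
    (bad : Finset (ℕ × ℕ)) (B δ ε : ℝ) (hδ : 0 ≤ δ) (hε : 0 ≤ ε) (hbad : (bad.card : ℝ) ≤ B)
    (hcor : ∀ n ∈ N, ∀ p ∈ PP, ∀ p' ∈ PP, Gd n p → Gd n p' → (p, p') ∉ bad →
      |∑ m ∈ Bx, g n p m * g n p' m| ≤ δ * Bx.card)
    (hGd : ∀ p ∈ PP, ((N.filter (fun n => ¬ Gd n p)).card : ℝ) ≤ ε * N.card)
    (S : α → Finset β) (hS : ∀ n ∈ N, S n ⊆ Bx)
    (hSg : ∀ n ∈ N, ∀ m ∈ S n, ∀ p ∈ PP, 1 / 2 ≤ g n p m) (hPP : 0 < PP.card) :
    ∑ n ∈ N, ((S n).card : ℝ) ≤
      N.card * Bx.card * (2 * ε + 16 * B / (PP.card : ℝ) ^ 2 + 4 * δ) := by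
  have hP0 : (0 : ℝ) < PP.card := by exact_mod_cast hPP
  have hB0 : 0 ≤ B := (Nat.cast_nonneg _).trans hbad
  set Q : α → Finset ℕ := fun n => PP.filter (fun p => Gd n p) with hQ
  -- the exceptional parameters
  set E := N.filter (fun n => 2 * (Q n).card < PP.card) with hE
  have hEc : (E.card : ℝ) ≤ 2 * ε * N.card := by
    have h1 : (E.card : ℝ) * ((PP.card : ℝ) / 2) ≤
        ∑ n ∈ N, ((PP.filter (fun p => ¬ Gd n p)).card : ℝ) := by
      rw [← nsmul_eq_mul]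
      refine (Finset.card_nsmul_le_sum E (fun n => ((PP.filter (fun p => ¬ Gd n p)).card : ℝ)) _
        ?_).trans (Finset.sum_le_sum_of_subset_of_nonneg (filter_subset _ _)
          fun _ _ _ => Nat.cast_nonneg _)
      intro n hn
      rw [hE, mem_filter] at hn
      have h2 := card_filter_add_card_filter_not (s := PP) (fun p => Gd n p)
      have h3 : PP.card ≤ 2 * (PP.filter (fun p => ¬ Gd n p)).card := by
        have h4 := hn.2
        rw [hQ] at h4
        simp only at h4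
        omega
      have h5 : (PP.card : ℝ) ≤ 2 * ((PP.filter (fun p => ¬ Gd n p)).card : ℝ) := by
        exact_mod_cast h3
      linarith
    have h2 : ∑ n ∈ N, ((PP.filter (fun p => ¬ Gd n p)).card : ℝ) =
        ∑ p ∈ PP, ((N.filter (fun n => ¬ Gd n p)).card : ℝ) := by
      have h3 : ∀ n ∈ N, ((PP.filter (fun p => ¬ Gd n p)).card : ℝ) =
          ∑ p ∈ PP, if ¬ Gd n p then (1 : ℝ) else 0 := by
        intro n _
        rw [← Finset.sum_filter, Finset.sum_const, nsmul_eq_mul, mul_one]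
      have h4 : ∀ p ∈ PP, ((N.filter (fun n => ¬ Gd n p)).card : ℝ) =
          ∑ n ∈ N, if ¬ Gd n p then (1 : ℝ) else 0 := by
        intro p _
        rw [← Finset.sum_filter, Finset.sum_const, nsmul_eq_mul, mul_one]
      rw [sum_congr rfl h3, sum_congr rfl h4, sum_comm]
    have h3 : ∑ p ∈ PP, ((N.filter (fun n => ¬ Gd n p)).card : ℝ) ≤ PP.card * (ε * N.card) := by
      refine (sum_le_sum hGd).trans ?_
      rw [sum_const, nsmul_eq_mul]
    rw [h2] at h1
    have h4 := h1.trans h3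
    have h5 : (E.card : ℝ) * ((PP.card : ℝ) / 2) ≤ (2 * ε * N.card) * ((PP.card : ℝ) / 2) := by
      refine h4.trans (le_of_eq ?_)
      ring
    exact le_of_mul_le_mul_right h5 (by positivity)
  -- the other parameters
  have hoth : ∀ n ∈ N, n ∉ E → ((S n).card : ℝ) ≤
      Bx.card * (16 * B / (PP.card : ℝ) ^ 2 + 4 * δ) := by
    intro n hn hnE
    have h1 : PP.card ≤ 2 * (Q n).card := by
      rw [hE, mem_filter, not_and, not_lt] at hnE
      exact hnE hn
    have h2 : (PP.card : ℝ) ≤ 2 * ((Q n).card : ℝ) := by exact_mod_cast h1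
    have hQ0 : (0 : ℝ) < (Q n).card := by linarith
    have h3 := sec_one Bx (Q n) (g n) (hg n) bad B δ hδ hbad (by
      intro p hp p' hp' hb
      rw [hQ, mem_filter] at hp hp'
      exact hcor n hn p hp.1 p' hp'.1 hp.2 hp'.2 hb) (S n) (hS n hn) (by
      intro m hm p hp
      rw [hQ, mem_filter] at hp
      exact hSg n hn m hm p hp.1)
    have h4 : ((S n).card : ℝ) ≤ Bx.card * (4 * B / ((Q n).card : ℝ) ^ 2 + 4 * δ) := by
      have h5 : Bx.card * (4 * B + 4 * δ * ((Q n).card : ℝ) ^ 2) =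
          (Bx.card * (4 * B / ((Q n).card : ℝ) ^ 2 + 4 * δ)) * ((Q n).card : ℝ) ^ 2 := by
        field_simp
      rw [h5] at h3
      exact le_of_mul_le_mul_right h3 (by positivity)
    refine h4.trans ?_
    refine mul_le_mul_of_nonneg_left ?_ (Nat.cast_nonneg _)
    refine add_le_add ?_ le_rfl
    rw [div_le_div_iff₀ (by positivity) (by positivity)]
    have h6 : (PP.card : ℝ) ^ 2 ≤ 4 * ((Q n).card : ℝ) ^ 2 := by nlinarith
    nlinarith
  have hall : ∀ n ∈ N, ((S n).card : ℝ) ≤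
      (if n ∈ E then (Bx.card : ℝ) else 0) + Bx.card * (16 * B / (PP.card : ℝ) ^ 2 + 4 * δ) := by
    intro n hn
    by_cases hnE : n ∈ E
    · rw [if_pos hnE]
      have h1 : ((S n).card : ℝ) ≤ Bx.card := by exact_mod_cast card_le_card (hS n hn)
      have : 0 ≤ (Bx.card : ℝ) * (16 * B / (PP.card : ℝ) ^ 2 + 4 * δ) := by positivity
      linarith
    · rw [if_neg hnE, zero_add]
      exact hoth n hn hnE
  refine (sum_le_sum hall).trans ?_
  rw [sum_add_distrib, sum_const, nsmul_eq_mul, ← Finset.sum_filter, sum_const, nsmul_eq_mul]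
  have h1 : (N.filter (fun n => n ∈ E)).card ≤ E.card := by
    refine card_le_card ?_
    intro n hn
    exact (mem_filter.1 hn).2
  have h2 : ((N.filter (fun n => n ∈ E)).card : ℝ) ≤ 2 * ε * N.card := by
    refine le_trans ?_ hEc
    exact_mod_cast h1
  have h3 := mul_le_mul_of_nonneg_right h2 (Nat.cast_nonneg (α := ℝ) Bx.card)
  refine (add_le_add h3 le_rfl).trans (le_of_eq ?_)
  ring

end Pool.Agent.K9h5
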