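import Mathlib
import Pool.Agent.K9h5.Prm

/-!
# Covering the points of bounded height by boxes
-/

set_option autoImplicit false
set_option linter.all false

namespace Pool.Agent.K9h5

open Pool.Agent.H901R3.MS WeierstrassCurve Finset

theorem HB_mono {a b : ℤ} {ρ : ℕ} {e : Fin ρ → Pt (a : ℚ) (b : ℚ)} {c c' : ℝ} (h : HB e c)
    (hc : c ≤ c') : HB e c' := by
  refine ⟨h.1.trans hc, h.2.1, ?_⟩
  intro n E hE hn
  exact (h.2.2 n E hE hn).trans (mul_le_mul_of_nonneg_right hc (by positivity))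

/-- **The cover.** -/
theorem cover {a b : ℤ} (hD : Disc (a : ℚ) (b : ℚ)) (m : ℕ)
    (hm : m ≤ Module.finrank ℤ (Pt (a : ℚ) (b : ℚ))) :
    ∃ (e₀ : Fin m → Pt (a : ℚ) (b : ℚ)) (c C : ℝ), HB e₀ c ∧ 0 ≤ C ∧
      ∀ T₁ : ℕ, ∃ Sh : Finset (Pt (a : ℚ) (b : ℚ)),
        (Sh.card : ℝ) ≤ C * ((2 * T₁ + 1 : ℕ) : ℝ) ^ (Module.finrank ℤ (Pt (a : ℚ) (b : ℚ)) - m) ∧
        ∀ x, c * √(hP x + 1) ≤ T₁ → ∃ σ ∈ Sh, ∃ n : Fin m → ℕ, (∀ k, n k < 2 * T₁ + 1) ∧
          x = σ + ∑ k, n k • e₀ k := by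
  classical
  obtain ⟨ρ', hρ'⟩ := Nat.exists_eq_add_of_le hm
  obtain ⟨e, R, c, hc, hco, hind, _, hup⟩ := coords hD (m + ρ') hρ'.symm
  set e₀ : Fin m → Pt (a : ℚ) (b : ℚ) := fun k => e (Fin.castAdd ρ' k) with he₀
  set e₁ : Fin ρ' → Pt (a : ℚ) (b : ℚ) := fun k => e (Fin.natAdd m k) with he₁
  have hext : ∀ n : Fin m → ℤ, ∑ k, n k • e₀ k =
      ∑ k, (Fin.append n (fun _ : Fin ρ' => (0 : ℤ))) k • e k := by
    intro n
    rw [Fin.sum_univ_add]
    simp only [Fin.append_left, Fin.append_right, zero_smul, sum_const_zero, add_zero, he₀]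
  refine ⟨e₀, c, R.card, ⟨hc, ?_, ?_⟩, Nat.cast_nonneg _, ?_⟩
  · intro n hn
    rw [hext] at hn
    have h1 := hind _ hn
    funext k
    have h2 := congrFun h1 (Fin.castAdd ρ' k)
    rw [Fin.append_left] at h2
    exact h2
  · intro n E hE hn
    rw [hext]
    refine hup _ E hE ?_
    intro k
    refine Fin.addCases (fun i => ?_) (fun i => ?_) k
    · rw [Fin.append_left]; exact hn i
    · rw [Fin.append_right, Int.cast_zero, abs_zero]; linarith
  · intro T₁
    set s₀ : Pt (a : ℚ) (b : ℚ) := ∑ k, (T₁ : ℤ) • e k with hs₀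
    set Sh : Finset (Pt (a : ℚ) (b : ℚ)) :=
      (R ×ˢ Fintype.piFinset (fun _ : Fin ρ' => range (2 * T₁ + 1))).image
        (fun z => z.1 - s₀ + ∑ k, z.2 k • e₁ k) with hSh
    refine ⟨Sh, ?_, ?_⟩
    · have h1 : Sh.card ≤ R.card * (2 * T₁ + 1) ^ ρ' := by
        refine card_image_le.trans ?_
        rw [card_product, Fintype.card_piFinset, prod_const, card_range, card_univ,
          Fintype.card_fin]
      have h2 : Module.finrank ℤ (Pt (a : ℚ) (b : ℚ)) - m = ρ' := by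
        rw [hρ', Nat.add_sub_cancel_left]
      rw [h2]
      exact_mod_cast h1
    · intro x hx
      obtain ⟨ω, hω, n, hxn, hn⟩ := hco x
      have hnb : ∀ k, -(T₁ : ℤ) ≤ n k ∧ n k ≤ T₁ := by
        intro k
        have h1 := abs_le.1 ((hn k).trans hx)
        constructor
        · exact_mod_cast h1.1
        · exact_mod_cast h1.2
      have hnat : ∀ k, ∃ q : ℕ, (q : ℤ) = n k + T₁ ∧ q < 2 * T₁ + 1 := by
        intro k
        obtain ⟨h1, h2⟩ := hnb k
        refine ⟨(n k + T₁).toNat, ?_, ?_⟩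
        · omega
        · omega
      choose q hq hqT using hnat
      refine ⟨ω - s₀ + ∑ k, q (Fin.natAdd m k) • e₁ k, ?_, fun k => q (Fin.castAdd ρ' k),
        fun k => hqT _, ?_⟩
      · rw [hSh, mem_image]
        refine ⟨(ω, fun k => q (Fin.natAdd m k)), ?_, rfl⟩
        rw [mem_product]
        refine ⟨hω, ?_⟩
        rw [Fintype.mem_piFinset]
        intro k
        rw [mem_range]
        exact hqT _
      · rw [hxn]
        have h1 : ∑ k, n k • e k = ∑ k, q k • e k - s₀ := by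
          rw [hs₀, ← sum_sub_distrib]
          refine sum_congr rfl fun k _ => ?_
          rw [← natCast_zsmul, hq k, add_smul]
          abel
        rw [h1, Fin.sum_univ_add]
        simp only [he₀, he₁]
        abel

/-- **The lower bound.** -/
theorem lower {a b : ℤ} (hD : Disc (a : ℚ) (b : ℚ)) : ∃ c₀ : ℝ, 0 < c₀ ∧ ∀ B : ℝ, 0 ≤ B →
    ∀ hfin : {x : Pt (a : ℚ) (b : ℚ) | hP x ≤ B}.Finite,
    c₀ * B ^ ((Module.finrank ℤ (Pt (a : ℚ) (b : ℚ)) : ℝ) / 2) ≤
      ({x : Pt (a : ℚ) (b : ℚ) | hP x ≤ B}.ncard : ℝ) := by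
  classical
  set ρ := Module.finrank ℤ (Pt (a : ℚ) (b : ℚ)) with hρ
  obtain ⟨e, R, c, hc, hco, hind, _, hup⟩ := coords hD ρ hρ
  have hc0 : 0 < c := by linarith
  refine ⟨(1 / c) ^ ((ρ : ℝ) / 2), by positivity, ?_⟩
  intro B hB hfin
  set E : ℝ := √(B / c) with hE
  set M : ℕ := ⌊E⌋₊ with hM
  have hinj : Function.Injective (fun n : Fin ρ → ℕ => ∑ k, n k • e k) := by
    intro n n' hnn
    simp only at hnn
    have h1 : ∑ k, ((n k : ℤ) - n' k) • e k = 0 := by
      have h2 : ∀ k, ((n k : ℤ) - n' k) • e k = n k • e k - n' k • e k := by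
        intro k
        rw [sub_smul, natCast_zsmul, natCast_zsmul]
      rw [sum_congr rfl fun k _ => h2 k, sum_sub_distrib, hnn, sub_self]
    have h2 := hind _ h1
    funext k
    have h3 := congrFun h2 k
    simp only [Pi.zero_apply] at h3
    omega
  have hsub : (((Fintype.piFinset (fun _ : Fin ρ => range (M + 1))).image
      (fun n : Fin ρ → ℕ => ∑ k, n k • e k) : Finset _) : Set (Pt (a : ℚ) (b : ℚ))) ⊆
      {x : Pt (a : ℚ) (b : ℚ) | hP x ≤ B} := by
    intro x hx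
    rw [mem_coe, mem_image] at hx
    obtain ⟨n, hn, rfl⟩ := hx
    rw [Fintype.mem_piFinset] at hn
    rw [Set.mem_setOf_eq]
    by_cases hE1 : 1 ≤ E
    · have h1 := hup (fun k => (n k : ℤ)) E hE1 (by
        intro k
        have h2 := mem_range.1 (hn k)
        have h3 : (n k : ℝ) ≤ M := by exact_mod_cast Nat.lt_succ_iff.1 h2
        have h4 : (M : ℝ) ≤ E := Nat.floor_le (Real.sqrt_nonneg _)
        rw [Int.cast_natCast, Nat.abs_cast]
        exact h3.trans h4)
      have h2 : c * E ^ 2 = B := by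
        rw [hE, Real.sq_sqrt (by positivity), mul_div_cancel₀ _ hc0.ne']
      rw [h2] at h1
      simp only [natCast_zsmul] at h1
      exact h1
    · have hM0 : M = 0 := by
        rw [hM, Nat.floor_eq_zero]
        exact not_le.1 hE1
      have h1 : ∀ k, n k = 0 := by
        intro k
        have h2 := mem_range.1 (hn k)
        omega
      have h2 : ∑ k, n k • e k = 0 := by
        refine sum_eq_zero fun k _ => ?_
        rw [h1 k, zero_smul]
      rw [h2]
      exact hB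
  have h1 := Set.ncard_le_ncard hsub hfin
  rw [Set.ncard_coe_finset, card_image_of_injective _ hinj, Fintype.card_piFinset, prod_const,
    card_range, card_univ, Fintype.card_fin] at h1
  have h2 : E ≤ ((M + 1 : ℕ) : ℝ) := by
    push_cast
    exact (Nat.lt_floor_add_one E).le
  have h3 : E ^ ρ ≤ ((M + 1 : ℕ) : ℝ) ^ ρ := pow_le_pow_left₀ (Real.sqrt_nonneg _) h2 ρ
  have h4 : ((M + 1 : ℕ) : ℝ) ^ ρ ≤ ({x : Pt (a : ℚ) (b : ℚ) | hP x ≤ B}.ncard : ℝ) := by
    exact_mod_cast h1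
  refine le_trans (le_of_eq ?_) (h3.trans h4)
  rw [hE, Real.sqrt_eq_rpow, ← Real.rpow_natCast, ← Real.rpow_mul (by positivity),
    div_eq_mul_inv B c, Real.mul_rpow hB (by positivity), one_div, mul_comm]
  congr 1 <;> congr 1 <;> ring

end Pool.Agent.K9h5
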