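import Mathlib
import Pool.Agent.K9h5.Core
import Pool.Agent.K9h5.Cov

/-!
# The main theorem
-/

set_option autoImplicit false
set_option linter.all false

namespace Pool.Agent.K9h5

open Pool.Agent.H901R3.MS WeierstrassCurve Finset

/-- the tuples of points of height at most `B` -/
def AB {r : ℕ} (a b : Fin r → ℤ) (B : ℝ) : Set (∀ i, Pt (a i : ℚ) (b i : ℚ)) :=
  {P | ∀ i, hP (P i) ≤ B}

theorem AB_eq {r : ℕ} (a b : Fin r → ℤ) (B : ℝ) :
    AB a b B = Set.univ.pi (fun i => {x : Pt (a i : ℚ) (b i : ℚ) | hP x ≤ B}) := by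
  ext P
  simp [AB, Set.mem_pi]

theorem AB_finite {r : ℕ} (a b : Fin r → ℤ) (B : ℝ) : (AB a b B).Finite := by
  rw [AB_eq]
  exact Set.Finite.pi fun i => northcott B

theorem AB_card {r : ℕ} (a b : Fin r → ℤ) (B : ℝ) : (AB a b B).ncard =
    ∏ i, {x : Pt (a i : ℚ) (b i : ℚ) | hP x ≤ B}.ncard := by
  classical
  have h1 : AB a b B = ((Fintype.piFinset (fun i => (northcott (a := a i) (b := b i) B).toFinset) :
      Finset (∀ i, Pt (a i : ℚ) (b i : ℚ))) : Set _) := by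
    ext P
    simp [AB]
  rw [h1, Set.ncard_coe_finset, Fintype.card_piFinset]
  refine prod_congr rfl fun i _ => ?_
  rw [Set.ncard_eq_toFinset_card _ (northcott B)]

theorem prod_pow_sub {r : ℕ} (j : Fin r) (ρ : Fin r → ℕ) (hρ : ∀ i, 1 ≤ ρ i) (hj : 3 ≤ ρ j)
    (T : ℝ) : (∏ i, T ^ (ρ i - (if i = j then 3 else 1))) * (T ^ (r - 1) * T ^ 3) =
      ∏ i, T ^ ρ i := by
  classical
  rw [← mul_prod_erase (univ : Finset (Fin r)) _ (mem_univ j),
    ← mul_prod_erase (univ : Finset (Fin r)) (fun i => T ^ ρ i) (mem_univ j), if_pos rfl]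
  have h1 : ∀ i ∈ univ.erase j, T ^ ρ i = T ^ (ρ i - (if i = j then 3 else 1)) * T := by
    intro i hi
    rw [mem_erase] at hi
    rw [if_neg hi.1, ← pow_succ]
    congr 1
    have := hρ i
    omega
  rw [prod_congr rfl h1, prod_mul_distrib, prod_const, card_erase_of_mem (mem_univ _), card_univ,
    Fintype.card_fin]
  have h2 : T ^ ρ j = T ^ (ρ j - 3) * T ^ 3 := by
    rw [← pow_add]
    congr 1
    omega
  rw [h2]
  ring

/-- **The main theorem**, for points. -/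
theorem main_points {r : ℕ} (a b : Fin r → ℤ) (hD : ∀ i, Disc (a i : ℚ) (b i : ℚ))
    (F : MvPolynomial (Fin r × Fin 3) ℤ) (l : ℕ) (hl : l.Prime) (j : Fin r) (d : Fin r → ℕ)
    (hF : ∀ i, F.IsWeightedHomogeneous (wtj i) (d i)) (hld : ∀ i, l ∣ d i) (hR : Ram a b F l j)
    (hrk : ∀ i, 1 ≤ Module.finrank ℤ (Pt (a i : ℚ) (b i : ℚ)))
    (hrj : 3 ≤ Module.finrank ℤ (Pt (a j : ℚ) (b j : ℚ))) :
    ∃ C : ℝ, 0 ≤ C ∧ ∀ B : ℝ, 1 ≤ B →
      ({P : ∀ i, Pt (a i : ℚ) (b i : ℚ) | (∀ i, hP (P i) ≤ B) ∧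
        ∃ w : ℚ, w ^ l = evF F (fun i => rep (P i))}.ncard : ℝ) ≤
      C * (B ^ (-(1 / 300) : ℝ) * ((AB a b B).ncard : ℝ)) := by
  classical
  set ρ : Fin r → ℕ := fun i => Module.finrank ℤ (Pt (a i : ℚ) (b i : ℚ)) with hρ
  choose e₁ c₁ C₁ hHB₁ hC₁ hcov₁ using fun i => cover (hD i) 1 (hrk i)
  obtain ⟨e₃, c₃, C₃, hHB₃, hC₃, hcov₃⟩ := cover (hD j) 3 hrj
  choose c₀ hc₀ hlow using fun i => lower (hD i)
  set c : ℝ := (∑ i, c₁ i) + c₃ with hc
  have hc1 : ∀ i, 0 ≤ c₁ i := fun i => by linarith [(hHB₁ i).1]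
  have hc3 : 1 ≤ c₃ := hHB₃.1
  have hcc : ∀ i, c₁ i ≤ c := by
    intro i
    have := single_le_sum (f := c₁) (fun i _ => hc1 i) (mem_univ i)
    rw [hc]; linarith
  have hcc3 : c₃ ≤ c := by
    have : 0 ≤ ∑ i, c₁ i := sum_nonneg fun i _ => hc1 i
    rw [hc]; linarith
  have hc1' : 1 ≤ c := hc3.trans hcc3
  obtain ⟨CC, hCC, hcore⟩ := core a b hD F l hl j d hF hld hR (fun i => e₁ i 0) e₃ c (by
    intro i _
    have h1 := HB_mono (hHB₁ i) (hcc i)
    have h2 : (fun _ : Fin 1 => e₁ i 0) = e₁ i := by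
      funext k
      rw [Subsingleton.elim k 0]
    rw [h2]
    exact h1) (HB_mono hHB₃ hcc3)
  set K : ℝ := 7 * c with hK
  have hK1 : 1 ≤ K := by rw [hK]; linarith
  set C₄ : ℝ := C₃ * ∏ i, (C₁ i + 1) with hC₄
  have hC₄0 : 0 ≤ C₄ := mul_nonneg hC₃ (prod_nonneg fun i _ => by linarith [hC₁ i])
  refine ⟨C₄ * CC * K ^ (∑ i, ρ i) / ∏ i, c₀ i, ?_, ?_⟩
  · have : 0 < ∏ i, c₀ i := prod_pos fun i _ => hc₀ i
    positivity
  intro B hB
  have hB0 : 0 < B := by linarith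
  have hfin := AB_finite a b B
  -- the size of the boxes
  set T₁ : ℕ := ⌈c * √(B + 1)⌉₊ with hT₁
  set T : ℕ := 2 * T₁ + 1 with hT
  have hT1 : 1 ≤ T := by omega
  have hTr : (1 : ℝ) ≤ T := by exact_mod_cast hT1
  have hT0 : (0 : ℝ) < T := by linarith
  have hsB : (1 : ℝ) ≤ √B := by rw [Real.one_le_sqrt]; exact hB
  have hsB2 : √(B + 1) ≤ 3 / 2 * √B := by
    rw [show (3 / 2 : ℝ) * √B = √(9 / 4 * B) by
      rw [Real.sqrt_mul' _ hB0.le]
      congr 1
      rw [show (9 / 4 : ℝ) = (3 / 2) ^ 2 by norm_num, Real.sqrt_sq (by norm_num)]]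
    apply Real.sqrt_le_sqrt
    linarith
  have hTK : (T : ℝ) ≤ K * √B := by
    have h1 : (T₁ : ℝ) < c * √(B + 1) + 1 := Nat.ceil_lt_add_one (by positivity)
    have h2 : (T : ℝ) = 2 * T₁ + 1 := by rw [hT]; push_cast; ring
    rw [h2, hK]
    have h3 : c * √(B + 1) ≤ c * (3 / 2 * √B) := mul_le_mul_of_nonneg_left hsB2 (by linarith)
    have h4 : 1 ≤ c * √B := by nlinarith
    nlinarith
  have hTB : √B ≤ T := by
    have h1 : c * √(B + 1) ≤ T₁ := Nat.le_ceil _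
    have h2 : (T : ℝ) = 2 * T₁ + 1 := by rw [hT]; push_cast; ring
    have h3 : √B ≤ √(B + 1) := Real.sqrt_le_sqrt (by linarith)
    have h4 : √(B + 1) ≤ c * √(B + 1) := le_mul_of_one_le_left (Real.sqrt_nonneg _) hc1'
    rw [h2]
    have h5 : (0 : ℝ) ≤ T₁ := Nat.cast_nonneg _
    linarith
  choose Sh₁ hSh₁c hSh₁ using fun i => hcov₁ i T₁
  obtain ⟨Sh₃, hSh₃c, hSh₃⟩ := hcov₃ T₁
  set Sh := Function.update Sh₁ j Sh₃ with hSh
  -- the cover
  set LB : Set (∀ i, Pt (a i : ℚ) (b i : ℚ)) := {P | (∀ i, hP (P i) ≤ B) ∧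
        ∃ w : ℚ, w ^ l = evF F (fun i => rep (P i))} with hLB
  set UU : Finset (∀ i, Pt (a i : ℚ) (b i : ℚ)) := (Fintype.piFinset Sh).biUnion (fun σ =>
    (Nx j T).biUnion (fun n => ((Bx T).filter (fun m => ∃ w : ℚ, w ^ l =
        evF F (fun i => rep (ptb a b j (fun i => e₁ i 0) e₃ σ n m i)))).image
      (fun m => ptb a b j (fun i => e₁ i 0) e₃ σ n m))) with hUU
  have hLU : LB ⊆ (UU : Set _) := by
    rintro P ⟨hPB, hPw⟩
    have hle : ∀ (c' : ℝ), 0 ≤ c' → c' ≤ c → ∀ i, c' * √(hP (P i) + 1) ≤ T₁ := by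
      intro c' hc'0 hc' i
      refine le_trans ?_ (Nat.le_ceil (c * √(B + 1)))
      refine mul_le_mul hc' ?_ (Real.sqrt_nonneg _) (by linarith)
      apply Real.sqrt_le_sqrt
      linarith [hPB i]
    choose σ₁ hσ₁ n₁ hn₁ hP₁ using fun i => hSh₁ i (P i) (hle (c₁ i) (hc1 i) (hcc i) i)
    obtain ⟨σ₃, hσ₃, m, hm, hP₃⟩ := hSh₃ (P j) (hle c₃ (by linarith) hcc3 j)
    set σ := Function.update σ₁ j σ₃ with hσ
    set n : Fin r → ℕ := fun i => if i = j then 0 else n₁ i 0 with hn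
    have hpt : ptb a b j (fun i => e₁ i 0) e₃ σ n m = P := by
      funext i
      unfold ptb
      by_cases hij : i = j
      · subst hij
        rw [Function.update_self, hσ, Function.update_self]
        exact hP₃.symm
      · rw [Function.update_of_ne hij, hσ, Function.update_of_ne hij, hn]
        simp only
        rw [if_neg hij]
        have h1 := hP₁ i
        rw [Fin.sum_univ_one] at h1
        exact h1.symm
    rw [mem_coe, hUU, mem_biUnion]
    refine ⟨σ, ?_, ?_⟩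
    · rw [Fintype.mem_piFinset]
      intro i
      by_cases hij : i = j
      · subst hij
        rw [hSh, hσ, Function.update_self, Function.update_self]
        exact hσ₃
      · rw [hSh, hσ, Function.update_of_ne hij, Function.update_of_ne hij]
        exact hσ₁ i
    · rw [mem_biUnion]
      refine ⟨n, ?_, ?_⟩
      · rw [Nx, Fintype.mem_piFinset]
        intro i
        rw [hn, mem_range]
        simp only
        by_cases hij : i = j
        · rw [if_pos hij, if_pos hij]; exact Nat.one_pos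
        · rw [if_neg hij, if_neg hij]; exact hn₁ i 0
      · rw [mem_image]
        refine ⟨m, ?_, hpt⟩
        rw [mem_filter, Bx, Fintype.mem_piFinset]
        refine ⟨fun k => mem_range.2 (hm k), ?_⟩
        rw [hpt]
        exact hPw
  have h1 : (LB.ncard : ℝ) ≤ (UU.card : ℝ) := by
    have h2 := Set.ncard_le_ncard hLU (Finset.finite_toSet _)
    rw [Set.ncard_coe_finset] at h2
    exact_mod_cast h2
  have h2 : (UU.card : ℝ) ≤ ((Fintype.piFinset Sh).card : ℝ) *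
      (CC * ((T : ℝ) ^ (r - 1) * (T : ℝ) ^ 3 * (T : ℝ) ^ (-(1 / 150) : ℝ))) := by
    have h3 : UU.card ≤ ∑ σ ∈ Fintype.piFinset Sh, ∑ n ∈ Nx j T,
        ((Bx T).filter (fun m => ∃ w : ℚ, w ^ l =
        evF F (fun i => rep (ptb a b j (fun i => e₁ i 0) e₃ σ n m i)))).card := by
      refine card_biUnion_le.trans (sum_le_sum fun σ _ => ?_)
      exact card_biUnion_le.trans (sum_le_sum fun n _ => card_image_le)
    have h4 : (UU.card : ℝ) ≤ ∑ σ ∈ Fintype.piFinset Sh, ∑ n ∈ Nx j T,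
        (((Bx T).filter (fun m => ∃ w : ℚ, w ^ l =
        evF F (fun i => rep (ptb a b j (fun i => e₁ i 0) e₃ σ n m i)))).card : ℝ) := by
      exact_mod_cast h3
    refine h4.trans ?_
    have h5 : ∀ σ ∈ Fintype.piFinset Sh, ∑ n ∈ Nx j T, (((Bx T).filter (fun m => ∃ w : ℚ, w ^ l =
        evF F (fun i => rep (ptb a b j (fun i => e₁ i 0) e₃ σ n m i)))).card : ℝ) ≤
        CC * ((T : ℝ) ^ (r - 1) * (T : ℝ) ^ 3 * (T : ℝ) ^ (-(1 / 150) : ℝ)) := by
      intro σ _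
      refine le_trans (le_of_eq ?_) (hcore T hT1 σ)
      refine sum_congr rfl fun n _ => ?_
      congr!
    refine (sum_le_sum h5).trans ?_
    rw [sum_const, nsmul_eq_mul]
  have h3 : ((Fintype.piFinset Sh).card : ℝ) ≤
      C₄ * ∏ i, (T : ℝ) ^ (ρ i - (if i = j then 3 else 1)) := by
    rw [Fintype.card_piFinset]
    push_cast
    have h4 : ∀ i, ((Sh i).card : ℝ) ≤ (if i = j then C₃ else C₁ i) *
        (T : ℝ) ^ (ρ i - (if i = j then 3 else 1)) := by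
      intro i
      by_cases hij : i = j
      · subst hij
        rw [hSh, Function.update_self, if_pos rfl, if_pos rfl]
        exact hSh₃c
      · rw [hSh, Function.update_of_ne hij, if_neg hij, if_neg hij]
        exact hSh₁c i
    refine (prod_le_prod (fun i _ => Nat.cast_nonneg _) fun i _ => h4 i).trans ?_
    rw [prod_mul_distrib]
    refine mul_le_mul_of_nonneg_right ?_ (prod_nonneg fun i _ => by positivity)
    rw [hC₄, ← mul_prod_erase (univ : Finset (Fin r)) _ (mem_univ j), if_pos rfl]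
    refine mul_le_mul_of_nonneg_left ?_ hC₃
    rw [← mul_prod_erase (univ : Finset (Fin r)) (fun i => C₁ i + 1) (mem_univ j)]
    have h5 : ∏ i ∈ univ.erase j, (if i = j then C₃ else C₁ i) ≤ ∏ i ∈ univ.erase j, (C₁ i + 1) := by
      refine prod_le_prod (fun i hi => ?_) fun i hi => ?_
      · rw [if_neg (mem_erase.1 hi).1]; exact hC₁ i
      · rw [if_neg (mem_erase.1 hi).1]; linarith
    refine h5.trans (le_mul_of_one_le_left (prod_nonneg fun i _ => by linarith [hC₁ i]) ?_)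
    linarith [hC₁ j]
  have h4 : (LB.ncard : ℝ) ≤ C₄ * CC * ((∏ i, (T : ℝ) ^ ρ i) * (T : ℝ) ^ (-(1 / 150) : ℝ)) := by
    refine h1.trans (h2.trans ?_)
    refine (mul_le_mul_of_nonneg_right h3 (by positivity)).trans (le_of_eq ?_)
    rw [← prod_pow_sub j ρ hrk hrj (T : ℝ)]
    ring
  -- powers of B
  have h5 : (∏ i, (T : ℝ) ^ ρ i) ≤ K ^ (∑ i, ρ i) * ∏ i, B ^ ((ρ i : ℝ) / 2) := by
    rw [prod_pow_eq_pow_sum]
    refine (pow_le_pow_left₀ hT0.le hTK _).trans (le_of_eq ?_)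
    rw [mul_pow]
    congr 1
    rw [← prod_pow_eq_pow_sum]
    refine prod_congr rfl fun i _ => ?_
    rw [Real.sqrt_eq_rpow, ← Real.rpow_natCast, ← Real.rpow_mul hB0.le]
    congr 1
    ring
  have h6 : (T : ℝ) ^ (-(1 / 150) : ℝ) ≤ B ^ (-(1 / 300) : ℝ) := by
    have h7 : (T : ℝ) ^ (-(1 / 150) : ℝ) ≤ (√B) ^ (-(1 / 150) : ℝ) :=
      Real.rpow_le_rpow_of_nonpos (by linarith) hTB (by norm_num)
    refine h7.trans (le_of_eq ?_)
    rw [Real.sqrt_eq_rpow, ← Real.rpow_mul hB0.le]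
    norm_num
  have h7 : (∏ i, c₀ i) * ∏ i, B ^ ((ρ i : ℝ) / 2) ≤ ((AB a b B).ncard : ℝ) := by
    rw [AB_card, ← prod_mul_distrib]
    push_cast
    refine prod_le_prod (fun i _ => mul_nonneg (hc₀ i).le (by positivity)) fun i _ => ?_
    exact hlow i B hB0.le (northcott B)
  have hc0p : 0 < ∏ i, c₀ i := prod_pos fun i _ => hc₀ i
  calc (LB.ncard : ℝ) ≤ C₄ * CC * ((∏ i, (T : ℝ) ^ ρ i) * (T : ℝ) ^ (-(1 / 150) : ℝ)) := h4
    _ ≤ C₄ * CC * ((K ^ (∑ i, ρ i) * ∏ i, B ^ ((ρ i : ℝ) / 2)) * B ^ (-(1 / 300) : ℝ)) := by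
        refine mul_le_mul_of_nonneg_left ?_ (by positivity)
        exact mul_le_mul h5 h6 (by positivity) (by positivity)
    _ = C₄ * CC * K ^ (∑ i, ρ i) / (∏ i, c₀ i) *
        (B ^ (-(1 / 300) : ℝ) * ((∏ i, c₀ i) * ∏ i, B ^ ((ρ i : ℝ) / 2))) := by
        field_simp
    _ ≤ _ := by
        refine mul_le_mul_of_nonneg_left ?_ (by positivity)
        exact mul_le_mul_of_nonneg_left h7 (by positivity)

theorem pow_roots_card (l : ℕ) (hl : 1 ≤ l) (t : ℚ) :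
    {w : ℚ | w ^ l = t}.Finite ∧ {w : ℚ | w ^ l = t}.ncard ≤ l := by
  classical
  have h1 : {w : ℚ | w ^ l = t} ⊆ ((Polynomial.X ^ l - Polynomial.C t : Polynomial ℚ).roots.toFinset :
      Set ℚ) := by
    intro w hw
    rw [Set.mem_setOf_eq] at hw
    rw [mem_coe, Multiset.mem_toFinset,
      Polynomial.mem_roots (Polynomial.X_pow_sub_C_ne_zero (by omega) t)]
    simp [hw]
  have hf := Finset.finite_toSet ((Polynomial.X ^ l - Polynomial.C t : Polynomial ℚ).roots.toFinset)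
  refine ⟨hf.subset h1, ?_⟩
  refine (Set.ncard_le_ncard h1 hf).trans ?_
  rw [Set.ncard_coe_finset]
  refine (Multiset.toFinset_card_le _).trans ((Polynomial.card_roots' _).trans ?_)
  rw [Polynomial.natDegree_X_pow_sub_C]

/-- **The main theorem.** -/
theorem main_thm {r : ℕ} (a b : Fin r → ℤ) (hD : ∀ i, Disc (a i : ℚ) (b i : ℚ))
    (F : MvPolynomial (Fin r × Fin 3) ℤ) (l : ℕ) (hl : l.Prime) (j : Fin r) (d : Fin r → ℕ)
    (hF : ∀ i, F.IsWeightedHomogeneous (wtj i) (d i)) (hld : ∀ i, l ∣ d i) (hR : Ram a b F l j)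
    (hrk : ∀ i, 1 ≤ Module.finrank ℤ (Pt (a i : ℚ) (b i : ℚ)))
    (hrj : 3 ≤ Module.finrank ℤ (Pt (a j : ℚ) (b j : ℚ))) :
    ∃ C : ℝ, 0 < C ∧ ∀ B : ℝ, 1 ≤ B → (AB a b B).Finite ∧
      {z : (∀ i, Pt (a i : ℚ) (b i : ℚ)) × ℚ | (∀ i, hP (z.1 i) ≤ B) ∧
        z.2 ^ l = evF F (fun i => rep (z.1 i))}.Finite ∧
      ({z : (∀ i, Pt (a i : ℚ) (b i : ℚ)) × ℚ | (∀ i, hP (z.1 i) ≤ B) ∧
        z.2 ^ l = evF F (fun i => rep (z.1 i))}.ncard : ℝ) ≤
      C * (B ^ (-(1 / 300) : ℝ) * ((AB a b B).ncard : ℝ)) := by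
  classical
  obtain ⟨C, hC, hmain⟩ := main_points a b hD F l hl j d hF hld hR hrk hrj
  refine ⟨l * C + 1, by positivity, ?_⟩
  intro B hB
  have hB0 : 0 < B := by linarith
  set Z := {z : (∀ i, Pt (a i : ℚ) (b i : ℚ)) × ℚ | (∀ i, hP (z.1 i) ≤ B) ∧
        z.2 ^ l = evF F (fun i => rep (z.1 i))} with hZ
  set LB : Set (∀ i, Pt (a i : ℚ) (b i : ℚ)) := {P | (∀ i, hP (P i) ≤ B) ∧
        ∃ w : ℚ, w ^ l = evF F (fun i => rep (P i))} with hLB
  have hLBf : LB.Finite := (AB_finite a b B).subset fun P hP => hP.1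
  set U : Finset ((∀ i, Pt (a i : ℚ) (b i : ℚ)) × ℚ) := hLBf.toFinset.biUnion (fun P =>
    ((pow_roots_card l hl.one_lt.le (evF F (fun i => rep (P i)))).1.toFinset).image
      (fun w => (P, w))) with hU
  have hZU : Z ⊆ (U : Set _) := by
    rintro ⟨P, w⟩ ⟨h1, h2⟩
    rw [mem_coe, hU, mem_biUnion]
    refine ⟨P, ?_, ?_⟩
    · rw [Set.Finite.mem_toFinset]
      exact ⟨h1, w, h2⟩
    · rw [mem_image]
      refine ⟨w, ?_, rfl⟩
      rw [Set.Finite.mem_toFinset]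
      exact h2
  have hUf : (U : Set ((∀ i, Pt (a i : ℚ) (b i : ℚ)) × ℚ)).Finite := Finset.finite_toSet U
  refine ⟨AB_finite a b B, hUf.subset hZU, ?_⟩
  have h1 : Z.ncard ≤ U.card := by
    have h2 := Set.ncard_le_ncard hZU hUf
    rwa [Set.ncard_coe_finset] at h2
  have h2 : U.card ≤ LB.ncard * l := by
    refine card_biUnion_le.trans ?_
    refine (sum_le_card_nsmul _ _ l ?_).trans ?_
    · intro P _
      refine card_image_le.trans ?_
      have h3 := (pow_roots_card l hl.one_lt.le (evF F (fun i => rep (P i)))).2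
      rwa [Set.ncard_eq_toFinset_card _
        (pow_roots_card l hl.one_lt.le (evF F (fun i => rep (P i)))).1] at h3
    · rw [smul_eq_mul, Set.ncard_eq_toFinset_card _ hLBf]
  have h3 : (Z.ncard : ℝ) ≤ LB.ncard * l := by exact_mod_cast h1.trans h2
  have h4 := hmain B hB
  have h5 : (0 : ℝ) ≤ B ^ (-(1 / 300) : ℝ) * ((AB a b B).ncard : ℝ) := by positivity
  calc (Z.ncard : ℝ) ≤ LB.ncard * l := h3
    _ ≤ (C * (B ^ (-(1 / 300) : ℝ) * ((AB a b B).ncard : ℝ))) * l :=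
        mul_le_mul_of_nonneg_right h4 (Nat.cast_nonneg _)
    _ ≤ _ := by
        rw [add_mul, one_mul]
        have : (C * (B ^ (-(1 / 300) : ℝ) * ((AB a b B).ncard : ℝ))) * l =
            l * C * (B ^ (-(1 / 300) : ℝ) * ((AB a b B).ncard : ℝ)) := by ring
        linarith

end Pool.Agent.K9h5
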